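import Pool.Agent.Helper27.REC.StmtsT2

/-!
# GTS: the generating summands are strongly irreducible
-/

set_option autoImplicit false

open scoped Classical
open NumberField Polynomial

namespace REC

open Pool.Agent.Helper13.ZL (Pl q)
open MU

namespace GTSp

theorem irr_le {G H K : Type} [Group G] [Group H] [Field K] {n : ℕ}
    (R : G →* Matrix (Fin n) (Fin n) K) (r : H →* G) (U : Subgroup G) (hU : r.range ≤ U)
    (h : IsIrr (R.comp r)) : IsIrr (R.comp U.subtype) := by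
  intro m B A hBA
  refine h m B (fun g => A ⟨r g, hU ⟨g, rfl⟩⟩) ⟨hBA.1, fun g => ?_⟩
  exact hBA.2 ⟨r g, hU ⟨g, rfl⟩⟩

theorem irr_top {G K : Type} [Group G] [Field K] {n : ℕ}
    (R : G →* Matrix (Fin n) (Fin n) K) (h : IsIrr (R.comp (⊤ : Subgroup G).subtype)) :
    IsIrr R := by
  intro m B A hBA
  exact h m B (fun g => A g.1) ⟨hBA.1, fun g => hBA.2 g.1⟩

theorem flc {n m : ℕ} {L : Type} [Field L] [NumberField L] {F : Type} [Field F] [NumberField F]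
    (b : Blo n m L) (h : Fin n → ℕ) (d : Prop) (ρ : Fml F n) (hb : b.FLc h d ρ) :
    b.FLc h False ρ := by
  obtain ⟨c, hc⟩ := hb
  refine ⟨c, fun l _ hl Ω _ ϑ ι R hΩ hR θ => ?_⟩
  obtain ⟨r, s, hr, hs, h1⟩ := hc l hl Ω ϑ ι R hΩ hR θ
  exact ⟨r, s, hr, fun i => ⟨(hs i).1, fun hf => hf.elim⟩, h1⟩

theorem sir {n m : ℕ} {L : Type} [Field L] [NumberField L] {F : Type} [Field F] [NumberField F]
    {K : Type} [Field K] [NumberField K] (b : Blo n m L) (ρ : Fml F n) (r : Gal K →* Gal F)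
    (H : Subgroup (Gal F)) (hH : r.range ≤ H) (h : b.Irl (ρ.rs r)) :
    ∃ c : ℕ, ∀ (l : ℕ) [Fact l.Prime], c < l →
    ∀ (Ω : Type) [Field Ω] (ϑ : ℤ_[l] →+* Ω) (ι : 𝓞 L →+* Ω)
      (R : Gal F →* Matrix (Fin m) (Fin m) Ω), (l : Ω) = 0 → b.At (ρ l) ϑ ι R →
        IsIrr (R.comp H.subtype) := by
  obtain ⟨c, hc⟩ := h
  refine ⟨c, fun l _ hl Ω _ ϑ ι R hΩ hR => ?_⟩
  apply irr_le R r H hH
  exact hc l hl Ω ϑ ι (R.comp r) hΩ ⟨hR.1, fun g => hR.2 (r g)⟩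

end GTSp

theorem GTS (hXUN : ST_XUN) (hBCF : ST_BCF) (hFLD : ST_FLD) (hXBG : ST_XBG) (hXIR : ST_XIR)
    (hFXF : ST_FXF) : ST_GTS := by
  intro F L _ _ _ _ S hS n w h M m b S' hStb hCmp hG
  rcases hG with ⟨hF, hB | hB⟩ | ⟨hm, h0, hF⟩
  · exact ⟨hB, hF⟩
  · refine ⟨fun H hH => ?_, hF⟩
    obtain ⟨K, _, _, _, j, r, hbc, hle, -⟩ := hFXF F H hH
    obtain ⟨-, h1⟩ := hBCF F K j r hbc
    obtain ⟨h2, h3, h4, h5, -, -⟩ := h1 L n m b (fun l _ => M.ρ l) hStb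
    have h6 : IsUn (Fml.rs (fun l _ => M.ρ l) r : Fml K n) := hXUN F K j r hbc S hS n w h M
    exact GTSp.sir b _ r H hle (hXBG K L n m h b S' _ h6 h2 (h3 S' hCmp)
      (h5 (fun l _ => M.continuous l) hB) (hFLD K L n m h b False _ (h4 h False hF)))
  · subst hm
    refine ⟨fun H hH => ?_, GTSp.flc b h True _ hF⟩
    obtain ⟨K, _, _, _, j, r, hbc, hle, -⟩ := hFXF F H hH
    obtain ⟨-, h1⟩ := hBCF F K j r hbc
    obtain ⟨h2, h3, h4, -, -, h5⟩ := h1 L n 2 b (fun l _ => M.ρ l) hStb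
    have h6 : IsUn (Fml.rs (fun l _ => M.ρ l) r : Fml K n) := hXUN F K j r hbc S hS n w h M
    refine GTSp.sir b _ r H hle (hXIR K L n h b S' _ h6 h2 (h3 S' hCmp) ?_
      (hFLD K L n 2 h b True _ (h4 h True hF)))
    intro l _ Ω _ _ ϑ ι R hR
    apply GTSp.irr_top
    exact h5 h0 ⊤ isOpen_univ l Ω ϑ ι R hR

end REC
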