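import Pool.Agent.Helper8.REC.KJJa

/-!
# KJJ: Lie algebras which contain the diagonal matrices preserving a form (up to factors)
-/

set_option autoImplicit false

open scoped Classical
open Polynomial

namespace REC

open MU

namespace KJp

variable {K : Type} [Field K] {n : ℕ}

/-- the edges -/
def Edg (H : Submodule K (Matrix (Fin n) (Fin n) K)) (x y : Fin n) : Prop :=
  x ≠ y ∧ ∃ X ∈ H, X x y ≠ 0

/-- the hypotheses on the form -/
structure FS (J : Matrix (Fin n) (Fin n) K) (s : Fin n → Fin n) (ε : K) : Prop where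
  two : (2 : K) ≠ 0
  inv : ∀ x, s (s x) = x
  ne : ∀ x y, J x y ≠ 0 ↔ y = s x
  sym : ∀ x y, J y x = ε * J x y
  eps : ε = 1 ∨ ε = -1
  fix : ∀ x y, s x = x → s y = y → x = y

variable {J : Matrix (Fin n) (Fin n) K} {s : Fin n → Fin n} {ε : K}

theorem FS.inj (h : FS J s ε) {x y : Fin n} (hxy : s x = s y) : x = y := by
  rw [← h.inv x, hxy, h.inv]

theorem FS.jne (h : FS J s ε) (x : Fin n) : J x (s x) ≠ 0 := (h.ne x (s x)).mpr rfl

theorem FS.jz (h : FS J s ε) (x y : Fin n) (hxy : y ≠ s x) : J x y = 0 := by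
  by_contra h1
  exact hxy ((h.ne x y).mp h1)

theorem FS.js (h : FS J s ε) (x : Fin n) : J (s x) x = ε * J x (s x) := h.sym x (s x)

theorem FS.epsq (h : FS J s ε) : ε * ε = 1 := by
  rcases h.eps with h1 | h1 <;> rw [h1] <;> ring

/-- the entries of the form equation -/
theorem FS.entry (h : FS J s ε) {X : Matrix (Fin n) (Fin n) K} {a : K}
    (hX : X.transpose * J + J * X = a • J) (u w : Fin n) :
    X (s w) u * J (s w) w + J u (s u) * X (s u) w = a * J u w := by
  have h1 := congrFun (congrFun hX u) w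
  rw [Matrix.add_apply, Matrix.mul_apply, Matrix.mul_apply, Matrix.smul_apply, smul_eq_mul,
    Finset.sum_eq_single (s w), Finset.sum_eq_single (s u), Matrix.transpose_apply] at h1
  · exact h1
  · intro b _ hb
    rw [h.jz u b hb, zero_mul]
  · intro hb
    exact absurd (Finset.mem_univ _) hb
  · intro b _ hb
    rw [h.jz b w (fun hw => hb (by rw [hw, h.inv])), mul_zero]
  · intro hb
    exact absurd (Finset.mem_univ _) hb

theorem FS.diag (h : FS J s ε) {X : Matrix (Fin n) (Fin n) K} {a : K}
    (hX : X.transpose * J + J * X = a • J) (u : Fin n) : X u u + X (s u) (s u) = a := by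
  have h1 := h.entry hX u (s u)
  rw [h.inv] at h1
  have h2 := h.jne u
  have h3 : (X u u + X (s u) (s u) - a) * J u (s u) = 0 := by linear_combination h1
  have h4 := (mul_eq_zero.mp h3).resolve_right h2
  exact sub_eq_zero.mp h4

theorem FS.off (h : FS J s ε) {X : Matrix (Fin n) (Fin n) K} {a : K}
    (hX : X.transpose * J + J * X = a • J) (x y : Fin n) (hxy : x ≠ y) :
    X (s y) (s x) * J y (s y) = -(J x (s x) * X x y) := by
  have h1 := h.entry hX (s x) y
  rw [h.inv, h.js, h.js, h.jz (s x) y (fun h2 => hxy (by rw [h2, h.inv])), mul_zero] at h1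
  have h2 := h.epsq
  linear_combination ε * h1 - (X (s y) (s x) * J y (s y) + J x (s x) * X x y) * h2

/-- no edges between partners in the symmetric case -/
theorem FS.zero (h : FS J s ε) {X : Matrix (Fin n) (Fin n) K} {a : K}
    (hX : X.transpose * J + J * X = a • J) (hε : ε = 1) (x : Fin n) (hx : x ≠ s x) :
    X x (s x) = 0 := by
  have h1 := h.off hX x (s x) hx
  rw [h.inv, h.js, hε, one_mul] at h1
  have h2 := h.jne x
  have h3 : (2 * J x (s x)) * X x (s x) = 0 := by linear_combination h1
  exact (mul_eq_zero.mp h3).resolve_left (mul_ne_zero h.two h2)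

/-- the elementary matrix which preserves the form -/
noncomputable def Fm (J : Matrix (Fin n) (Fin n) K) (s : Fin n → Fin n) (x y : Fin n) :
    Matrix (Fin n) (Fin n) K :=
  Matrix.of fun a b => if a = x ∧ b = y then 1 else if a = s y ∧ b = s x then
    -(J x (s x)) / J y (s y) else 0

theorem comp_eq (h : FS J s ε) {X : Matrix (Fin n) (Fin n) K} {a : K}
    (hX : X.transpose * J + J * X = a • J) (x y : Fin n) (hxy : x ≠ y) :
    (Matrix.of fun a b => if (a = x ∧ b = y) ∨ (a = s y ∧ b = s x) then X a b else 0) =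
      X x y • Fm J s x y := by
  ext a b
  rw [Matrix.smul_apply, Matrix.of_apply, Fm, Matrix.of_apply, smul_eq_mul]
  by_cases h1 : a = x ∧ b = y
  · obtain ⟨rfl, rfl⟩ := h1
    simp
  · rw [if_neg h1]
    by_cases h2 : a = s y ∧ b = s x
    · rw [if_pos (Or.inr h2), if_pos h2]
      obtain ⟨rfl, rfl⟩ := h2
      have h3 := h.off hX x y hxy
      have h4 := h.jne y
      field_simp
      linear_combination h3
    · rw [if_neg (fun h3 => h3.elim h1 h2), if_neg h2, mul_zero]

section

variable {H : Submodule K (Matrix (Fin n) (Fin n) K)}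

theorem Fm_mem (h : FS J s ε) (hH : ∀ X ∈ H, ∃ a : K, X.transpose * J + J * X = a • J)
    (hc : ∀ X ∈ H, ∀ x y, x ≠ y →
      (Matrix.of fun a b => if (a = x ∧ b = y) ∨ (a = s y ∧ b = s x) then X a b else 0) ∈ H)
    {x y : Fin n} (hxy : Edg H x y) : Fm J s x y ∈ H := by
  obtain ⟨hne, X, hX, hXxy⟩ := hxy
  obtain ⟨a, ha⟩ := hH X hX
  have h1 := hc X hX x y hne
  rw [comp_eq h ha x y hne] at h1
  have h2 := H.smul_mem (X x y)⁻¹ h1
  rw [smul_smul, inv_mul_cancel₀ hXxy, one_smul] at h2
  exact h2

theorem Edg_symm (h : FS J s ε) (hH : ∀ X ∈ H, ∃ a : K, X.transpose * J + J * X = a • J)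
    {x y : Fin n} (hxy : Edg H x y) : Edg H (s y) (s x) := by
  obtain ⟨hne, X, hX, hXxy⟩ := hxy
  obtain ⟨a, ha⟩ := hH X hX
  refine ⟨fun h1 => hne (h.inj h1).symm, X, hX, fun h1 => ?_⟩
  have h2 := h.off ha x y hne
  rw [h1, zero_mul, eq_comm, neg_eq_zero] at h2
  exact mul_ne_zero (h.jne x) hXxy h2

theorem Edg_tr (h : FS J s ε) (hH : ∀ X ∈ H, ∃ a : K, X.transpose * J + J * X = a • J)
    (hb : ∀ X ∈ H, ∀ Y ∈ H, X * Y - Y * X ∈ H)
    (hc : ∀ X ∈ H, ∀ x y, x ≠ y →
      (Matrix.of fun a b => if (a = x ∧ b = y) ∨ (a = s y ∧ b = s x) then X a b else 0) ∈ H)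
    {x y z : Fin n} (hxy : Edg H x y) (hyz : Edg H y z) (hxz : x ≠ z)
    (hn : ¬ (ε = 1 ∧ x = s z)) : Edg H x z := by
  refine ⟨hxz, _, hb _ (Fm_mem h hH hc hxy) _ (Fm_mem h hH hc hyz), ?_⟩
  have h1 : (Fm J s x y * Fm J s y z) x z = 1 := by
    rw [Matrix.mul_apply, Finset.sum_eq_single y]
    · simp [Fm]
    · intro b _ hb
      have h2 : Fm J s x y x b = 0 := by
        rw [Fm, Matrix.of_apply, if_neg (fun h3 => hb h3.2), if_neg]
        rintro ⟨h3, h4⟩
        apply hb
        rw [h4, h3, h.inv]
      rw [h2, zero_mul]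
    · intro hb
      exact absurd (Finset.mem_univ _) hb
  have h2 : (Fm J s y z * Fm J s x y) x z = if x = s z then ε else 0 := by
    rw [Matrix.mul_apply, Finset.sum_eq_single (s y)]
    · have h3 : Fm J s y z x (s y) = if x = s z then -(J y (s y)) / J z (s z) else 0 := by
        rw [Fm, Matrix.of_apply, if_neg (fun h4 => hxy.1 h4.1)]
        simp
      have h4 : Fm J s x y (s y) z = if x = s z then -(J x (s x)) / J y (s y) else 0 := by
        rw [Fm, Matrix.of_apply, if_neg (fun h4 => hyz.1 h4.2.symm)]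
        by_cases h5 : x = s z
        · rw [if_pos ⟨rfl, by rw [h5, h.inv]⟩, if_pos h5]
        · rw [if_neg (fun h6 => h5 (by rw [h6.2, h.inv])), if_neg h5]
      rw [h3, h4]
      by_cases h5 : x = s z
      · rw [if_pos h5, if_pos h5, if_pos h5]
        have h6 := h.jne y
        have h7 := h.jne z
        have h8 := h.js z
        rw [h5, h.inv, h8]
        field_simp
      · rw [if_neg h5, if_neg h5, if_neg h5, zero_mul]
    · intro b _ hb
      have h3 : Fm J s y z x b = 0 := by
        rw [Fm, Matrix.of_apply, if_neg (fun h3 => hxy.1 h3.1), if_neg (fun h3 => hb h3.2)]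
      rw [h3, zero_mul]
    · intro hb
      exact absurd (Finset.mem_univ _) hb
  rw [Matrix.sub_apply, h1, h2]
  by_cases h3 : x = s z
  · rw [if_pos h3]
    have h4 : ε = -1 := h.eps.resolve_left (fun h5 => hn ⟨h5, h3⟩)
    rw [h4]
    have h5 := h.two
    intro h6
    apply h5
    linear_combination h6
  · rw [if_neg h3, sub_zero]
    exact one_ne_zero

/-- admissible diagonals separate the indices -/
theorem sep (h : FS J s ε) (x y : Fin n) (hxy : x ≠ y) :
    ∃ k : Fin n → K, (∃ a : K, ∀ u, k u + k (s u) = a) ∧ k x ≠ k y := by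
  have h1 : ∀ x, ∀ u, (fun u => (if u = x then (1 : K) else 0) - if u = s x then 1 else 0) u +
      (fun u => (if u = x then (1 : K) else 0) - if u = s x then 1 else 0) (s u) = 0 := by
    intro x u
    have h2 : (s u = x) ↔ (u = s x) := ⟨fun h3 => by rw [← h3, h.inv], fun h3 => by rw [h3, h.inv]⟩
    have h3 : (s u = s x) ↔ (u = x) := ⟨fun h3 => h.inj h3, fun h3 => by rw [h3]⟩
    simp only [h2, h3]
    ring
  by_cases hx : x = s x
  · refine ⟨_, ⟨0, h1 y⟩, ?_⟩
    have hy : y ≠ s y := fun hy => hxy (h.fix x y hx.symm hy.symm)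
    have h2 : x ≠ s y := fun h2 => by
      apply hxy
      rw [hx, h2, h.inv]
    simp [hxy, h2, hy]
  · refine ⟨_, ⟨0, h1 x⟩, ?_⟩
    by_cases h2 : y = s x
    · subst h2
      simp only [if_true, if_neg hx, if_neg (Ne.symm hx)]
      intro h3
      apply h.two
      linear_combination h3
    · simp [Ne.symm hxy, h2, hx]

/-- all allowed pairs are edges -/
theorem Edg_all (h : FS J s ε) (hH : ∀ X ∈ H, ∃ a : K, X.transpose * J + J * X = a • J)
    (hb : ∀ X ∈ H, ∀ Y ∈ H, X * Y - Y * X ∈ H)
    (hc : ∀ X ∈ H, ∀ x y, x ≠ y →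
      (Matrix.of fun a b => if (a = x ∧ b = y) ∨ (a = s y ∧ b = s x) then X a b else 0) ∈ H)
    (hR : ∀ z x, Relation.ReflTransGen (fun a b => Edg H b a) z x)
    {x z : Fin n} (hxz : x ≠ z) (hn : ¬ (ε = 1 ∧ x = s z)) : Edg H x z := by
  have h1 : x = z ∨ Edg H x z ∨ (x = s z ∧ ∃ b, Edg H (s z) b ∧ Edg H b z) := by
    have h2 := hR z x
    clear hxz hn
    induction h2 with
    | refl => exact Or.inl rfl
    | @tail y x _ hyx ih =>
      rcases ih with rfl | ih | ⟨hy, b, hb1, hb2⟩
      · exact Or.inr (Or.inl hyx)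
      · by_cases h3 : x = z
        · exact Or.inl h3
        · by_cases h4 : x = s z
          · refine Or.inr (Or.inr ⟨h4, y, ?_, ih⟩)
            rw [← h4]
            exact hyx
          · exact Or.inr (Or.inl (Edg_tr h hH hb hc hyx ih h3 (fun h5 => h4 h5.2)))
      · by_cases h3 : x = z
        · exact Or.inl h3
        · right
          left
          subst hy
          have h4 : x ≠ s z := hyx.1
          by_cases h5 : x = b
          · rw [h5]
            exact hb2
          · by_cases h6 : x = s b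
            · have h7 := Edg_symm h hH hb1
              rw [h.inv] at h7
              rw [h6]
              exact h7
            · have h7 := Edg_tr h hH hb hc hyx hb1 h5 (fun h8 => h6 h8.2)
              exact Edg_tr h hH hb hc h7 hb2 h3 (fun h8 => h4 h8.2)
  rcases h1 with h1 | h1 | ⟨h1, b, hb1, hb2⟩
  · exact absurd h1 hxz
  · exact h1
  · rw [← h1] at hb1
    exact Edg_tr h hH hb hc hb1 hb2 hxz hn

/-- everything which preserves the form is in `H` -/
theorem all_mem (h : FS J s ε) (hH : ∀ X ∈ H, ∃ a : K, X.transpose * J + J * X = a • J)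
    (hc : ∀ X ∈ H, ∀ x y, x ≠ y →
      (Matrix.of fun a b => if (a = x ∧ b = y) ∨ (a = s y ∧ b = s x) then X a b else 0) ∈ H)
    (hd : ∀ (h : Fin n → K) (a : K), (∀ x, h x + h (s x) = a) → Matrix.diagonal h ∈ H)
    (hE : ∀ x z, x ≠ z → ¬ (ε = 1 ∧ x = s z) → Edg H x z)
    (X : Matrix (Fin n) (Fin n) K) (a : K) (hX : X.transpose * J + J * X = a • J) : X ∈ H := by
  set D := Matrix.diagonal (fun u => X u u) with hD
  have h1 : D ∈ H := hd _ a (fun u => h.diag hX u)
  set Y := X - D with hY
  have hYd : ∀ u, Y u u = 0 := by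
    intro u
    rw [hY, Matrix.sub_apply, hD, Matrix.diagonal_apply_eq, sub_self]
  have hYo : ∀ u w, u ≠ w → Y u w = X u w := by
    intro u w huw
    rw [hY, Matrix.sub_apply, hD, Matrix.diagonal_apply_ne _ huw, sub_zero]
  have h2 : ∀ u w, Matrix.single u w (Y u w) + Matrix.single (s w) (s u) (Y (s w) (s u)) ∈ H := by
    intro u w
    by_cases huw : u = w
    · subst huw
      rw [hYd, hYd, Matrix.single_zero, Matrix.single_zero, add_zero]
      exact H.zero_mem
    · have huw' : s w ≠ s u := fun h3 => huw (h.inj h3).symm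
      rw [hYo u w huw, hYo _ _ huw']
      by_cases h3 : X u w = 0
      · have h4 := h.off hX u w huw
        rw [h3, mul_zero, neg_zero] at h4
        rw [h3, (mul_eq_zero.mp h4).resolve_right (h.jne w), Matrix.single_zero,
          Matrix.single_zero, add_zero]
        exact H.zero_mem
      · have h4 : ¬ (ε = 1 ∧ u = s w) := by
          rintro ⟨h5, h6⟩
          apply h3
          have h7 := h.zero hX h5 u (by rw [h6, h.inv]; exact fun h8 => huw (by rw [h6]; exact h8))
          rw [h6, h.inv] at h7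
          rw [h6]
          exact h7
        have h5 := Fm_mem h hH hc (hE u w huw h4)
        by_cases h6 : u = s w
        · have h7 : s u = w := by rw [h6, h.inv]
          rw [h7, ← h6, ← Matrix.single_add]
          have h8 : Matrix.single u w (X u w + X u w) = (2 * X u w) • Fm J s u w := by
            ext p q
            rw [Matrix.smul_apply, Fm, Matrix.of_apply, h7, ← h6, smul_eq_mul]
            by_cases h9 : p = u ∧ q = w
            · rw [if_pos h9, h9.1, h9.2, Matrix.single_apply_same]
              ring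
            · rw [if_neg h9, if_neg h9, mul_zero, Matrix.single_apply_of_ne]
              exact fun h10 => h9 ⟨h10.1.symm, h10.2.symm⟩
          rw [h8]
          exact H.smul_mem _ h5
        · have h8 : Matrix.single u w (X u w) + Matrix.single (s w) (s u) (X (s w) (s u)) =
              (X u w) • Fm J s u w := by
            ext p q
            rw [Matrix.smul_apply, Matrix.add_apply, Fm, Matrix.of_apply, smul_eq_mul]
            have h9 : X (s w) (s u) = X u w * (-(J u (s u)) / J w (s w)) := by
              have h10 := h.off hX u w huw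
              have h11 := h.jne w
              field_simp
              linear_combination h10
            by_cases h10 : p = u ∧ q = w
            · rw [if_pos h10, h10.1, h10.2, Matrix.single_apply_same,
                Matrix.single_apply_of_ne _ _ _ _ _ (fun h11 => h6 h11.1.symm)]
              ring
            · rw [if_neg h10, Matrix.single_apply_of_ne _ _ _ _ _
                (fun h11 => h10 ⟨h11.1.symm, h11.2.symm⟩), zero_add]
              by_cases h11 : p = s w ∧ q = s u
              · rw [if_pos h11, h11.1, h11.2, Matrix.single_apply_same, h9]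
              · rw [if_neg h11, mul_zero, Matrix.single_apply_of_ne]
                exact fun h12 => h11 ⟨h12.1.symm, h12.2.symm⟩
          rw [h8]
          exact H.smul_mem _ h5
  have h3 : (2 : K) • Y = ∑ u, ∑ w,
      (Matrix.single u w (Y u w) + Matrix.single (s w) (s u) (Y (s w) (s u))) := by
    simp only [Finset.sum_add_distrib]
    have h4 : ∑ u, ∑ w, Matrix.single (s w) (s u) (Y (s w) (s u)) = Y := by
      rw [Finset.sum_comm]
      have h5 : ∑ w, ∑ u, Matrix.single (s w) (s u) (Y (s w) (s u)) =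
          ∑ w, ∑ u, Matrix.single w (s u) (Y w (s u)) :=
        Equiv.sum_comp (Function.Involutive.toPerm s h.inv)
          (fun w => ∑ u, Matrix.single w (s u) (Y w (s u)))
      rw [h5]
      conv_rhs => rw [Matrix.matrix_eq_sum_single Y]
      refine Finset.sum_congr rfl fun w _ => ?_
      exact Equiv.sum_comp (Function.Involutive.toPerm s h.inv)
        (fun u => Matrix.single w u (Y w u))
    rw [h4, ← Matrix.matrix_eq_sum_single Y, two_smul]
  have h4 : (2 : K) • Y ∈ H := by
    rw [h3]
    exact H.sum_mem fun u _ => H.sum_mem fun w _ => h2 u w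
  have h5 := H.smul_mem (2 : K)⁻¹ h4
  rw [smul_smul, inv_mul_cancel₀ h.two, one_smul] at h5
  have h6 : X = Y + D := by rw [hY, sub_add_cancel]
  rw [h6]
  exact H.add_mem h5 h1

end

end KJp

theorem KJJ : ST_KJJ := by
  intro G K _ _ n r hr hn h2 _ J s hs hJs hJ hfix H hH hb hd hc hg
  have hF : ∃ ε : K, KJp.FS J s ε ∧ (J.transpose = J → n ≤ 1 ∨ ε = 1) := by
    rcases hJ with hJ | hJ
    · refine ⟨1, ⟨h2, hs, hJs, fun x y => ?_, Or.inl rfl, hfix⟩, fun _ => Or.inr rfl⟩
      rw [one_mul]
      exact congrFun (congrFun hJ x) y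
    · refine ⟨-1, ⟨h2, hs, hJs, fun x y => ?_, Or.inr rfl, hfix⟩, fun hJ' => ?_⟩
      · have h3 := congrFun (congrFun hJ x) y
        rw [Matrix.transpose_apply, Matrix.neg_apply] at h3
        rw [h3]
        ring
      · exfalso
        rw [hJ'] at hJ
        have h3 := congrFun (congrFun hJ ⟨0, hn⟩) (s ⟨0, hn⟩)
        rw [Matrix.neg_apply] at h3
        have h4 := (hJs ⟨0, hn⟩ (s ⟨0, hn⟩)).mpr rfl
        apply h4
        have h5 : (2 : K) * J ⟨0, hn⟩ (s ⟨0, hn⟩) = 0 := by linear_combination h3
        exact (mul_eq_zero.mp h5).resolve_left h2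
  obtain ⟨ε, hF, hε⟩ := hF
  have hR : ∀ z x, Relation.ReflTransGen (fun a b => KJp.Edg H b a) z x := by
    intro z x
    have h3 := KJp.reach r hr hn H (fun k => ∃ a : K, ∀ u, k u + k (s u) = a)
      (fun k hk => by
        obtain ⟨a, ha⟩ := hk
        exact hd k a ha) (fun x y hxy => KJp.sep hF x y hxy) hg z
    have h4 : x ∈ KJp.Rch (fun a b => a ≠ b ∧ ∃ X ∈ H, X a b ≠ 0) z := by
      rw [h3]
      exact Finset.mem_univ x
    exact (KJp.mem_Rch _ z x).mp h4
  refine ⟨KJp.all_mem hF hH hc hd (fun x z hxz hn => KJp.Edg_all hF hH hb hc hR hxz hn), ?_⟩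
  intro hJ' hn2
  subst hn2
  rcases hε hJ' with h3 | h3
  · omega
  · have h4 : ∀ x : Fin 2, s x ≠ x := by
      intro x hx
      have h5 : s (x + 1) ≠ x := by
        intro h6
        have h7 := hs (x + 1)
        rw [h6, hx] at h7
        revert h7
        fin_cases x <;> decide
      have h6 : s (x + 1) = x + 1 := by
        revert h5
        generalize s (x + 1) = y
        fin_cases x <;> fin_cases y <;> decide
      have h7 := hfix x (x + 1) hx h6
      revert h7
      fin_cases x <;> decide
    have h5 : ∀ x z : Fin 2, ¬ KJp.Edg H x z := by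
      rintro x z ⟨hxz, X, hX, hXxz⟩
      obtain ⟨a, ha⟩ := hH X hX
      have h6 : z = s x := by
        have h7 := h4 x
        revert h7 hxz
        generalize s x = y
        fin_cases x <;> fin_cases y <;> fin_cases z <;> decide
      apply hXxz
      rw [h6]
      exact hF.zero ha h3 x (Ne.symm (h4 x))
    have h6 := hR 0 1
    rcases Relation.ReflTransGen.cases_head h6 with h7 | ⟨c, h7, _⟩
    · exact absurd h7 (by decide)
    · exact h5 _ _ h7

end REC
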