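import Pool.Agent.Helper27.REC.StmtsT

/-!
# TMB: basic properties of mixed tensor powers (first part)
-/

set_option autoImplicit false

open scoped Classical
open Polynomial

namespace REC

namespace TMBp

variable {R : Type} [CommRing R] {t : ℕ} {m c c' : Fin t → ℕ}

theorem tmy_apply (x y : MM m R) (p p' : Tix m c c') : tmy c c' x y p p' =
    ∏ i, ((∏ j, x i ((p i).1 j) ((p' i).1 j)) * ∏ j, y i ((p' i).2 j) ((p i).2 j)) := rfl

theorem tmy_mul (x x' y y' : MM m R) :
    tmy c c' (fun i => x i * x' i) (fun i => y' i * y i) = tmy c c' x y * tmy c c' x' y' := by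
  ext p p''
  have h1 : (tmy c c' x y * tmy c c' x' y') p p'' = ∑ p' : Tix m c c', ∏ i,
      (((∏ j, x i ((p i).1 j) ((p' i).1 j)) * ∏ j, y i ((p' i).2 j) ((p i).2 j)) *
        ((∏ j, x' i ((p' i).1 j) ((p'' i).1 j)) * ∏ j, y' i ((p'' i).2 j) ((p' i).2 j))) := by
    rw [Matrix.mul_apply]
    refine Finset.sum_congr rfl fun p' _ => ?_
    rw [tmy_apply, tmy_apply, ← Finset.prod_mul_distrib]
  have h2 : ∑ p' : Tix m c c', ∏ i,
      (((∏ j, x i ((p i).1 j) ((p' i).1 j)) * ∏ j, y i ((p' i).2 j) ((p i).2 j)) *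
        ((∏ j, x' i ((p' i).1 j) ((p'' i).1 j)) * ∏ j, y' i ((p'' i).2 j) ((p' i).2 j))) =
      ∏ i, ∑ r : (Fin (c i) → Fin (m i)) × (Fin (c' i) → Fin (m i)),
      (((∏ j, x i ((p i).1 j) (r.1 j)) * ∏ j, y i (r.2 j) ((p i).2 j)) *
        ((∏ j, x' i (r.1 j) ((p'' i).1 j)) * ∏ j, y' i ((p'' i).2 j) (r.2 j))) := by
    rw [Finset.prod_univ_sum]
    simp only [Fintype.piFinset_univ]
  rw [h1, h2, tmy_apply]
  refine Finset.prod_congr rfl fun i _ => ?_
  have h3 : ∏ j, (x i * x' i) ((p i).1 j) ((p'' i).1 j) =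
      ∑ a : Fin (c i) → Fin (m i), ∏ j, (x i ((p i).1 j) (a j) * x' i (a j) ((p'' i).1 j)) := by
    simp only [Matrix.mul_apply]
    rw [Finset.prod_univ_sum]
    simp only [Fintype.piFinset_univ]
  have h4 : ∏ j, (y' i * y i) ((p'' i).2 j) ((p i).2 j) =
      ∑ a : Fin (c' i) → Fin (m i), ∏ j, (y' i ((p'' i).2 j) (a j) * y i (a j) ((p i).2 j)) := by
    simp only [Matrix.mul_apply]
    rw [Finset.prod_univ_sum]
    simp only [Fintype.piFinset_univ]
  rw [h3, h4, Finset.sum_mul_sum, Fintype.sum_prod_type]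
  refine Finset.sum_congr rfl fun a _ => Finset.sum_congr rfl fun b _ => ?_
  simp only [Finset.prod_mul_distrib]
  ring

theorem prod_one_apply {κ : Type} [Fintype κ] {n : ℕ} (a b : κ → Fin n) :
    ∏ j, (1 : Matrix (Fin n) (Fin n) R) (a j) (b j) = if a = b then 1 else 0 := by
  by_cases h : a = b
  · subst h
    simp
  · rw [if_neg h]
    obtain ⟨j, hj⟩ := Function.ne_iff.mp h
    exact Finset.prod_eq_zero (Finset.mem_univ j) (Matrix.one_apply_ne hj)

theorem tmy_one : tmy c c' (fun _ => 1) (fun _ => 1) = (1 : Matrix (Tix m c c') (Tix m c c') R) := by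
  ext p p'
  rw [tmy_apply]
  by_cases h : p = p'
  · subst h
    simp
  · rw [Matrix.one_apply_ne h]
    obtain ⟨i, hi⟩ := Function.ne_iff.mp h
    apply Finset.prod_eq_zero (Finset.mem_univ i)
    rw [prod_one_apply, prod_one_apply]
    by_cases h1 : (p i).1 = (p' i).1
    · have h2 : ¬ (p' i).2 = (p i).2 := fun h2 => hi (Prod.ext h1 h2.symm)
      rw [if_neg h2, mul_zero]
    · rw [if_neg h1, zero_mul]

theorem tmy_map {R' : Type} [CommRing R'] (f : R →+* R') (x y : MM m R) :
    (tmy c c' x y).map f = tmy c c' (fun i => (x i).map f) (fun i => (y i).map f) := by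
  ext p p'
  simp only [Matrix.map_apply, tmy_apply, map_prod, map_mul]

theorem tmy_tr (x y : MM m R) : (tmy c c' x y).transpose =
    tmy c c' (fun i => (x i).transpose) (fun i => (y i).transpose) := by
  ext p p'
  simp only [Matrix.transpose_apply, tmy_apply]

theorem tmy_smul (z z' : Fin t → R) (x y : MM m R) :
    tmy c c' (fun i => z i • x i) (fun i => z' i • y i) =
      (∏ i, z i ^ c i * z' i ^ c' i) • tmy c c' x y := by
  ext p p'
  simp only [Matrix.smul_apply, tmy_apply, smul_eq_mul, Finset.prod_mul_distrib,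
    Finset.prod_const, Finset.card_univ, Fintype.card_fin]
  ring

theorem tmy_diag (a a' : ∀ i, Fin (m i) → R) :
    tmy c c' (fun i => Matrix.diagonal (a i)) (fun i => Matrix.diagonal (a' i)) =
      Matrix.diagonal fun p => ∏ i, ((∏ j, a i ((p i).1 j)) * ∏ j, a' i ((p i).2 j)) := by
  ext p p'
  rw [tmy_apply]
  by_cases h : p = p'
  · subst h
    simp
  · rw [Matrix.diagonal_apply_ne _ h]
    obtain ⟨i, hi⟩ := Function.ne_iff.mp h
    apply Finset.prod_eq_zero (Finset.mem_univ i)
    by_cases h1 : (p i).1 = (p' i).1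
    · have h2 : (p' i).2 ≠ (p i).2 := fun h2 => hi (Prod.ext h1 h2.symm)
      obtain ⟨j, hj⟩ := Function.ne_iff.mp h2
      rw [Finset.prod_eq_zero (f := fun j => Matrix.diagonal (a' i) ((p' i).2 j) ((p i).2 j))
        (Finset.mem_univ j) (Matrix.diagonal_apply_ne _ hj), mul_zero]
    · obtain ⟨j, hj⟩ := Function.ne_iff.mp h1
      rw [Finset.prod_eq_zero (f := fun j => Matrix.diagonal (a i) ((p i).1 j) ((p' i).1 j))
        (Finset.mem_univ j) (Matrix.diagonal_apply_ne _ hj), zero_mul]

/-! ## Dual numbers -/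

/-- truncation of a polynomial -/
def phi (R : Type) [CommRing R] : R[X] →+* DualNumber R where
  toFun p := TrivSqZeroExt.inl (p.coeff 0) + TrivSqZeroExt.inr (p.coeff 1)
  map_one' := by
    ext <;> simp [coeff_one]
  map_zero' := by
    ext <;> simp
  map_add' p q := by
    ext <;> simp
  map_mul' p q := by
    ext
    · simp [mul_coeff_zero]
    · simp [mul_coeff_one]

theorem fst_phi (p : R[X]) : (phi R p).fst = p.coeff 0 := by
  simp [phi]

theorem snd_phi (p : R[X]) : (phi R p).snd = p.coeff 1 := by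
  simp [phi]

/-- a matrix over the dual numbers -/
def dl {ι κ : Type} (A B : Matrix ι κ R) : Matrix ι κ (DualNumber R) :=
  Matrix.of fun i j => (TrivSqZeroExt.inl (A i j) + TrivSqZeroExt.inr (B i j) : DualNumber R)

theorem fst_dl {ι κ : Type} (A B : Matrix ι κ R) (i : ι) (j : κ) : (dl A B i j).fst = A i j := by
  simp [dl]

theorem snd_dl {ι κ : Type} (A B : Matrix ι κ R) (i : ι) (j : κ) : (dl A B i j).snd = B i j := by
  simp [dl]

theorem dl_ext {ι κ : Type} {A B : Matrix ι κ R} {M : Matrix ι κ (DualNumber R)}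
    (h1 : ∀ i j, (M i j).fst = A i j) (h2 : ∀ i j, (M i j).snd = B i j) : M = dl A B := by
  ext i j
  · rw [h1, fst_dl]
  · rw [h2, snd_dl]

theorem dl_inj {ι κ : Type} {A B A' B' : Matrix ι κ R} (h : dl A B = dl A' B') :
    A = A' ∧ B = B' := by
  constructor
  · ext i j
    have h1 := congrFun (congrFun h i) j
    rw [← fst_dl A B, h1, fst_dl]
  · ext i j
    have h1 := congrFun (congrFun h i) j
    rw [← snd_dl A B, h1, snd_dl]

theorem dl_mul {ι κ μ : Type} [Fintype κ] (A B : Matrix ι κ R) (C D : Matrix κ μ R) :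
    dl A B * dl C D = dl (A * C) (A * D + B * C) := by
  apply dl_ext
  · intro i j
    rw [Matrix.mul_apply, Matrix.mul_apply, TrivSqZeroExt.fst_sum]
    simp only [TrivSqZeroExt.fst_mul, fst_dl]
  · intro i j
    rw [Matrix.mul_apply, Matrix.add_apply, Matrix.mul_apply, Matrix.mul_apply,
      TrivSqZeroExt.snd_sum]
    simp only [DualNumber.snd_mul, fst_dl, snd_dl, Finset.sum_add_distrib]

theorem dl_map_inl {ι κ : Type} (A : Matrix ι κ R) :
    A.map (algebraMap R (DualNumber R)) = dl A 0 := by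
  apply dl_ext
  · intro i j
    simp [TrivSqZeroExt.algebraMap_eq_inl]
  · intro i j
    simp [TrivSqZeroExt.algebraMap_eq_inl]

/-- The action over the dual numbers. -/
theorem tmy_dl (X : MM m R) : tmy c c' (fun i => dl 1 (X i)) (fun i => dl 1 (-(X i))) =
    dl (1 : Matrix (Tix m c c') (Tix m c c') R) (dtm c c' X) := by
  have h1 := tmy_map (c := c) (c' := c') (phi R)
    (fun i => (1 : Matrix (Fin (m i)) (Fin (m i)) R[X]) + (Polynomial.X : R[X]) • (X i).map C)
    (fun i => (1 : Matrix (Fin (m i)) (Fin (m i)) R[X]) - (Polynomial.X : R[X]) • (X i).map C)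
  have h2 : (fun i => ((1 : Matrix (Fin (m i)) (Fin (m i)) R[X]) +
      (Polynomial.X : R[X]) • (X i).map C).map (phi R)) = fun i => dl 1 (X i) := by
    funext i
    apply dl_ext
    · intro a b
      rw [Matrix.map_apply, fst_phi, Matrix.add_apply, Matrix.smul_apply, Matrix.map_apply,
        Matrix.one_apply, Matrix.one_apply, coeff_add, smul_eq_mul, mul_coeff_zero, coeff_X_zero,
        zero_mul, add_zero]
      split_ifs <;> simp
    · intro a b
      rw [Matrix.map_apply, snd_phi, Matrix.add_apply, Matrix.smul_apply, Matrix.map_apply,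
        Matrix.one_apply, coeff_add, smul_eq_mul, mul_coeff_one, coeff_X_zero, coeff_X_one,
        zero_mul, zero_add, one_mul, coeff_C_zero]
      split_ifs <;> simp [coeff_one]
  have h3 : (fun i => ((1 : Matrix (Fin (m i)) (Fin (m i)) R[X]) -
      (Polynomial.X : R[X]) • (X i).map C).map (phi R)) = fun i => dl 1 (-(X i)) := by
    funext i
    apply dl_ext
    · intro a b
      rw [Matrix.map_apply, fst_phi, Matrix.sub_apply, Matrix.smul_apply, Matrix.map_apply,
        Matrix.one_apply, Matrix.one_apply, coeff_sub, smul_eq_mul, mul_coeff_zero, coeff_X_zero,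
        zero_mul, sub_zero]
      split_ifs <;> simp
    · intro a b
      rw [Matrix.map_apply, snd_phi, Matrix.sub_apply, Matrix.smul_apply, Matrix.map_apply,
        Matrix.one_apply, coeff_sub, smul_eq_mul, mul_coeff_one, coeff_X_zero, coeff_X_one,
        zero_mul, zero_add, one_mul, coeff_C_zero]
      split_ifs <;> simp [coeff_one]
  rw [h2, h3] at h1
  rw [← h1]
  apply dl_ext
  · intro p p'
    rw [Matrix.map_apply, fst_phi]
    have h4 := tmy_map (c := c) (c' := c') (Polynomial.constantCoeff (R := R))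
      (fun i => (1 : Matrix (Fin (m i)) (Fin (m i)) R[X]) + (Polynomial.X : R[X]) • (X i).map C)
      (fun i => (1 : Matrix (Fin (m i)) (Fin (m i)) R[X]) - (Polynomial.X : R[X]) • (X i).map C)
    have h5 : (fun i => ((1 : Matrix (Fin (m i)) (Fin (m i)) R[X]) +
        (Polynomial.X : R[X]) • (X i).map C).map (Polynomial.constantCoeff (R := R))) =
        fun i => (1 : Matrix (Fin (m i)) (Fin (m i)) R) := by
      funext i
      ext a b
      rw [Matrix.map_apply, Matrix.add_apply, Matrix.smul_apply, Matrix.map_apply,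
        Matrix.one_apply, Matrix.one_apply]
      split_ifs <;> simp
    have h6 : (fun i => ((1 : Matrix (Fin (m i)) (Fin (m i)) R[X]) -
        (Polynomial.X : R[X]) • (X i).map C).map (Polynomial.constantCoeff (R := R))) =
        fun i => (1 : Matrix (Fin (m i)) (Fin (m i)) R) := by
      funext i
      ext a b
      rw [Matrix.map_apply, Matrix.sub_apply, Matrix.smul_apply, Matrix.map_apply,
        Matrix.one_apply, Matrix.one_apply]
      split_ifs <;> simp
    rw [h5, h6, tmy_one] at h4
    have h7 := congrFun (congrFun h4 p) p'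
    rw [Matrix.map_apply] at h7
    rw [← h7]
    rfl
  · intro p p'
    rw [Matrix.map_apply, snd_phi]
    rfl

/-- coefficients of degree `0` and `1` -/
theorem tmy_coeff (x y : MM m R[X]) (X : MM m R)
    (h : ∀ i a b, (x i a b).coeff 0 = (1 : Matrix _ _ R) a b ∧
        (x i a b).coeff 1 = X i a b ∧ (y i a b).coeff 0 = (1 : Matrix _ _ R) a b ∧
        (y i a b).coeff 1 = -X i a b) (p p' : Tix m c c') :
    (tmy c c' x y p p').coeff 0 = (1 : Matrix _ _ R) p p' ∧
      (tmy c c' x y p p').coeff 1 = dtm c c' X p p' := by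
  have h1 := tmy_map (c := c) (c' := c') (phi R) x y
  have h2 : (fun i => (x i).map (phi R)) = fun i => dl 1 (X i) := by
    funext i
    apply dl_ext
    · intro a b
      rw [Matrix.map_apply, fst_phi, (h i a b).1]
    · intro a b
      rw [Matrix.map_apply, snd_phi, (h i a b).2.1]
  have h3 : (fun i => (y i).map (phi R)) = fun i => dl 1 (-(X i)) := by
    funext i
    apply dl_ext
    · intro a b
      rw [Matrix.map_apply, fst_phi, (h i a b).2.2.1]
    · intro a b
      rw [Matrix.map_apply, snd_phi, (h i a b).2.2.2, Matrix.neg_apply]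
  rw [h2, h3, tmy_dl] at h1
  have h4 := congrFun (congrFun h1 p) p'
  rw [Matrix.map_apply] at h4
  constructor
  · rw [← fst_phi, h4, fst_dl]
  · rw [← snd_phi, h4, snd_dl]

end TMBp

end REC
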