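import Pool.Agent.Helper27.REC.StmtsT3
import Pool.Agent.Helper8.REC.TMBa

/-!
# SYT: symmetric powers are direct summands of tensor powers
-/

set_option autoImplicit false

open scoped Classical
open Polynomial

namespace REC

open MU

namespace SYp

/-- the number of ones -/
noncomputable def cnt {c : ℕ} (w : Fin c → Fin 2) : ℕ :=
  (Finset.univ.filter fun k => w k = 1).card

theorem cnt_le {c : ℕ} (w : Fin c → Fin 2) : cnt w ≤ c := by
  have h := Finset.card_filter_le (Finset.univ : Finset (Fin c)) (fun k => w k = 1)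
  rw [Finset.card_univ, Fintype.card_fin] at h
  exact h

variable {R : Type} [CommRing R]

theorem prod_two {c : ℕ} (w : Fin c → Fin 2) (f : Fin 2 → R) :
    ∏ k, f (w k) = f 0 ^ (c - cnt w) * f 1 ^ cnt w := by
  have h1 := Finset.prod_filter_mul_prod_filter_not Finset.univ (fun k => w k = 1)
    (fun k => f (w k))
  have h2 : ∏ k ∈ Finset.univ.filter (fun k => w k = 1), f (w k) = f 1 ^ cnt w := by
    rw [cnt, ← Finset.prod_const]
    exact Finset.prod_congr rfl fun k hk => by rw [(Finset.mem_filter.mp hk).2]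
  have h3 : ∏ k ∈ Finset.univ.filter (fun k => ¬ w k = 1), f (w k) = f 0 ^ (c - cnt w) := by
    have h4 : (Finset.univ.filter (fun k => ¬ w k = 1)).card = c - cnt w := by
      have h5 := Finset.card_filter_add_card_filter_not (s := (Finset.univ : Finset (Fin c)))
        (fun k => w k = 1)
      rw [Finset.card_univ, Fintype.card_fin] at h5
      rw [cnt]
      omega
    rw [← h4, ← Finset.prod_const]
    refine Finset.prod_congr rfl fun k hk => ?_
    have h6 := (Finset.mem_filter.mp hk).2
    have h7 : w k = 0 := by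
      have h8 : ∀ a : Fin 2, ¬ a = 1 → a = 0 := by decide
      exact h8 _ h6
    rw [h7]
  rw [← h1, h2, h3, mul_comm]

theorem one_factor {c : ℕ} (x : Matrix (Fin 2) (Fin 2) R) (w' : Fin c → Fin 2)
    (j : Fin (c + 1)) :
    ∑ w : Fin c → Fin 2, (if cnt w = (j : ℕ) then (1 : R) else 0) * ∏ k, x (w k) (w' k) =
      symM c x j ⟨cnt w', Nat.lt_succ_of_le (cnt_le w')⟩ := by
  have h1 : ∏ k, ∑ a : Fin 2, (C (x a (w' k)) * Polynomial.X ^ (a : ℕ) : R[X]) =
      ∑ w : Fin c → Fin 2, C (∏ k, x (w k) (w' k)) * Polynomial.X ^ cnt w := by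
    rw [Finset.prod_univ_sum]
    simp only [Fintype.piFinset_univ]
    refine Finset.sum_congr rfl fun w _ => ?_
    rw [Finset.prod_mul_distrib, map_prod]
    congr 1
    have h2 := prod_two w (fun a : Fin 2 => (Polynomial.X ^ (a : ℕ) : R[X]))
    rw [h2]
    simp
  have h2 : ∀ k, ∑ a : Fin 2, (C (x a (w' k)) * Polynomial.X ^ (a : ℕ) : R[X]) =
      (fun b => C (x 0 b) + C (x 1 b) * Polynomial.X) (w' k) := by
    intro k
    simp [Fin.sum_univ_two]
  simp only [h2] at h1
  rw [prod_two w' (fun b => C (x 0 b) + C (x 1 b) * Polynomial.X)] at h1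
  rw [symM, Matrix.of_apply]
  change _ = ((C (x 0 0) + C (x 1 0) * Polynomial.X) ^ (c - cnt w') *
    (C (x 0 1) + C (x 1 1) * Polynomial.X) ^ cnt w' : R[X]).coeff (j : ℕ)
  rw [h1, finsetSum_coeff]
  refine Finset.sum_congr rfl fun w _ => ?_
  rw [coeff_C_mul, coeff_X_pow]
  by_cases h3 : cnt w = (j : ℕ)
  · rw [if_pos h3, if_pos h3.symm, one_mul, mul_one]
  · rw [if_neg h3, if_neg (fun h4 => h3 h4.symm), zero_mul, mul_zero]

theorem coeff_lin (a b : R) (m p : ℕ) :
    ((C a + C b * Polynomial.X) ^ m : R[X]).coeff p = a ^ (m - p) * b ^ p * (m.choose p : R) := by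
  have h1 : ((C a + C b * Polynomial.X) ^ m : R[X]) =
      ((Polynomial.X + C a) ^ m).comp (C b * Polynomial.X) := by
    rw [pow_comp, add_comp, X_comp, C_comp, add_comm]
  rw [h1, comp_C_mul_X_coeff, coeff_X_add_C_pow]
  ring

theorem fac_id (c i j s : ℕ) (hi : i ≤ c) (hj : j ≤ c) (hsi : s ≤ i) (hsj : s ≤ j) :
    i.factorial * (c - i).factorial * ((c - j).choose (i - s) * j.choose s) =
      j.factorial * (c - j).factorial * ((c - i).choose (j - s) * i.choose s) := by
  by_cases h : i + j - s ≤ c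
  · have h1 := Nat.choose_mul_factorial_mul_factorial (show i - s ≤ c - j by omega)
    have h2 := Nat.choose_mul_factorial_mul_factorial hsj
    have h3 := Nat.choose_mul_factorial_mul_factorial (show j - s ≤ c - i by omega)
    have h4 := Nat.choose_mul_factorial_mul_factorial hsi
    have h5 : c - j - (i - s) = c - i - (j - s) := by omega
    rw [h5] at h1
    have h6 : 0 < (i - s).factorial * (c - i - (j - s)).factorial * s.factorial *
        (j - s).factorial := by positivity
    apply Nat.eq_of_mul_eq_mul_right h6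
    calc _ = i.factorial * (c - i).factorial * ((c - j).choose (i - s) * (i - s).factorial *
          (c - i - (j - s)).factorial) * (j.choose s * s.factorial * (j - s).factorial) := by ring
      _ = i.factorial * (c - i).factorial * (c - j).factorial * j.factorial := by rw [h1, h2]
      _ = j.factorial * (c - j).factorial * (c - i).factorial * i.factorial := by ring
      _ = j.factorial * (c - j).factorial * ((c - i).choose (j - s) * (j - s).factorial *
          (c - i - (j - s)).factorial) * (i.choose s * s.factorial * (i - s).factorial) := by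
          rw [h3, h4]
      _ = _ := by ring
  · rw [Nat.choose_eq_zero_of_lt (show c - j < i - s by omega),
      Nat.choose_eq_zero_of_lt (show c - i < j - s by omega)]
    ring

theorem coeff_two (a b d e : R) (c i j : ℕ) :
    ((C a + C b * Polynomial.X) ^ (c - j) * (C d + C e * Polynomial.X) ^ j : R[X]).coeff i =
      ∑ s ∈ Finset.range (min i j + 1), a ^ (c - j - (i - s)) * b ^ (i - s) * d ^ (j - s) *
        e ^ s * (((c - j).choose (i - s) * j.choose s : ℕ) : R) := by
  rw [mul_comm, coeff_mul, Finset.Nat.sum_antidiagonal_eq_sum_range_succ_mk]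
  have h1 : Finset.range (min i j + 1) ⊆ Finset.range (i + 1) := by
    intro s hs
    rw [Finset.mem_range] at hs ⊢
    omega
  rw [← Finset.sum_subset h1]
  · refine Finset.sum_congr rfl fun s _ => ?_
    rw [coeff_lin, coeff_lin]
    push_cast
    ring
  · intro s hs hs'
    rw [Finset.mem_range] at hs hs'
    rw [coeff_lin, coeff_lin, Nat.choose_eq_zero_of_lt (show j < s by omega)]
    simp

theorem symM_tr (c : ℕ) (x : Matrix (Fin 2) (Fin 2) R) (i j : Fin (c + 1)) :
    (((i : ℕ).factorial * (c - i).factorial : ℕ) : R) * symM c x i j =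
      symM c x.transpose j i * (((j : ℕ).factorial * (c - j).factorial : ℕ) : R) := by
  rw [symM, symM, Matrix.of_apply, Matrix.of_apply, coeff_two, coeff_two, Finset.mul_sum,
    Finset.sum_mul]
  simp only [Matrix.transpose_apply]
  rw [min_comm]
  refine Finset.sum_congr rfl fun s hs => ?_
  have h1 : s ≤ (j : ℕ) ∧ s ≤ (i : ℕ) := by
    rw [Finset.mem_range] at hs
    omega
  have h2 := fac_id c i j s (Nat.le_of_lt_succ i.2) (Nat.le_of_lt_succ j.2) h1.2 h1.1
  have h3 : c - (j : ℕ) - ((i : ℕ) - s) = c - i - (j - s) := by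
    omega
  have h4 := congrArg (Nat.cast : ℕ → R) h2
  rw [h3]
  push_cast at h4 ⊢
  linear_combination (x 0 0 ^ (c - (i : ℕ) - (j - s)) * x 1 0 ^ ((i : ℕ) - s) *
    x 0 1 ^ ((j : ℕ) - s) * x 1 1 ^ s) * h4

theorem card_cnt {c : ℕ} (j : Fin (c + 1)) :
    ∑ w : Fin c → Fin 2, (if cnt w = (j : ℕ) then (1 : ℤ) else 0) = (c.choose j : ℤ) := by
  have h1 := one_factor (R := ℤ) (Matrix.of fun _ _ => 1) (fun _ : Fin c => 0) j
  simp only [Matrix.of_apply, Finset.prod_const_one, mul_one] at h1
  rw [h1, symM, Matrix.of_apply]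
  simp only [Matrix.of_apply]
  rw [← pow_add, coeff_lin, Nat.sub_add_cancel (cnt_le _)]
  simp

/-- the projection -/
noncomputable def VV {t : ℕ} (c : Fin t → ℕ) (R : Type) [CommRing R] :
    Matrix (∀ i, Fin (c i + 1)) (Tix (fun _ : Fin t => 2) c 0) R :=
  Matrix.of fun j p => ∏ i, if cnt (p i).1 = (j i : ℕ) then 1 else 0

theorem sum_pair {t : ℕ} (c : Fin t → ℕ) (f : ∀ i, (Fin (c i) → Fin 2) → R) :
    ∑ p : Tix (fun _ : Fin t => 2) c 0, ∏ i, f i (p i).1 = ∏ i, ∑ w, f i w := by
  have h1 : ∀ i, ∑ w, f i w = ∑ r : (Fin (c i) → Fin 2) × (Fin ((0 : Fin t → ℕ) i) → Fin 2),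
      f i r.1 := by
    intro i
    rw [Fintype.sum_prod_type]
    refine Finset.sum_congr rfl fun w _ => ?_
    change f i w = ∑ _y : Fin ((0 : Fin t → ℕ) i) → Fin 2, f i w
    rw [Finset.sum_const, Finset.card_univ, Fintype.card_fun]
    simp
  simp only [h1]
  rw [Finset.prod_univ_sum]
  simp only [Fintype.piFinset_univ]

theorem VT {t : ℕ} (c : Fin t → ℕ) (x y : MM (fun _ : Fin t => 2) R) :
    VV c R * tmy c 0 x y = tenM c x * VV c R := by
  ext j p'
  have h1 : (VV c R * tmy c 0 x y) j p' = ∑ p : Tix (fun _ : Fin t => 2) c 0, ∏ i,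
      ((if cnt (p i).1 = (j i : ℕ) then (1 : R) else 0) *
        ∏ k, x i ((p i).1 k) ((p' i).1 k)) := by
    rw [Matrix.mul_apply]
    refine Finset.sum_congr rfl fun p _ => ?_
    rw [TMBp.tmy_apply, VV, Matrix.of_apply, ← Finset.prod_mul_distrib]
    refine Finset.prod_congr rfl fun i _ => ?_
    have h2 : ∏ k : Fin ((0 : Fin t → ℕ) i), y i ((p' i).2 k) ((p i).2 k) = 1 := by
      apply Finset.prod_eq_one
      intro k
      exact Fin.elim0 k
    rw [h2, mul_one]
  have h3 : (tenM c x * VV c R) j p' =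
      tenM c x j (fun i => ⟨cnt (p' i).1, Nat.lt_succ_of_le (cnt_le (p' i).1)⟩) := by
    rw [Matrix.mul_apply, Finset.sum_eq_single
      (fun i => ⟨cnt (p' i).1, Nat.lt_succ_of_le (cnt_le (p' i).1)⟩)]
    · simp [VV]
    · intro j' _ hj'
      obtain ⟨i, hi⟩ := Function.ne_iff.mp hj'
      have h4 : VV c R j' p' = 0 := by
        rw [VV, Matrix.of_apply]
        apply Finset.prod_eq_zero (Finset.mem_univ i)
        rw [if_neg]
        intro h5
        exact hi (Fin.ext h5.symm)
      rw [h4, mul_zero]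
    · intro h4
      exact absurd (Finset.mem_univ _) h4
  rw [h1, h3, sum_pair c (fun i w => (if cnt w = (j i : ℕ) then (1 : R) else 0) *
    ∏ k, x i (w k) ((p' i).1 k)), tenM, Matrix.of_apply]
  exact Finset.prod_congr rfl fun i _ => one_factor (x i) (p' i).1 (j i)

/-- the factorials -/
noncomputable def DD {t : ℕ} (c : Fin t → ℕ) (j : ∀ i, Fin (c i + 1)) : ℕ :=
  ∏ i, ((j i : ℕ).factorial * (c i - j i).factorial)

theorem tenM_tr {t : ℕ} (c : Fin t → ℕ) (x : MM (fun _ : Fin t => 2) R) :
    (tenM c (fun i => (x i).transpose)).transpose * Matrix.diagonal (fun j => (DD c j : R)) =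
      Matrix.diagonal (fun j => (DD c j : R)) * tenM c x := by
  ext i j
  rw [Matrix.mul_diagonal, Matrix.diagonal_mul, Matrix.transpose_apply, tenM, tenM,
    Matrix.of_apply, Matrix.of_apply, DD, DD]
  push_cast
  rw [← Finset.prod_mul_distrib, ← Finset.prod_mul_distrib]
  refine Finset.prod_congr rfl fun k _ => ?_
  have h1 := symM_tr (c k) (x k) (i k) (j k)
  push_cast at h1
  exact h1.symm

end SYp

theorem SYT : ST_SYT := by
  intro t c
  refine ⟨∏ i, (c i).factorial, (SYp.VV c ℤ).transpose * Matrix.diagonal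
    (fun j => (SYp.DD c j : ℤ)), SYp.VV c ℤ, Finset.prod_pos fun i _ => Nat.factorial_pos _,
    ?_, ?_⟩
  · rw [← Matrix.mul_assoc]
    ext j j'
    rw [Matrix.mul_diagonal, Matrix.smul_apply, smul_eq_mul]
    have h1 : (SYp.VV c ℤ * (SYp.VV c ℤ).transpose) j j' =
        ∏ i, ∑ w : Fin (c i) → Fin 2, ((if SYp.cnt w = (j i : ℕ) then (1 : ℤ) else 0) *
          (if SYp.cnt w = (j' i : ℕ) then (1 : ℤ) else 0)) := by
      rw [Matrix.mul_apply, ← SYp.sum_pair c (fun i w =>
        (if SYp.cnt w = (j i : ℕ) then (1 : ℤ) else 0) *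
          (if SYp.cnt w = (j' i : ℕ) then (1 : ℤ) else 0))]
      refine Finset.sum_congr rfl fun p _ => ?_
      rw [Matrix.transpose_apply, SYp.VV, Matrix.of_apply, Matrix.of_apply,
        ← Finset.prod_mul_distrib]
    rw [h1]
    by_cases hj : j = j'
    · subst hj
      rw [Matrix.one_apply_eq, mul_one, SYp.DD]
      push_cast
      rw [← Finset.prod_mul_distrib]
      refine Finset.prod_congr rfl fun i _ => ?_
      have h2 : ∑ w : Fin (c i) → Fin 2, ((if SYp.cnt w = (j i : ℕ) then (1 : ℤ) else 0) *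
          (if SYp.cnt w = (j i : ℕ) then (1 : ℤ) else 0)) = ((c i).choose (j i) : ℤ) := by
        rw [← SYp.card_cnt (j i)]
        refine Finset.sum_congr rfl fun w _ => ?_
        split_ifs <;> simp
      rw [h2]
      have h3 := Nat.choose_mul_factorial_mul_factorial (Nat.le_of_lt_succ (j i).2)
      have h4 := congrArg (Nat.cast : ℕ → ℤ) h3
      push_cast at h4
      rw [← h4]
      ring
    · rw [Matrix.one_apply_ne hj, mul_zero]
      obtain ⟨i, hi⟩ := Function.ne_iff.mp hj
      rw [Finset.prod_eq_zero (Finset.mem_univ i), zero_mul]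
      apply Finset.sum_eq_zero
      intro w _
      by_cases h2 : SYp.cnt w = (j i : ℕ)
      · rw [if_neg (show ¬ SYp.cnt w = (j' i : ℕ) from fun h3 => hi (Fin.ext (h2.symm.trans h3))),
          mul_zero]
      · rw [if_neg h2, zero_mul]
  · intro R _ x y
    have hV : (SYp.VV c ℤ).map (Int.castRingHom R) = SYp.VV c R := by
      ext j p
      rw [Matrix.map_apply, SYp.VV, SYp.VV, Matrix.of_apply, Matrix.of_apply, map_prod]
      refine Finset.prod_congr rfl fun i _ => ?_
      split_ifs <;> simp
    have hU : ((SYp.VV c ℤ).transpose * Matrix.diagonal (fun j => (SYp.DD c j : ℤ))).map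
        (Int.castRingHom R) = (SYp.VV c R).transpose *
          Matrix.diagonal (fun j => (SYp.DD c j : R)) := by
      rw [Matrix.map_mul, Matrix.transpose_map, hV, Matrix.diagonal_map (map_zero _)]
      congr 2
      funext j
      simp
    rw [hU, hV]
    refine ⟨?_, SYp.VT c x y⟩
    have h1 : tmy c 0 x y * (SYp.VV c R).transpose =
        (SYp.VV c R).transpose * (tenM c (fun i => (x i).transpose)).transpose := by
      have h2 := SYp.VT c (fun i => (x i).transpose) (fun i => (y i).transpose)
      have h3 := congrArg Matrix.transpose h2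
      rw [Matrix.transpose_mul, Matrix.transpose_mul, TMBp.tmy_tr] at h3
      simp only [Matrix.transpose_transpose] at h3
      exact h3
    rw [← Matrix.mul_assoc, h1, Matrix.mul_assoc, Matrix.mul_assoc, SYp.tenM_tr]

end REC
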