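import Pool.Agent.Helper27.REC.StmtsT2

/-!
# TGF: finiteness for the tensor category generated by motives with large monodromy
-/

set_option autoImplicit false

open scoped Classical

namespace REC

theorem TGF (hFINC : ST_FINC) (hTGR : ST_TGR) : ST_TGF := by
  intro F _ _ S hS n w h
  obtain ⟨N, hN⟩ := hFINC F S hS n w h
  exact ⟨N, fun 𝒯 h𝒯 => hN 𝒯 fun M hM => hTGR F S hS n w h M (h𝒯 M hM).1 (h𝒯 M hM).2⟩

end REC
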