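import Pool.Agent.Helper8.REC.TMBa

/-!
# TMB: basic properties of mixed tensor powers
-/

set_option autoImplicit false

open scoped Classical
open Polynomial

namespace REC

namespace TMBp

variable {R : Type} [CommRing R] {t : ℕ} {m c c' : Fin t → ℕ}

theorem dtm_add (X Y : MM m R) : dtm c c' (fun i => X i + Y i) = dtm c c' X + dtm c c' Y := by
  have h1 := tmy_mul (c := c) (c' := c') (fun i => dl (1 : Matrix (Fin (m i)) (Fin (m i)) R) (X i))
    (fun i => dl 1 (Y i)) (fun i => dl 1 (-(X i))) (fun i => dl 1 (-(Y i)))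
  simp only [dl_mul, mul_one, one_mul] at h1
  have h2 : (fun i => dl (1 : Matrix (Fin (m i)) (Fin (m i)) R) (Y i + X i)) =
      fun i => dl 1 (X i + Y i) := by
    funext i
    rw [add_comm]
  have h3 : (fun i => dl (1 : Matrix (Fin (m i)) (Fin (m i)) R) (-X i + -Y i)) =
      fun i => dl 1 (-(X i + Y i)) := by
    funext i
    rw [neg_add]
  rw [h2, h3, tmy_dl (fun i => X i + Y i), tmy_dl X, tmy_dl Y, dl_mul] at h1
  have h4 := (dl_inj h1).2
  rw [h4, one_mul, mul_one, add_comm]

theorem dtm_map {R' : Type} [CommRing R'] (f : R →+* R') (X : MM m R) :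
    (dtm c c' X).map f = dtm c c' (fun i => (X i).map f) := by
  ext p p'
  rw [Matrix.map_apply]
  have h1 := tmy_map (c := c) (c' := c') (Polynomial.mapRingHom f)
    (fun i => (1 : Matrix (Fin (m i)) (Fin (m i)) R[X]) + (Polynomial.X : R[X]) • (X i).map C)
    (fun i => (1 : Matrix (Fin (m i)) (Fin (m i)) R[X]) - (Polynomial.X : R[X]) • (X i).map C)
  have h2 := congrFun (congrFun h1 p) p'
  rw [Matrix.map_apply] at h2
  have h3 : (dtm c c' X p p') = (tmy c c'
      (fun i => (1 : Matrix (Fin (m i)) (Fin (m i)) R[X]) + (Polynomial.X : R[X]) • (X i).map C)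
      (fun i => (1 : Matrix (Fin (m i)) (Fin (m i)) R[X]) - (Polynomial.X : R[X]) • (X i).map C)
      p p').coeff 1 := rfl
  have h4 := (tmy_coeff (c := c) (c' := c')
    (fun i => ((1 : Matrix (Fin (m i)) (Fin (m i)) R[X]) +
      (Polynomial.X : R[X]) • (X i).map C).map (Polynomial.mapRingHom f))
    (fun i => ((1 : Matrix (Fin (m i)) (Fin (m i)) R[X]) -
      (Polynomial.X : R[X]) • (X i).map C).map (Polynomial.mapRingHom f))
    (fun i => (X i).map f) ?_ p p').2
  · rw [← h4, ← h2, h3]
    simp
  · intro i a b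
    simp only [Matrix.map_apply, Matrix.add_apply, Matrix.sub_apply, Matrix.smul_apply,
      Matrix.one_apply, smul_eq_mul, coe_mapRingHom, Polynomial.map_add, Polynomial.map_sub,
      Polynomial.map_mul, map_X, map_C, coeff_add, coeff_sub, mul_coeff_zero, mul_coeff_one,
      coeff_X_zero, coeff_X_one, zero_mul, one_mul, coeff_C_zero]
    split_ifs <;> simp [coeff_one]

theorem dtm_smul (r : R) (X : MM m R) : dtm c c' (fun i => r • X i) = r • dtm c c' X := by
  have h1 := tmy_map (c := c) (c' := c')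
    ((TrivSqZeroExt.map (R' := R) (r • (LinearMap.id : R →ₗ[R] R)) :
      TrivSqZeroExt R R →ₐ[R] TrivSqZeroExt R R) : DualNumber R →+* DualNumber R)
    (fun i => dl (1 : Matrix (Fin (m i)) (Fin (m i)) R) (X i)) (fun i => dl 1 (-(X i)))
  have h2 : ∀ (ι κ : Type) (A B : Matrix ι κ R), (dl A B).map
      ((TrivSqZeroExt.map (R' := R) (r • (LinearMap.id : R →ₗ[R] R)) :
      TrivSqZeroExt R R →ₐ[R] TrivSqZeroExt R R) : DualNumber R →+* DualNumber R) =
      dl A (r • B) := by
    intro ι κ A B
    apply dl_ext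
    · intro a b
      rw [Matrix.map_apply]
      have h3 := TrivSqZeroExt.fst_map (R' := R) (r • (LinearMap.id : R →ₗ[R] R)) (dl A B a b)
      rw [fst_dl] at h3
      exact h3
    · intro a b
      rw [Matrix.map_apply]
      have h3 := TrivSqZeroExt.snd_map (R' := R) (r • (LinearMap.id : R →ₗ[R] R)) (dl A B a b)
      rw [snd_dl] at h3
      exact h3
  rw [tmy_dl, h2] at h1
  have h4 : (fun i => (dl (1 : Matrix (Fin (m i)) (Fin (m i)) R) (X i)).map
      ((TrivSqZeroExt.map (R' := R) (r • (LinearMap.id : R →ₗ[R] R)) :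
      TrivSqZeroExt R R →ₐ[R] TrivSqZeroExt R R) : DualNumber R →+* DualNumber R)) =
      fun i => dl 1 (r • X i) := by
    funext i
    rw [h2]
  have h5 : (fun i => (dl (1 : Matrix (Fin (m i)) (Fin (m i)) R) (-X i)).map
      ((TrivSqZeroExt.map (R' := R) (r • (LinearMap.id : R →ₗ[R] R)) :
      TrivSqZeroExt R R →ₐ[R] TrivSqZeroExt R R) : DualNumber R →+* DualNumber R)) =
      fun i => dl 1 (-(r • X i)) := by
    funext i
    rw [h2, smul_neg]
  rw [h4, h5, tmy_dl (fun i => r • X i)] at h1
  exact ((dl_inj h1).2).symm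

theorem dtm_tr (X : MM m R) : (dtm c c' X).transpose = dtm c c' (fun i => (X i).transpose) := by
  have h1 := tmy_tr (c := c) (c' := c')
    (fun i => dl (1 : Matrix (Fin (m i)) (Fin (m i)) R) (X i)) (fun i => dl 1 (-(X i)))
  have h2 : ∀ (ι κ : Type) (A B : Matrix ι κ R), (dl A B).transpose = dl A.transpose B.transpose :=
    fun _ _ _ _ => rfl
  rw [tmy_dl, h2] at h1
  have h3 : (fun i => (dl (1 : Matrix (Fin (m i)) (Fin (m i)) R) (X i)).transpose) =
      fun i => dl 1 ((X i).transpose) := by
    funext i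
    rw [h2, Matrix.transpose_one]
  have h4 : (fun i => (dl (1 : Matrix (Fin (m i)) (Fin (m i)) R) (-X i)).transpose) =
      fun i => dl 1 (-((X i).transpose)) := by
    funext i
    rw [h2, Matrix.transpose_one, Matrix.transpose_neg]
  rw [h3, h4, tmy_dl (fun i => (X i).transpose)] at h1
  exact (dl_inj h1).2

theorem dtm_conj (x y X : MM m R) (h : ∀ i, x i * y i = 1) :
    tmy c c' x y * dtm c c' X = dtm c c' (fun i => x i * X i * y i) * tmy c c' x y := by
  have h0 : ∀ i, y i * x i = 1 := fun i => mul_eq_one_comm.mp (h i)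
  have h1 := tmy_mul (c := c) (c' := c') (fun i => dl (x i) 0) (fun i => dl 1 (X i))
    (fun i => dl (y i) 0) (fun i => dl 1 (-(X i)))
  have h2 := tmy_mul (c := c) (c' := c') (fun i => dl 1 (x i * X i * y i)) (fun i => dl (x i) 0)
    (fun i => dl 1 (-(x i * X i * y i))) (fun i => dl (y i) 0)
  have h3 : tmy c c' (fun i => dl (x i) 0) (fun i => dl (y i) 0) = dl (tmy c c' x y) 0 := by
    have h4 := tmy_map (c := c) (c' := c') (algebraMap R (DualNumber R)) x y
    rw [dl_map_inl] at h4
    simp only [dl_map_inl] at h4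
    exact h4.symm
  simp only [dl_mul, mul_one, one_mul, mul_zero, add_zero, zero_add] at h1 h2
  have h5 : (fun i => dl (x i) (x i * X i * y i * x i)) = fun i => dl (x i) (x i * X i) := by
    funext i
    rw [mul_assoc, h0, mul_one]
  have h6 : (fun i => dl (y i) (y i * -(x i * X i * y i))) = fun i => dl (y i) (-X i * y i) := by
    funext i
    congr 1
    rw [mul_neg, mul_assoc, ← mul_assoc (y i), h0, one_mul, neg_mul]
  rw [h5, h6, h1] at h2
  rw [h3, tmy_dl X, tmy_dl (fun i => x i * X i * y i), dl_mul, dl_mul] at h2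
  have h7 := (dl_inj h2).2
  simpa using h7

theorem dtm_brk (X Y : MM m R) : dtm c c' (fun i => X i * Y i - Y i * X i) =
    dtm c c' X * dtm c c' Y - dtm c c' Y * dtm c c' X := by
  have h1 := dtm_conj (c := c) (c' := c') (fun i => dl (1 : Matrix (Fin (m i)) (Fin (m i)) R) (X i))
    (fun i => dl 1 (-(X i))) (fun i => dl (Y i) 0) (fun i => by
      rw [dl_mul, one_mul, mul_one, one_mul, neg_add_cancel]
      exact (dl_ext (fun a b => by
        by_cases hab : a = b
        · subst hab; simp
        · simp [hab]) (fun a b => by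
        by_cases hab : a = b
        · subst hab; simp
        · simp [hab])).symm)
  simp only [dl_mul, one_mul, mul_one, mul_zero, zero_add] at h1
  have h2 : dtm c c' (fun i => dl (Y i) 0) = dl (dtm c c' Y) 0 := by
    have h4 := dtm_map (c := c) (c' := c') (algebraMap R (DualNumber R)) Y
    rw [dl_map_inl] at h4
    simp only [dl_map_inl] at h4
    exact h4.symm
  have h3 : dtm c c' (fun i => dl (Y i) (Y i * -X i + X i * Y i)) =
      dl (dtm c c' Y) (dtm c c' (fun i => X i * Y i - Y i * X i)) := by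
    have h5 : (fun i => dl (Y i) (Y i * -X i + X i * Y i)) =
        fun i => dl (Y i) 0 + (DualNumber.eps : DualNumber R) •
          dl (X i * Y i - Y i * X i) (0 : Matrix (Fin (m i)) (Fin (m i)) R) := by
      funext i
      symm
      apply dl_ext
      · intro a b
        rw [Matrix.add_apply, Matrix.smul_apply, TrivSqZeroExt.fst_add, smul_eq_mul,
          TrivSqZeroExt.fst_mul, fst_dl, DualNumber.fst_eps, zero_mul, add_zero]
      · intro a b
        rw [Matrix.add_apply, Matrix.smul_apply, TrivSqZeroExt.snd_add, smul_eq_mul,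
          DualNumber.snd_mul, snd_dl, snd_dl, fst_dl, DualNumber.fst_eps, DualNumber.snd_eps,
          zero_mul, zero_add, one_mul, Matrix.zero_apply, zero_add, Matrix.add_apply,
          Matrix.sub_apply, mul_neg, Matrix.neg_apply]
        ring
    rw [h5, dtm_add, dtm_smul]
    have h6 : dtm c c' (fun i => dl (X i * Y i - Y i * X i)
        (0 : Matrix (Fin (m i)) (Fin (m i)) R)) =
        dl (dtm c c' (fun i => X i * Y i - Y i * X i)) 0 := by
      have h4 := dtm_map (c := c) (c' := c') (algebraMap R (DualNumber R))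
        (fun i => X i * Y i - Y i * X i)
      rw [dl_map_inl] at h4
      simp only [dl_map_inl] at h4
      exact h4.symm
    rw [h2, h6]
    apply dl_ext
    · intro a b
      rw [Matrix.add_apply, Matrix.smul_apply, TrivSqZeroExt.fst_add, smul_eq_mul,
        TrivSqZeroExt.fst_mul, fst_dl, DualNumber.fst_eps, zero_mul, add_zero]
    · intro a b
      rw [Matrix.add_apply, Matrix.smul_apply, TrivSqZeroExt.snd_add, smul_eq_mul,
        DualNumber.snd_mul, snd_dl, snd_dl, fst_dl, DualNumber.fst_eps, DualNumber.snd_eps,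
        zero_mul, zero_add, one_mul, Matrix.zero_apply, zero_add]
  rw [tmy_dl X, h2, h3, dl_mul, dl_mul] at h1
  have h7 := (dl_inj h1).2
  simp only [mul_one, mul_zero, zero_add] at h7
  rw [h7]
  abel

theorem prod_fst_one {κ : Type} (s : Finset κ) (f : κ → DualNumber R)
    (h : ∀ j ∈ s, (f j).fst = 1) :
    (∏ j ∈ s, f j).fst = 1 ∧ (∏ j ∈ s, f j).snd = ∑ j ∈ s, (f j).snd := by
  induction s using Finset.induction_on with
  | empty => simp
  | insert a s ha ih =>
    have h1 := ih (fun j hj => h j (Finset.mem_insert_of_mem hj))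
    have h2 := h a (Finset.mem_insert_self a s)
    rw [Finset.prod_insert ha, Finset.sum_insert ha]
    constructor
    · rw [TrivSqZeroExt.fst_mul, h1.1, h2, one_mul]
    · rw [DualNumber.snd_mul, h1.1, h1.2, h2, one_mul, mul_one, add_comm]

theorem sum_fib {κ μ : Type} [Fintype κ] [Fintype μ] [DecidableEq μ] (q : κ → μ) (h : μ → R) :
    ∑ j, h (q j) = ∑ x, h x * ((Finset.univ.filter fun j => q j = x).card : R) := by
  have h1 : ∀ x, h x * ((Finset.univ.filter fun j => q j = x).card : R) =
      ∑ j, if q j = x then h x else 0 := by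
    intro x
    rw [← Finset.sum_filter, Finset.sum_const, nsmul_eq_mul, mul_comm]
  simp only [h1]
  rw [Finset.sum_comm]
  refine Finset.sum_congr rfl fun j _ => ?_
  rw [Finset.sum_ite_eq]
  simp

theorem dtm_diag (h : ∀ i, Fin (m i) → R) : dtm c c' (fun i => Matrix.diagonal (h i)) =
    Matrix.diagonal fun p => ∑ i, ∑ x, h i x * ((wgt p i x : ℤ) : R) := by
  have h1 := tmy_diag (R := DualNumber R) (m := m) (c := c) (c' := c')
    (fun i x => (TrivSqZeroExt.inl 1 + TrivSqZeroExt.inr (h i x) : DualNumber R))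
    (fun i x => (TrivSqZeroExt.inl 1 + TrivSqZeroExt.inr (-(h i x)) : DualNumber R))
  have h2 : (fun i => Matrix.diagonal
      (fun x => (TrivSqZeroExt.inl 1 + TrivSqZeroExt.inr (h i x) : DualNumber R))) =
      fun i => dl 1 (Matrix.diagonal (h i)) := by
    funext i
    apply dl_ext
    · intro a b
      by_cases hab : a = b
      · subst hab; simp
      · simp [hab]
    · intro a b
      by_cases hab : a = b
      · subst hab; simp
      · simp [hab]
  have h3 : (fun i => Matrix.diagonal
      (fun x => (TrivSqZeroExt.inl 1 + TrivSqZeroExt.inr (-(h i x)) : DualNumber R))) =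
      fun i => dl 1 (-(Matrix.diagonal (h i))) := by
    funext i
    apply dl_ext
    · intro a b
      by_cases hab : a = b
      · subst hab; simp
      · simp [hab]
    · intro a b
      by_cases hab : a = b
      · subst hab; simp
      · simp [hab]
  rw [h2, h3, tmy_dl] at h1
  ext p p'
  have h4 := congrFun (congrFun h1 p) p'
  by_cases hp : p = p'
  · subst hp
    rw [Matrix.diagonal_apply_eq] at h4 ⊢
    have h5 := congrArg TrivSqZeroExt.snd h4
    rw [snd_dl] at h5
    rw [h5]
    have h6 : ∀ i, (((∏ j, (TrivSqZeroExt.inl 1 + TrivSqZeroExt.inr (h i ((p i).1 j)) :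
        DualNumber R)) * ∏ j, (TrivSqZeroExt.inl 1 + TrivSqZeroExt.inr (-(h i ((p i).2 j))) :
        DualNumber R)) : DualNumber R).fst = 1 ∧
        (((∏ j, (TrivSqZeroExt.inl 1 + TrivSqZeroExt.inr (h i ((p i).1 j)) :
        DualNumber R)) * ∏ j, (TrivSqZeroExt.inl 1 + TrivSqZeroExt.inr (-(h i ((p i).2 j))) :
        DualNumber R)) : DualNumber R).snd = ∑ x, h i x * ((wgt p i x : ℤ) : R) := by
      intro i
      have h7 := prod_fst_one Finset.univ
        (fun j => (TrivSqZeroExt.inl 1 + TrivSqZeroExt.inr (h i ((p i).1 j)) : DualNumber R))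
        (fun j _ => by simp)
      have h8 := prod_fst_one Finset.univ
        (fun j => (TrivSqZeroExt.inl 1 + TrivSqZeroExt.inr (-(h i ((p i).2 j))) : DualNumber R))
        (fun j _ => by simp)
      constructor
      · rw [TrivSqZeroExt.fst_mul, h7.1, h8.1, one_mul]
      · rw [DualNumber.snd_mul, h7.1, h8.1, h7.2, h8.2, one_mul, mul_one]
        simp only [TrivSqZeroExt.snd_add, TrivSqZeroExt.snd_inl, TrivSqZeroExt.snd_inr, zero_add,
          Finset.sum_neg_distrib]
        rw [sum_fib (fun j => (p i).1 j) (h i), sum_fib (fun j => (p i).2 j) (h i),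
          neg_add_eq_sub, ← Finset.sum_sub_distrib]
        refine Finset.sum_congr rfl fun x _ => ?_
        rw [wgt]
        push_cast
        ring
    have h9 := prod_fst_one Finset.univ (fun i =>
      (((∏ j, (TrivSqZeroExt.inl 1 + TrivSqZeroExt.inr (h i ((p i).1 j)) :
        DualNumber R)) * ∏ j, (TrivSqZeroExt.inl 1 + TrivSqZeroExt.inr (-(h i ((p i).2 j))) :
        DualNumber R)) : DualNumber R)) (fun i _ => (h6 i).1)
    rw [h9.2]
    exact Finset.sum_congr rfl fun i _ => (h6 i).2
  · rw [Matrix.diagonal_apply_ne _ hp] at h4 ⊢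
    have h5 := congrArg TrivSqZeroExt.snd h4
    rw [snd_dl] at h5
    rw [h5]
    rfl

theorem dtm_sgl_int (i : Fin t) (x y : Fin (m i)) (p p' : Tix m c c')
    (hn : dtm c c' (Pi.single i (Matrix.single x y (1 : ℤ))) p p' ≠ 0) (i' : Fin t)
    (x' : Fin (m i')) :
    wgt p i' x' - wgt p' i' x' = (Pi.single (M := fun i => Fin (m i) → ℤ) i
      (Pi.single x 1 - Pi.single y 1)) i' x' := by
  have h1 := dtm_brk (c := c) (c' := c')
    (fun k => Matrix.diagonal ((Pi.single (M := fun i => Fin (m i) → ℤ) i' (Pi.single x' 1)) k))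
    (Pi.single (M := fun i => Matrix (Fin (m i)) (Fin (m i)) ℤ) i (Matrix.single x y (1 : ℤ)))
  have h2 : (fun k => Matrix.diagonal
      ((Pi.single (M := fun i => Fin (m i) → ℤ) i' (Pi.single x' 1)) k) *
      (Pi.single (M := fun i => Matrix (Fin (m i)) (Fin (m i)) ℤ) i
        (Matrix.single x y (1 : ℤ))) k -
      (Pi.single (M := fun i => Matrix (Fin (m i)) (Fin (m i)) ℤ) i
        (Matrix.single x y (1 : ℤ))) k * Matrix.diagonal
      ((Pi.single (M := fun i => Fin (m i) → ℤ) i' (Pi.single x' 1)) k)) = fun k =>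
      ((Pi.single (M := fun i => Fin (m i) → ℤ) i (Pi.single x 1 - Pi.single y 1)) i' x') •
      (Pi.single (M := fun i => Matrix (Fin (m i)) (Fin (m i)) ℤ) i
        (Matrix.single x y (1 : ℤ))) k := by
    funext k
    by_cases hk : k = i
    · subst hk
      rw [Pi.single_eq_same]
      ext a b
      rw [Matrix.sub_apply, Matrix.diagonal_mul, Matrix.mul_diagonal, Matrix.smul_apply,
        smul_eq_mul]
      by_cases hab : x = a ∧ y = b
      · obtain ⟨rfl, rfl⟩ := hab
        rw [Matrix.single_apply_same, mul_one, one_mul, mul_one]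
        by_cases hi : k = i'
        · subst hi
          rw [Pi.single_eq_same, Pi.single_eq_same, Pi.sub_apply]
          simp only [Pi.single_apply]
          congr 1 <;> simp only [eq_comm]
        · rw [Pi.single_eq_of_ne hi, Pi.single_eq_of_ne (Ne.symm hi)]
          simp
      · rw [Matrix.single_apply_of_ne _ _ _ _ _ hab]
        simp
    · rw [Pi.single_eq_of_ne hk]
      simp
  rw [h2, dtm_smul, dtm_diag] at h1
  have h3 := congrFun (congrFun h1 p) p'
  rw [Matrix.smul_apply, Matrix.sub_apply, Matrix.diagonal_mul, Matrix.mul_diagonal,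
    smul_eq_mul] at h3
  have h4 : ∀ p : Tix m c c', ∑ i, ∑ x,
      (Pi.single (M := fun i => Fin (m i) → ℤ) i' (Pi.single x' 1)) i x *
        ((wgt p i x : ℤ) : ℤ) = wgt p i' x' := by
    intro p
    rw [Finset.sum_eq_single i' (fun k _ hk => by
      rw [Pi.single_eq_of_ne hk]
      simp) (fun hk => absurd (Finset.mem_univ _) hk),
      Finset.sum_eq_single x' (fun k _ hk => by
      rw [Pi.single_eq_same, Pi.single_eq_of_ne hk, zero_mul])
      (fun hk => absurd (Finset.mem_univ _) hk), Pi.single_eq_same, Pi.single_eq_same, one_mul]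
  simp only [Int.cast_id] at h3
  rw [h4, h4, mul_comm (dtm c c' _ p p'), ← sub_mul] at h3
  exact (mul_right_cancel₀ hn h3).symm

theorem dtm_sgl (i : Fin t) (x y : Fin (m i)) (p p' : Tix m c c')
    (hn : dtm c c' (Pi.single i (Matrix.single x y (1 : R))) p p' ≠ 0) (i' : Fin t)
    (x' : Fin (m i')) :
    wgt p i' x' - wgt p' i' x' = (Pi.single (M := fun i => Fin (m i) → ℤ) i
      (Pi.single x 1 - Pi.single y 1)) i' x' := by
  apply dtm_sgl_int
  intro h
  apply hn
  have h1 := dtm_map (c := c) (c' := c') (Int.castRingHom R)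
    (Pi.single (M := fun i => Matrix (Fin (m i)) (Fin (m i)) ℤ) i (Matrix.single x y (1 : ℤ)))
  have h2 : (fun k => ((Pi.single (M := fun i => Matrix (Fin (m i)) (Fin (m i)) ℤ) i
      (Matrix.single x y (1 : ℤ))) k).map (Int.castRingHom R)) =
      Pi.single (M := fun i => Matrix (Fin (m i)) (Fin (m i)) R) i (Matrix.single x y (1 : R)) := by
    funext k
    by_cases hk : k = i
    · subst hk
      rw [Pi.single_eq_same, Pi.single_eq_same]
      ext a b
      rw [Matrix.map_apply, Matrix.single_apply, Matrix.single_apply]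
      split_ifs <;> simp
    · rw [Pi.single_eq_of_ne hk, Pi.single_eq_of_ne hk]
      ext a b
      simp
  rw [h2] at h1
  have h3 := congrFun (congrFun h1 p) p'
  rw [Matrix.map_apply, h, map_zero] at h3
  exact h3.symm

theorem wgt_sum (p : Tix m c c') (i : Fin t) : ∑ x, wgt p i x = (c i : ℤ) - c' i := by
  unfold wgt
  rw [Finset.sum_sub_distrib]
  have h1 := sum_fib (R := ℤ) (fun j => (p i).1 j) (fun _ => 1)
  have h2 := sum_fib (R := ℤ) (fun j => (p i).2 j) (fun _ => 1)
  simp only [one_mul] at h1 h2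
  rw [← h1, ← h2]
  simp

theorem wgt_le (p : Tix m c c') (i : Fin t) (x : Fin (m i)) :
    |wgt p i x| ≤ (c i : ℤ) + c' i := by
  unfold wgt
  have h1 := Finset.card_filter_le (Finset.univ : Finset (Fin (c i))) (fun j => (p i).1 j = x)
  have h2 := Finset.card_filter_le (Finset.univ : Finset (Fin (c' i))) (fun j => (p i).2 j = x)
  rw [Finset.card_univ, Fintype.card_fin] at h1 h2
  rw [abs_le]
  constructor <;> omega

end TMBp

theorem TMB : ST_TMB := by
  intro R _ t m c c'
  exact ⟨TMBp.tmy_mul, TMBp.tmy_one, fun R' _ f x y => ⟨TMBp.tmy_map f x y, TMBp.dtm_map f x⟩,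
    fun x y => ⟨TMBp.tmy_tr x y, TMBp.dtm_tr x⟩, TMBp.tmy_smul, TMBp.tmy_diag, TMBp.dtm_add,
    TMBp.dtm_smul, TMBp.dtm_brk, TMBp.dtm_conj, TMBp.dtm_diag,
    fun i x y p p' _ h i' x' => TMBp.dtm_sgl i x y p p' h i' x',
    fun p => ⟨TMBp.wgt_sum p, TMBp.wgt_le p⟩, TMBp.tmy_coeff⟩

end REC
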