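import Pool.Agent.Helper85.REC.Stmts14
import Pool.Agent.Helper84.MU.CYC

/-!
# REC, part 14: row PPT
-/

set_option autoImplicit false
set_option maxHeartbeats 800000

open scoped Classical
open NumberField Polynomial

namespace REC

open Pool.Agent.Helper13.ZL (Pl q)
open MU

/-- the characteristic polynomial of a multiple of a matrix -/
theorem ppt_charpoly {R : Type} [CommRing R] [IsDomain R] [Infinite R] {n : ℕ}
    (A : Matrix (Fin n) (Fin n) R) (c : R) (hc : IsUnit c) :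
    (c • A).charpoly = A.charpoly.scaleRoots c := by
  apply Polynomial.funext
  intro y
  obtain ⟨x, rfl⟩ : ∃ x, y = c * x := by
    obtain ⟨u, rfl⟩ := hc
    exact ⟨(u⁻¹ : Rˣ) * y, by rw [← mul_assoc, Units.mul_inv, one_mul]⟩
  have h1 := Polynomial.scaleRoots_eval₂_mul (p := A.charpoly) (RingHom.id R) x c
  rw [RingHom.id_apply] at h1
  change (scaleRoots A.charpoly c).eval (c * x) = _ at h1
  rw [h1, Matrix.charpoly_natDegree_eq_dim, Fintype.card_fin]
  change _ = c ^ n * A.charpoly.eval x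
  rw [Matrix.eval_charpoly, Matrix.eval_charpoly]
  have h2 : Matrix.scalar (Fin n) (c * x) - c • A = c • (Matrix.scalar (Fin n) x - A) := by
    ext i j
    simp only [Matrix.sub_apply, Matrix.scalar_apply, Matrix.diagonal_apply, Matrix.smul_apply,
      smul_eq_mul]
    split_ifs <;> ring
  rw [h2, Matrix.det_smul, Fintype.card_fin]

section

variable {F : Type} [Field F] [NumberField F] {m : ℕ}

/-- scalar matrices -/
noncomputable def ppS (m l : ℕ) [Fact l.Prime] : ℤ_[l]ˣ →* Matrix.GeneralLinearGroup (Fin m) ℤ_[l] :=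
  Units.map ((Matrix.scalar (Fin m) : ℤ_[l] →+* Matrix (Fin m) (Fin m) ℤ_[l]) :
    ℤ_[l] →* Matrix (Fin m) (Fin m) ℤ_[l])

theorem ppS_coe (l : ℕ) [Fact l.Prime] (u : ℤ_[l]ˣ) : ((ppS m l u : Matrix.GeneralLinearGroup
    (Fin m) ℤ_[l]) : Matrix (Fin m) (Fin m) ℤ_[l]) = (u : ℤ_[l]) • 1 := by
  unfold ppS
  rw [Units.coe_map]
  change Matrix.scalar (Fin m) (u : ℤ_[l]) = _
  ext i j
  simp only [Matrix.scalar_apply, Matrix.diagonal_apply, Matrix.smul_apply, Matrix.one_apply,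
    smul_eq_mul]
  split_ifs <;> simp

theorem ppS_comm (l : ℕ) [Fact l.Prime] (u : ℤ_[l]ˣ) (x : Matrix.GeneralLinearGroup (Fin m) ℤ_[l]) :
    ppS m l u * x = x * ppS m l u := by
  apply Units.ext
  rw [Units.val_mul, Units.val_mul, ppS_coe, Matrix.smul_mul, Matrix.one_mul, Matrix.mul_smul,
    Matrix.mul_one]

/-- the twist as a representation -/
noncomputable def ppT {l : ℕ} [Fact l.Prime] (B : Gal F →* Matrix.GeneralLinearGroup (Fin m) ℤ_[l])
    (a : ℤ) : Gal F →* Matrix.GeneralLinearGroup (Fin m) ℤ_[l] where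
  toFun g := ppS m l (cyc l F g ^ a) * B g
  map_one' := by rw [map_one, map_one, one_zpow, map_one, one_mul]
  map_mul' g g' := by
    rw [map_mul, map_mul, mul_zpow, map_mul, mul_assoc, mul_assoc, ← mul_assoc (B g),
      ← ppS_comm l _ (B g), mul_assoc]

theorem ppT_coe {l : ℕ} [Fact l.Prime] (B : Gal F →* Matrix.GeneralLinearGroup (Fin m) ℤ_[l])
    (a : ℤ) (g : Gal F) : ((ppT B a g : Matrix.GeneralLinearGroup (Fin m) ℤ_[l]) :
      Matrix (Fin m) (Fin m) ℤ_[l]) = twc B a g := by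
  change ((ppS m l (cyc l F g ^ a) * B g : Matrix.GeneralLinearGroup (Fin m) ℤ_[l]) :
    Matrix (Fin m) (Fin m) ℤ_[l]) = _
  rw [Units.val_mul, ppS_coe, Matrix.smul_mul, Matrix.one_mul]
  rfl

theorem twc_add {l : ℕ} [Fact l.Prime] (B : Gal F →* Matrix.GeneralLinearGroup (Fin m) ℤ_[l])
    (a T : ℤ) (g : Gal F) : twc B a g = ((cyc l F g ^ T : ℤ_[l]ˣ) : ℤ_[l]) • twc B (a - T) g := by
  unfold twc
  rw [smul_smul, ← Units.val_mul, ← zpow_add, add_sub_cancel]

theorem ppT_comm {l : ℕ} [Fact l.Prime] (B : Gal F →* Matrix.GeneralLinearGroup (Fin m) ℤ_[l])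
    (a : ℤ) (g g' : Gal F) (h : B g * B g' = B g' * B g) :
    ppT B a g * ppT B a g' = ppT B a g' * ppT B a g := by
  apply Units.ext
  rw [Units.val_mul, Units.val_mul, ppT_coe, ppT_coe]
  unfold twc
  rw [Matrix.smul_mul, Matrix.mul_smul, Matrix.smul_mul, Matrix.mul_smul, ← Units.val_mul (B g),
    h, Units.val_mul, smul_smul, smul_smul, mul_comm]

omit [NumberField F] in
theorem ppT_cont {l : ℕ} [Fact l.Prime] (B : Gal F →* Matrix.GeneralLinearGroup (Fin m) ℤ_[l])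
    (hB : Continuous B) (a : ℤ) : Continuous (ppT B a) := by
  have hc : Continuous (fun s : Gal F => cyc l F s) :=
    cyclotomicCharacter.continuous l F (AlgebraicClosure F)
  have h1 : Continuous (ppS m l) := by
    unfold ppS
    apply Continuous.units_map
    change Continuous fun x : ℤ_[l] => Matrix.scalar (Fin m) x
    refine continuous_matrix fun i j => ?_
    simp only [Matrix.scalar_apply, Matrix.diagonal_apply]
    split_ifs
    · exact continuous_id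
    · exact continuous_const
  exact (h1.comp (hc.zpow a)).mul hB

/-- the rational representation of the twist -/
theorem ppT_rat {l : ℕ} [Fact l.Prime] (B : Gal F →* Matrix.GeneralLinearGroup (Fin m) ℤ_[l])
    (a : ℤ) (g : Gal F) : rat (ppT B a) g =
      (algebraMap ℤ_[l] ℚ_[l] ((cyc l F g ^ a : ℤ_[l]ˣ) : ℤ_[l])) • rat B g := by
  change ((ppT B a g : Matrix.GeneralLinearGroup (Fin m) ℤ_[l]) :
    Matrix (Fin m) (Fin m) ℤ_[l]).map (algebraMap ℤ_[l] ℚ_[l]) = _ • (B g :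
    Matrix (Fin m) (Fin m) ℤ_[l]).map (algebraMap ℤ_[l] ℚ_[l])
  rw [ppT_coe]
  unfold twc
  rw [Matrix.map_smul' _ _ _ (map_mul _)]

theorem ppT_ss {l : ℕ} [Fact l.Prime] (B : Gal F →* Matrix.GeneralLinearGroup (Fin m) ℤ_[l])
    (a : ℤ) (hB : IsSS (rat B)) : IsSS (rat (ppT B a)) := by
  intro k X A hXA
  obtain ⟨⟨C, hC⟩, hA⟩ := hXA
  have hu : ∀ g : Gal F, IsUnit (algebraMap ℤ_[l] ℚ_[l] ((cyc l F g ^ a : ℤ_[l]ˣ) : ℤ_[l])) :=
    fun g => (Units.isUnit _).map _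
  set c : Gal F → ℚ_[l] := fun g => algebraMap ℤ_[l] ℚ_[l] ((cyc l F g ^ a : ℤ_[l]ˣ) : ℤ_[l])
    with hc
  have hc0 : ∀ g, c g ≠ 0 := fun g => (hu g).ne_zero
  obtain ⟨C', hC', hC''⟩ := hB k X (fun g => (c g)⁻¹ • A g) ⟨⟨C, hC⟩, fun g => by
    have h1 := hA g
    rw [ppT_rat, Matrix.smul_mul] at h1
    rw [Matrix.mul_smul, ← h1, smul_smul]
    change _ = ((c g)⁻¹ * c g) • _
    rw [inv_mul_cancel₀ (hc0 g), one_smul]⟩
  refine ⟨C', hC', fun g => ?_⟩
  have h1 := hC'' g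
  rw [ppT_rat, Matrix.mul_smul, h1, Matrix.smul_mul, smul_smul]
  change (c g * (c g)⁻¹) • _ = _
  rw [mul_inv_cancel₀ (hc0 g), one_smul]

/-- the twists by `cyc ^ a`, `a ≤ 0`, are compatible families -/
theorem ppT_fam (S S' : Finset ℕ) (hSS : S ⊆ S')
    (B : ∀ (l : ℕ) [Fact l.Prime], Gal F →* Matrix.GeneralLinearGroup (Fin m) ℤ_[l])
    (hB : IsFam S B) (a : ℤ) (ha : a ≤ 0) : IsFam S' (fun l _ => ppT (B l) a) := by
  refine ⟨fun l _ => ppT_cont (B l) (hB.1 l) a, ?_⟩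
  intro p hp hpS 𝔓 hover k σ hk hcong
  obtain ⟨P, hP⟩ := hB.2 p hp (fun h => hpS (hSS h)) 𝔓 hover k σ hk hcong
  obtain ⟨b, hb⟩ : ∃ b : ℕ, a = -(b : ℤ) := ⟨a.natAbs, by omega⟩
  refine ⟨P.scaleRoots ((p : ℤ) ^ (k * b)), fun l _ hl => ?_⟩
  have hpl : p ≠ l := fun h => hl h.symm
  have hcyc := st_CYC F F l p hp hpl 𝔓 hover k σ hcong
  have h1 : ((cyc l F σ⁻¹ ^ a : ℤ_[l]ˣ) : ℤ_[l]) = ((p : ℤ_[l])) ^ (k * b) := by
    rw [hb, map_inv, inv_zpow', neg_neg, zpow_natCast, Units.val_pow_eq_pow_val, hcyc, pow_mul]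
  rw [ppT_coe]
  unfold twc
  rw [h1, ppt_charpoly _ _ (by
    rw [← h1]
    exact Units.isUnit _), hP l hl]
  have hmon : P.Monic := by
    apply Polynomial.monic_of_injective (f := Int.castRingHom ℤ_[l]) Int.cast_injective
    rw [← hP l hl]
    exact Matrix.charpoly_monic _
  rw [Polynomial.map_scaleRoots _ _ _ (by
    rw [hmon.leadingCoeff, map_one]
    exact one_ne_zero)]
  congr 1
  rw [map_pow, eq_intCast, Int.cast_natCast]

end

/-- PPT -/
theorem st_PPT (hPPG : ST_PPG) : ST_PPT := by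
  intro F _ _ S S' hS hS' m m' w w' h h' B B' hB hB' a a' H hH hc hc'
  set T : ℤ := max a a' with hT
  have hfam : IsFam S B.ρ := ⟨B.continuous, fun p hp hpS 𝔓 hover k σ hk hcong => by
    obtain ⟨P, -, hP⟩ := B.pure p hp hpS 𝔓 hover k σ hk hcong
    exact ⟨P, hP⟩⟩
  have hfam' : IsFam S' B'.ρ := ⟨B'.continuous, fun p hp hpS 𝔓 hover k σ hk hcong => by
    obtain ⟨P, -, hP⟩ := B'.pure p hp hpS 𝔓 hover k σ hk hcong
    exact ⟨P, hP⟩⟩
  obtain ⟨c, hcc⟩ := hPPG F (S ∪ S') m m' (fun l _ => ppT (B.ρ l) (a - T))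
    (fun l _ => ppT (B'.ρ l) (a' - T))
    (ppT_fam S _ Finset.subset_union_left B.ρ hfam _ (by
      rw [sub_nonpos]
      exact le_max_left _ _))
    (ppT_fam S' _ Finset.subset_union_right B'.ρ hfam' _ (by
      rw [sub_nonpos]
      exact le_max_right _ _))
    (fun l _ => ppT_ss _ _ (hB.1 l)) (fun l _ => ppT_ss _ _ (hB'.1 l)) H hH
    (fun l _ g hg g' hg' => ppT_comm _ _ _ _ (hc l g hg g' hg'))
    (fun l _ g hg g' hg' => ppT_comm _ _ _ _ (hc' l g hg g' hg'))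
  refine ⟨c, fun l _ hl => ?_⟩
  obtain ⟨h1, h2⟩ := hcc l hl
  set κ : ℤ_[l] →+* ZMod l := PadicInt.toZMod (p := l) with hκ
  have hunit : ∀ g : Gal F, IsUnit (κ ((cyc l F g ^ T : ℤ_[l]ˣ) : ℤ_[l])) :=
    fun g => (Units.isUnit _).map _
  constructor
  · intro W hW
    obtain ⟨e, he1, he2, he3⟩ := h1 W (fun g x hx => by
      have h3 := hW g x hx
      dsimp only at h3 ⊢
      rw [twc_add _ a T, Matrix.map_smul' _ _ _ (map_mul _), Matrix.smul_mulVec] at h3
      rw [ppT_coe]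
      exact (Submodule.smul_mem_iff W (hunit g).ne_zero).1 h3)
    refine ⟨e, fun g => ?_, he2, he3⟩
    have h3 := he1 g
    dsimp only at h3 ⊢
    rw [ppT_coe] at h3
    rw [twc_add _ a T, Matrix.map_smul' _ _ _ (map_mul _), Matrix.mul_smul, h3, Matrix.smul_mul]
  · intro u hu
    obtain ⟨x, hx, hx'⟩ := h2 u (fun g => by
      have h3 := hu g
      dsimp only at h3 ⊢
      rw [twc_add _ a T, twc_add _ a' T, Matrix.map_smul' _ _ _ (map_mul _),
        Matrix.map_smul' _ _ _ (map_mul _), Matrix.mul_smul, Matrix.smul_mul] at h3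
      rw [ppT_coe, ppT_coe]
      exact (hunit g).smul_left_cancel.1 h3)
    refine ⟨x, hx, fun g => ?_⟩
    have h3 := hx' g
    dsimp only at h3 ⊢
    rw [ppT_coe, ppT_coe] at h3
    rw [twc_add _ a T, twc_add _ a' T, Matrix.mul_smul, h3, Matrix.smul_mul]

end REC
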