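import Pool.Agent.Helper85.REC.Stmts10
import Pool.Agent.Helper39.MU.BNS
import Pool.Agent.Helper85.MU.LARGE
import Pool.Agent.Helper85.MU.TRQ

/-!
# REC, ATP: pairs of atoms
-/

set_option autoImplicit false
set_option maxHeartbeats 800000

open scoped Classical
open NumberField Polynomial Topology

namespace REC

open Pool.Agent.Helper13.ZL (Pl q)
open MU

/-- irreducible representations are completely reducible -/
theorem atp_ss {G K : Type} [Group G] [Field K] {n : ℕ} (r : G →* Matrix (Fin n) (Fin n) K)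
    (h : IsIrr r) : IsSS r := by
  intro m B A hBA
  rcases h m B A hBA with hm | hm
  · subst hm
    exact ⟨0, Subsingleton.elim _ _, fun g => Subsingleton.elim _ _⟩
  · subst hm
    obtain ⟨⟨C, hC⟩, hA⟩ := hBA
    refine ⟨C, hC, fun g => ?_⟩
    have hBC : B * C = 1 := mul_eq_one_comm.1 hC
    calc C * r g = C * r g * (B * C) := by rw [hBC, Matrix.mul_one]
      _ = C * (r g * B) * C := by simp only [Matrix.mul_assoc]
      _ = C * B * A g * C := by rw [hA g, ← Matrix.mul_assoc]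
      _ = A g * C := by rw [hC, Matrix.one_mul]

/-- Schur's lemma -/
theorem atp_schur {G K : Type} [Group G] [Field K] {n n' : ℕ}
    (r : G →* Matrix (Fin n) (Fin n) K) (s : G →* Matrix (Fin n') (Fin n') K) (hr : IsIrr r)
    (hs : IsIrr s) (u : Matrix (Fin n') (Fin n) K) (hu : ∀ g, u * r g = s g * u) (h0 : u ≠ 0) :
    Function.Bijective u.mulVecLin := by
  have hz : ∀ f : Matrix (Fin n') (Fin n) K, (∀ v, f.mulVec v = 0) → f = 0 := by
    intro f hf
    ext i j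
    have h1 := congrFun (hf (Pi.single j 1)) i
    rw [Matrix.mulVec_single_one] at h1
    exact h1
  constructor
  · rw [← LinearMap.ker_eq_bot]
    rcases irr_stable hr (LinearMap.ker u.mulVecLin) (by
      intro g v hv
      rw [LinearMap.mem_ker, Matrix.mulVecLin_apply] at hv ⊢
      rw [Matrix.mulVec_mulVec, hu, ← Matrix.mulVec_mulVec, hv, Matrix.mulVec_zero]) with h | h
    · exact h
    · exfalso
      apply h0
      apply hz
      intro v
      have h2 : v ∈ LinearMap.ker u.mulVecLin := by rw [h]; trivial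
      exact h2
  · rw [← LinearMap.range_eq_top]
    rcases irr_stable hs (LinearMap.range u.mulVecLin) (by
      rintro g _ ⟨v, rfl⟩
      refine ⟨(r g).mulVec v, ?_⟩
      rw [Matrix.mulVecLin_apply, Matrix.mulVecLin_apply, Matrix.mulVec_mulVec, hu,
        ← Matrix.mulVec_mulVec]) with h | h
    · exfalso
      apply h0
      apply hz
      intro v
      have h2 : u.mulVecLin v ∈ LinearMap.range u.mulVecLin := ⟨v, rfl⟩
      rw [h, Submodule.mem_bot] at h2
      exact h2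
    · exact h

section

variable {F : Type} [Field F] [NumberField F] {S : Finset ℕ} {n w : ℕ} {h h' : Fin n → ℕ}

/-- if the traces differ, they differ at the inverse of a Frobenius power -/
theorem atp_dense (hFRB : ST_FRB) (M : Mot F S n w h) (M' : Mot F S n w h') (l : ℕ)
    [Fact l.Prime] (g : Gal F) (hne : (rat (M.ρ l) g).trace ≠ (rat (M'.ρ l) g).trace)
    (T : Finset ℕ) : ∃ (p : ℕ) (𝔓 : Ideal (Zb F)) (k : ℕ) (σ : Gal F), p.Prime ∧ p ∉ T ∧
      Over p 𝔓 ∧ 1 ≤ k ∧ CongPow 𝔓 (p ^ k) σ ∧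
      (rat (M.ρ l) σ⁻¹).trace ≠ (rat (M'.ρ l) σ⁻¹).trace := by
  have hgal : IsGalois F (AlgebraicClosure F) := inferInstance
  have hopen : IsOpen {x : Gal F | (rat (M.ρ l) (g * x)).trace ≠ (rat (M'.ρ l) (g * x)).trace} := by
    have h3 : IsClosed {x : Gal F | (rat (M.ρ l) (g * x)).trace = (rat (M'.ρ l) (g * x)).trace} :=
      isClosed_eq ((trq_continuous M l).comp (continuous_const_mul g))
        ((trq_continuous M' l).comp (continuous_const_mul g))
    exact h3.isOpen_compl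
  have hmem : {x : Gal F | (rat (M.ρ l) (g * x)).trace ≠ (rat (M'.ρ l) (g * x)).trace} ∈
      𝓝 (1 : Gal F) := by
    apply hopen.mem_nhds
    simpa using hne
  obtain ⟨E, hE, hEn, hEs⟩ :=
    (krullTopology_mem_nhds_one_iff_of_normal F (AlgebraicClosure F) _).1 hmem
  have hEgal : IsGalois F E := { }
  have hUn : E.fixingSubgroup.Normal := (InfiniteGalois.normal_iff_isGalois E).2 hEgal
  obtain ⟨p, 𝔓, k, σ, hp, hpS, h𝔓, hk, hσ, hgσ⟩ := hFRB F E.fixingSubgroup hUn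
    E.fixingSubgroup_isOpen T g⁻¹
  rw [inv_inv] at hgσ
  have h4 : g⁻¹ * σ⁻¹ ∈ E.fixingSubgroup := by
    have h5 := hUn.conj_mem _ (E.fixingSubgroup.inv_mem hgσ) g⁻¹
    have h6 : g⁻¹ * (g * σ)⁻¹ * g⁻¹⁻¹ = g⁻¹ * σ⁻¹ := by group
    rwa [h6] at h5
  have h7 := hEs h4
  have h8 : g * (g⁻¹ * σ⁻¹) = σ⁻¹ := by group
  have h9 : (rat (M.ρ l) (g * (g⁻¹ * σ⁻¹))).trace ≠ (rat (M'.ρ l) (g * (g⁻¹ * σ⁻¹))).trace := h7
  rw [h8] at h9
  exact ⟨p, 𝔓, k, σ, hp, hpS, h𝔓, hk, hσ, h9⟩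

/-- different traces at some `l₀`: different integers which are the traces for almost all `l` -/
theorem atp_diff (hFRB : ST_FRB) (M : Mot F S n w h) (M' : Mot F S n w h') (l₀ : ℕ)
    [Fact l₀.Prime] (g : Gal F) (hne : (rat (M.ρ l₀) g).trace ≠ (rat (M'.ρ l₀) g).trace)
    (T : Finset ℕ) :
    ∃ (p : ℕ) (τ : Gal F) (t t' : ℤ), p ∉ T ∧ t ≠ t' ∧ ∀ (l : ℕ) [Fact l.Prime], l ≠ p →
      (rat (M.ρ l) τ).trace = t ∧ (rat (M'.ρ l) τ).trace = t' := by
  have hn : n ≠ 0 := by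
    rintro rfl
    apply hne
    simp [Matrix.trace]
  obtain ⟨p, 𝔓, k, σ, hp, hpT, h𝔓, hk, hσ, hd⟩ := atp_dense hFRB M M' l₀ g hne
    (insert l₀ (S ∪ T))
  simp only [Finset.mem_insert, Finset.mem_union, not_or] at hpT
  obtain ⟨P, -, hP⟩ := M.pure p hp hpT.2.1 𝔓 h𝔓 k σ hk hσ
  obtain ⟨P', -, hP'⟩ := M'.pure p hp hpT.2.1 𝔓 h𝔓 k σ hk hσ
  have key : ∀ (l : ℕ) [Fact l.Prime], l ≠ p →
      (rat (M.ρ l) σ⁻¹).trace = ((-P.coeff (n - 1) : ℤ) : ℚ_[l]) ∧
      (rat (M'.ρ l) σ⁻¹).trace = ((-P'.coeff (n - 1) : ℤ) : ℚ_[l]) := by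
    intro l _ hl
    have e1 := trq_trace (M.ρ l) σ⁻¹ P (hP l hl)
    have e2 := trq_trace (M'.ρ l) σ⁻¹ P' (hP' l hl)
    rw [if_neg hn] at e1 e2
    rw [e1, e2]
    push_cast
    exact ⟨rfl, rfl⟩
  refine ⟨p, σ⁻¹, -P.coeff (n - 1), -P'.coeff (n - 1), hpT.2.2, fun h0 => ?_, key⟩
  have h1 := key l₀ (fun h => hpT.1 h.symm)
  apply hd
  rw [h1.1, h1.2, h0]

/-- TRQ with different Hodge types -/
theorem atp_trq (hFRB : ST_FRB) (M : Mot F S n w h) (M' : Mot F S n w h')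
    (h2 : ∀ g : Gal F, (rat (M.ρ 2) g).trace = (rat (M'.ρ 2) g).trace) (l : ℕ) [Fact l.Prime]
    (g : Gal F) : (rat (M.ρ l) g).trace = (rat (M'.ρ l) g).trace := by
  by_contra hne
  obtain ⟨p, τ, t, t', hpT, htt, ht⟩ := atp_diff hFRB M M' l g hne {2}
  have h3 := ht 2 (fun h => hpT (Finset.mem_singleton.2 h.symm))
  have h4 := h2 τ
  rw [h3.1, h3.2] at h4
  exact htt (by exact_mod_cast h4)

omit [NumberField F] in
/-- the trace of the reduction -/
theorem atp_res {l : ℕ} [Fact l.Prime] (r : Gal F →* Matrix.GeneralLinearGroup (Fin n) ℤ_[l])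
    (τ : Gal F) (t : ℤ) (ht : (rat r τ).trace = t) : (res r τ).trace = t := by
  have h1 : ((r τ : Matrix.GeneralLinearGroup (Fin n) ℤ_[l]) :
      Matrix (Fin n) (Fin n) ℤ_[l]).trace = t := by
    apply FaithfulSMul.algebraMap_injective ℤ_[l] ℚ_[l]
    rw [map_intCast, ← ht]
    simp only [Matrix.trace, Matrix.diag, map_sum]
    rfl
  have h2 : (res r τ).trace = PadicInt.toZMod (((r τ : Matrix.GeneralLinearGroup (Fin n) ℤ_[l]) :
      Matrix (Fin n) (Fin n) ℤ_[l]).trace) := by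
    simp only [Matrix.trace, Matrix.diag, map_sum]
    rfl
  rw [h2, h1, map_intCast]

/-- the case of equal ranks -/
theorem atp_hlp (hFRB : ST_FRB) (M : Mot F S n w h) (M' : Mot F S n w h') (hM : Atm M)
    (hM' : Atm M') : HLp M M' := by
  obtain ⟨hirr, c, hc⟩ := hM
  obtain ⟨hirr', c', hc'⟩ := hM'
  by_cases htr : ∀ g : Gal F, (rat (M.ρ 2) g).trace = (rat (M'.ρ 2) g).trace
  · refine ⟨c, fun l _ hl u hu => ?_⟩
    obtain ⟨ψ, hψ⟩ := st_BNS (Gal F) ℚ_[l] n (rat (M.ρ l)) (rat (M'.ρ l)) (hirr l)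
      (fun g => atp_trq hFRB M M' htr l g)
    obtain ⟨φ, hφ⟩ := st_LARGE (Gal F) n l (M.ρ l) (M'.ρ l) (hc l hl).1 ⟨ψ, hψ⟩
    have hφ1 : ∀ g, (φ : Matrix (Fin n) (Fin n) ℤ_[l]) * (M.ρ l g : Matrix (Fin n) (Fin n) ℤ_[l]) =
        (M'.ρ l g : Matrix (Fin n) (Fin n) ℤ_[l]) * φ := by
      intro g
      rw [← Units.val_mul, ← Units.val_mul, hφ g]
    set Φ : Matrix (Fin n) (Fin n) (ZMod l) :=
      (φ : Matrix (Fin n) (Fin n) ℤ_[l]).map (PadicInt.toZMod (p := l)) with hΦ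
    set Ψ : Matrix (Fin n) (Fin n) (ZMod l) :=
      ((φ⁻¹ : Matrix.GeneralLinearGroup (Fin n) ℤ_[l]) : Matrix (Fin n) (Fin n) ℤ_[l]).map
        (PadicInt.toZMod (p := l)) with hΨ
    have hΦΨ : Φ * Ψ = 1 := by
      rw [hΦ, hΨ, ← Matrix.map_mul, ← Units.val_mul, mul_inv_cancel, Units.val_one,
        Matrix.map_one _ (map_zero _) (map_one _)]
    have hΨΦ : Ψ * Φ = 1 := mul_eq_one_comm.1 hΦΨ
    have hΦr : ∀ g, Φ * res (M.ρ l) g = res (M'.ρ l) g * Φ := by
      intro g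
      rw [hΦ, res_apply, res_apply, ← Matrix.map_mul, hφ1 g, Matrix.map_mul]
    have hΨr : ∀ g, Ψ * res (M'.ρ l) g = res (M.ρ l) g * Ψ := by
      intro g
      calc Ψ * res (M'.ρ l) g = Ψ * (res (M'.ρ l) g * (Φ * Ψ)) := by rw [hΦΨ, Matrix.mul_one]
        _ = Ψ * (Φ * res (M.ρ l) g) * Ψ := by rw [hΦr]; simp only [Matrix.mul_assoc]
        _ = res (M.ρ l) g * Ψ := by rw [← Matrix.mul_assoc, hΨΦ, Matrix.one_mul]
    obtain ⟨a, ha⟩ := (hc l hl).2 (Ψ * u) (fun g => by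
      rw [Matrix.mul_assoc, hu, ← Matrix.mul_assoc, hΨr, Matrix.mul_assoc])
    have hua : u = a • Φ := by
      calc u = Φ * Ψ * u := by rw [hΦΨ, Matrix.one_mul]
        _ = Φ * (Ψ * u) := Matrix.mul_assoc _ _ _
        _ = a • Φ := by rw [ha, Matrix.mul_smul, Matrix.mul_one]
    obtain ⟨b, hb⟩ : ∃ b : ℤ_[l], PadicInt.toZMod (p := l) b = a := by
      have : NeZero l := ⟨(Fact.out : l.Prime).ne_zero⟩
      exact ⟨(a.val : ℤ_[l]), by rw [map_natCast, ZMod.natCast_zmod_val]⟩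
    refine ⟨b • (φ : Matrix (Fin n) (Fin n) ℤ_[l]), ?_, fun g => ?_⟩
    · rw [hua]
      ext i j
      rw [Matrix.map_apply, Matrix.smul_apply, smul_eq_mul, map_mul, hb, Matrix.smul_apply,
        smul_eq_mul, hΦ, Matrix.map_apply]
    · rw [Matrix.smul_mul, hφ1, Matrix.mul_smul]
  · push Not at htr
    obtain ⟨g, hg⟩ := htr
    obtain ⟨p, τ, t, t', -, htt, ht⟩ := atp_diff hFRB M M' 2 g hg ∅
    refine ⟨max (max c c') (max p (t - t').natAbs), fun l _ hl u hu => ?_⟩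
    have hlc : c < l := ((le_max_left _ _).trans (le_max_left _ _)).trans_lt hl
    have hlc' : c' < l := ((le_max_right _ _).trans (le_max_left _ _)).trans_lt hl
    have hlp : p < l := ((le_max_left _ _).trans (le_max_right _ _)).trans_lt hl
    have hlt : (t - t').natAbs < l := ((le_max_right _ _).trans (le_max_right _ _)).trans_lt hl
    have hu0 : u = 0 := by
      by_contra h0
      have hbij := atp_schur (res (M.ρ l)) (res (M'.ρ l)) (hc l hlc).1 (hc' l hlc').1 u hu h0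
      have hunit : IsUnit u := by
        rw [← Matrix.mulVec_injective_iff_isUnit]
        exact hbij.1
      obtain ⟨v, hv⟩ := hunit
      have h1 : (res (M.ρ l) τ).trace = (res (M'.ρ l) τ).trace := by
        calc (res (M.ρ l) τ).trace
            = (((v⁻¹ : (Matrix (Fin n) (Fin n) (ZMod l))ˣ) : Matrix (Fin n) (Fin n) (ZMod l)) *
                ((v : Matrix (Fin n) (Fin n) (ZMod l)) * res (M.ρ l) τ)).trace := by
              rw [← Matrix.mul_assoc, Units.inv_mul, Matrix.one_mul]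
          _ = (((v⁻¹ : (Matrix (Fin n) (Fin n) (ZMod l))ˣ) : Matrix (Fin n) (Fin n) (ZMod l)) *
                (res (M'.ρ l) τ * (v : Matrix (Fin n) (Fin n) (ZMod l)))).trace := by
              rw [hv, hu]
          _ = (res (M'.ρ l) τ).trace := by
              rw [Matrix.trace_mul_comm, Matrix.mul_assoc, Units.mul_inv, Matrix.mul_one]
      have h2 := ht l hlp.ne'
      rw [atp_res (M.ρ l) τ t h2.1, atp_res (M'.ρ l) τ t' h2.2] at h1
      have h3 : ((t - t' : ℤ) : ZMod l) = 0 := by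
        push_cast
        rw [h1, sub_self]
      rw [ZMod.intCast_zmod_eq_zero_iff_dvd] at h3
      have h4 : l ∣ (t - t').natAbs := Int.natCast_dvd.1 h3
      have h5 : (t - t').natAbs ≠ 0 := Int.natAbs_ne_zero.2 (sub_ne_zero.2 htt)
      exact absurd (Nat.le_of_dvd (Nat.pos_of_ne_zero h5) h4) (not_le.2 hlt)
    refine ⟨0, ?_, fun g => by rw [Matrix.zero_mul, Matrix.mul_zero]⟩
    rw [hu0]
    ext i j
    simp

end

/-- ATP -/
theorem st_ATP (hFRB : MU.ST_FRB) : ST_ATP := by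
  intro F _ _ S hS n n' w h h' M M' hM hM'
  refine ⟨⟨fun l _ => atp_ss _ (hM.1 l), ?_⟩, ?_⟩
  · obtain ⟨c, hc⟩ := hM.2
    exact ⟨c, fun l _ hl => atp_ss _ (hc l hl).1⟩
  · by_cases hn : n = n'
    · subst hn
      exact atp_hlp hFRB M M' hM hM'
    · obtain ⟨c, hc⟩ := hM.2
      obtain ⟨c', hc'⟩ := hM'.2
      refine ⟨max c c', fun l _ hl u hu => ?_⟩
      have hu0 : u = 0 := by
        by_contra h0
        have hbij := atp_schur (res (M.ρ l)) (res (M'.ρ l))
          (hc l ((le_max_left _ _).trans_lt hl)).1 (hc' l ((le_max_right _ _).trans_lt hl)).1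
          u hu h0
        have h1 := (LinearEquiv.ofBijective u.mulVecLin hbij).finrank_eq
        rw [Module.finrank_fin_fun, Module.finrank_fin_fun] at h1
        exact hn h1
      refine ⟨0, ?_, fun g => by rw [Matrix.zero_mul, Matrix.mul_zero]⟩
      rw [hu0]
      ext i j
      simp

end REC
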