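import Pool.Agent.Helper85.REC.Stmts12
import Pool.Agent.Helper72.REC.CMP
import Pool.Agent.Helper48.REC.MXP
import Pool.Agent.Helper60.REC.TRP
import Pool.Agent.Helper8.REC.ATP

/-!
# REC, PAA: potentially abelian motives and atoms
-/

set_option autoImplicit false
set_option maxHeartbeats 800000

open scoped Classical
open NumberField Polynomial Topology
open scoped commutatorElement

namespace REC

open Pool.Agent.Helper13.ZL (Pl q)
open MU
open Pool.Agent.Helper72.REC.C2 (dens int_zero cont_mat)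
open Pool.Agent.Helper60.REC8 (exists_openNormal continuous_coeff)

/-- the characteristic polynomial divides a power of every annihilating polynomial -/
theorem paa_dvd {K : Type} [Field K] {n : ℕ} (A : Matrix (Fin n) (Fin n) K) (p : K[X])
    (hp : aeval A p = 0) : A.charpoly ∣ p ^ n := by
  set f : K →+* AlgebraicClosure K := algebraMap K (AlgebraicClosure K) with hf
  rw [← Polynomial.map_dvd_map' f, ← Matrix.charpoly_map, Polynomial.map_pow]
  set B : Matrix (Fin n) (Fin n) (AlgebraicClosure K) := A.map f with hB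
  set s : (AlgebraicClosure K)[X] := p.map f with hs
  have hq : aeval B s = 0 := by
    have h1 := Polynomial.map_aeval_eq_aeval_map (R := K) (T := AlgebraicClosure K)
      (φ := f) (ψ := (f.mapMatrix : Matrix (Fin n) (Fin n) K →+* _)) (by
        ext x i j
        simp only [RingHom.comp_apply, Matrix.algebraMap_matrix_apply, RingHom.mapMatrix_apply,
          Matrix.map_apply]
        split_ifs <;> simp) p A
    rw [hp, map_zero] at h1
    exact h1.symm
  have hmon := B.charpoly_monic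
  have hspl : B.charpoly.Splits := IsAlgClosed.splits _
  have hcard : Multiset.card B.charpoly.roots = n := by
    have h1 := hspl.natDegree_eq_card_roots
    rw [← h1, Matrix.charpoly_natDegree_eq_dim, Fintype.card_fin]
  have hprod : B.charpoly = (B.charpoly.roots.map fun a => Polynomial.X - C a).prod := by
    exact hspl.eq_prod_roots_of_monic hmon
  have h2 : (B.charpoly.roots.map fun a => Polynomial.X - C a).prod ∣
      (B.charpoly.roots.map fun _ => s).prod := by
    refine Multiset.prod_dvd_prod_of_dvd _ _ fun a ha => ?_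
    rw [Polynomial.dvd_iff_isRoot]
    have ha1 : IsRoot B.charpoly a := Polynomial.isRoot_of_mem_roots ha
    have ha2 : a ∈ spectrum (AlgebraicClosure K) B := Matrix.mem_spectrum_iff_isRoot_charpoly.2 ha1
    have ha3 : s.eval a ∈ spectrum (AlgebraicClosure K) (aeval B s) :=
      spectrum.subset_polynomial_aeval B s ⟨a, ha2, rfl⟩
    rw [hq, spectrum.mem_iff, sub_zero] at ha3
    by_contra h0
    exact ha3 ((IsUnit.mk0 _ h0).map (algebraMap _ _))
  rw [Multiset.map_const', Multiset.prod_replicate, hcard, ← hprod] at h2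
  exact h2

/-- divisibility modulo infinitely many primes -/
theorem paa_int (P P' : ℤ[X]) (hP' : P'.Monic) (N : ℕ) (h : ∀ c : ℕ, ∃ (l : ℕ) (_ : Fact l.Prime),
    c < l ∧ P'.map (Int.castRingHom (ZMod l)) ∣ (P.map (Int.castRingHom (ZMod l))) ^ N) :
    P' ∣ P ^ N := by
  rw [← Polynomial.modByMonic_eq_zero_iff_dvd hP']
  ext i
  rw [coeff_zero]
  apply int_zero
  intro c
  obtain ⟨l, hl, hcl, hd⟩ := h c
  refine ⟨l, hcl, ?_⟩
  have h1 : ((P ^ N) %ₘ P').map (Int.castRingHom (ZMod l)) = 0 := by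
    rw [Polynomial.map_modByMonic _ hP', Polynomial.map_pow,
      (Polynomial.modByMonic_eq_zero_iff_dvd (hP'.map _)).2 hd]
  have h2 := congrArg (fun q => Polynomial.coeff q i) h1
  simp only [coeff_map, coeff_zero, eq_intCast] at h2
  exact (ZMod.intCast_zmod_eq_zero_iff_dvd _ _).1 h2

section

variable {F : Type} [Field F] [NumberField F] {S : Finset ℕ} {n n' w : ℕ} {h : Fin n → ℕ}
  {h' : Fin n' → ℕ}

omit [NumberField F] in
theorem paa_res {l : ℕ} [Fact l.Prime] (r : Gal F →* Matrix.GeneralLinearGroup (Fin n) ℤ_[l])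
    (τ : Gal F) (P : ℤ[X]) (hP : (r τ : Matrix (Fin n) (Fin n) ℤ_[l]).charpoly =
      P.map (Int.castRingHom ℤ_[l])) :
    (res r τ).charpoly = P.map (Int.castRingHom (ZMod l)) := by
  have h1 : res r τ = (r τ : Matrix (Fin n) (Fin n) ℤ_[l]).map (PadicInt.toZMod (p := l)) := rfl
  rw [h1, Matrix.charpoly_map, hP, Polynomial.map_map]
  congr 1
  exact RingHom.ext_int _ _

theorem paa_key (hFRB : ST_FRB) (M : Mot F S n w h) (M' : Mot F S n' w h')
    (hbad : ∀ c : ℕ, ∃ (l : ℕ) (_ : Fact l.Prime), c < l ∧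
      ∀ g, aeval (res (M'.ρ l) g) (res (M.ρ l) g).charpoly = 0) (l : ℕ) [Fact l.Prime]
    (g : Gal F) : (aeval (M'.ρ l g : Matrix (Fin n') (Fin n') ℤ_[l])
      (M.ρ l g : Matrix (Fin n) (Fin n) ℤ_[l]).charpoly) ^ n' = 0 := by
  have hcont : Continuous fun g : Gal F => aeval (M'.ρ l g : Matrix (Fin n') (Fin n') ℤ_[l])
      (M.ρ l g : Matrix (Fin n) (Fin n) ℤ_[l]).charpoly := by
    have h1 : ∀ g : Gal F, aeval (M'.ρ l g : Matrix (Fin n') (Fin n') ℤ_[l])
        (M.ρ l g : Matrix (Fin n) (Fin n) ℤ_[l]).charpoly = ∑ i ∈ Finset.range (n + 1),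
          (M.ρ l g : Matrix (Fin n) (Fin n) ℤ_[l]).charpoly.coeff i •
            (M'.ρ l g : Matrix (Fin n') (Fin n') ℤ_[l]) ^ i := by
      intro g
      apply Polynomial.aeval_eq_sum_range'
      rw [Matrix.charpoly_natDegree_eq_dim, Fintype.card_fin]
      exact Nat.lt_succ_self n
    simp_rw [h1]
    refine continuous_finsetSum _ fun i _ => ?_
    exact (continuous_coeff _ (cont_mat M l) i).smul ((cont_mat M' l).pow i)
  have hcl : IsClosed {g : Gal F | (aeval (M'.ρ l g : Matrix (Fin n') (Fin n') ℤ_[l])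
      (M.ρ l g : Matrix (Fin n) (Fin n) ℤ_[l]).charpoly) ^ n' = 0} :=
    isClosed_eq (hcont.pow n') continuous_const
  refine dens hFRB (insert l S) _ hcl ?_ g
  intro p 𝔓 k σ hp hpS hover hk hcong
  rw [Finset.mem_insert, not_or] at hpS
  obtain ⟨P, -, hP⟩ := M.pure p hp hpS.2 𝔓 hover k σ hk hcong
  obtain ⟨P', -, hP'⟩ := M'.pure p hp hpS.2 𝔓 hover k σ hk hcong
  have hl : l ≠ p := fun h => hpS.1 h.symm
  have hmon : P'.Monic := by
    apply Polynomial.monic_of_injective (f := Int.castRingHom ℤ_[l]) Int.cast_injective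
    rw [← hP' l hl]
    exact Matrix.charpoly_monic _
  have hdvd : P' ∣ P ^ n' := by
    apply paa_int P P' hmon
    intro c
    obtain ⟨l', hl', hc, hz⟩ := hbad (max c p)
    refine ⟨l', hl', lt_of_le_of_lt (le_max_left _ _) hc, ?_⟩
    have hne : l' ≠ p := (lt_of_le_of_lt (le_max_right _ _) hc).ne'
    have h1 := paa_dvd _ _ (hz σ⁻¹)
    rw [paa_res (M.ρ l') σ⁻¹ P (hP l' hne), paa_res (M'.ρ l') σ⁻¹ P' (hP' l' hne)] at h1
    exact h1
  obtain ⟨R, hR⟩ := hdvd
  change (aeval (M'.ρ l σ⁻¹ : Matrix (Fin n') (Fin n') ℤ_[l])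
      (M.ρ l σ⁻¹ : Matrix (Fin n) (Fin n) ℤ_[l]).charpoly) ^ n' = 0
  rw [← map_pow, hP l hl, ← Polynomial.map_pow, hR, Polynomial.map_mul, map_mul, ← hP' l hl,
    Matrix.aeval_self_charpoly, zero_mul]

/-- a prime `l` at which some homomorphism of the reductions is not zero -/
def PaaBad (M : Mot F S n w h) (M' : Mot F S n' w h') (l : ℕ) [Fact l.Prime] : Prop :=
  (∃ u : Matrix (Fin n') (Fin n) (ZMod l), u ≠ 0 ∧
    ∀ g, u * res (M.ρ l) g = res (M'.ρ l) g * u) ∨
  ∃ u : Matrix (Fin n) (Fin n') (ZMod l), u ≠ 0 ∧ ∀ g, u * res (M'.ρ l) g = res (M.ρ l) g * u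

theorem paa_aeval {K : Type} [Field K] {m k : ℕ} (A : Matrix (Fin m) (Fin m) K)
    (B : Matrix (Fin k) (Fin k) K) (u : Matrix (Fin k) (Fin m) K) (hu : u * A = B * u) (p : K[X]) :
    u * aeval A p = aeval B p * u := by
  induction p using Polynomial.induction_on' with
  | add p q hp hq => rw [map_add, map_add, Matrix.mul_add, Matrix.add_mul, hp, hq]
  | monomial i a =>
    have h1 : ∀ i : ℕ, u * A ^ i = B ^ i * u := by
      intro i
      induction i with
      | zero => rw [pow_zero, pow_zero, Matrix.mul_one, Matrix.one_mul]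
      | succ i ih => rw [pow_succ, ← Matrix.mul_assoc, ih, Matrix.mul_assoc, hu, ← Matrix.mul_assoc,
          ← pow_succ]
    rw [Polynomial.aeval_monomial, Polynomial.aeval_monomial, Algebra.algebraMap_eq_smul_one,
      Algebra.algebraMap_eq_smul_one, smul_one_mul, smul_one_mul, Matrix.mul_smul, h1,
      Matrix.smul_mul]

theorem paa_bad (M : Mot F S n w h) (M' : Mot F S n' w h') (l : ℕ) [Fact l.Prime]
    (hirr : IsIrr (res (M'.ρ l))) (hb : PaaBad M M' l) (g : Gal F) :
    aeval (res (M'.ρ l) g) (res (M.ρ l) g).charpoly = 0 := by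
  rcases hb with ⟨u, h0, hu⟩ | ⟨u, h0, hu⟩
  · have ht := mxp_surj _ _ hirr u hu h0
    have h1 := paa_aeval _ _ u (hu g) (res (M.ρ l) g).charpoly
    rw [Matrix.aeval_self_charpoly, Matrix.mul_zero] at h1
    apply mxp_zero
    intro v
    obtain ⟨x, hx⟩ : v ∈ LinearMap.range u.mulVecLin := by rw [ht]; trivial
    rw [← hx, Matrix.mulVecLin_apply, Matrix.mulVec_mulVec, ← h1, Matrix.zero_mulVec]
  · have ht := mxp_inj _ _ hirr u hu h0
    have h1 := paa_aeval _ _ u (hu g) (res (M.ρ l) g).charpoly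
    rw [Matrix.aeval_self_charpoly, Matrix.zero_mul] at h1
    apply mxp_zero
    intro v
    have hi := LinearMap.ker_eq_bot.1 ht
    apply hi
    rw [Matrix.mulVecLin_apply, Matrix.mulVecLin_apply, Matrix.mulVec_mulVec, h1,
      Matrix.zero_mulVec, Matrix.mulVec_zero]

/-- `M'` is potentially abelian if homomorphisms occur for infinitely many `l` -/
theorem paa_pab (hFRB : ST_FRB) (hCLF : ST_CLF) (hSEM : ST_SEM) (M : Mot F S n w h)
    (M' : Mot F S n' w h') (hM : Pab M) (hM' : Atm M')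
    (hbad : ∀ c : ℕ, ∃ (l : ℕ) (_ : Fact l.Prime), c < l ∧ PaaBad M M' l) : Pab M' := by
  obtain ⟨-, H, hH, hcomm⟩ := hM
  obtain ⟨hirr, c', hc'⟩ := hM'
  obtain ⟨Y, hYn, hYo, hYH⟩ := exists_openNormal F (H : Set (Gal F)) hH H.one_mem
  have hkey := paa_key hFRB M M' (fun c => by
    obtain ⟨l, hl, hcl, hb⟩ := hbad (max c c')
    exact ⟨l, hl, lt_of_le_of_lt (le_max_left _ _) hcl,
      paa_bad M M' l (hc' l (lt_of_le_of_lt (le_max_right _ _) hcl)).1 hb⟩)
  have hss : ∀ (l : ℕ) [Fact l.Prime], IsSS (rat (M'.ρ l)) := fun l _ => atp_ss _ (hirr l)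
  refine ⟨hss, Y, hYo, fun l _ g hg g' hg' => ?_⟩
  set N : Subgroup (Gal F) := ⁅Y, Y⁆ with hN
  have hNn : N.Normal := Subgroup.commutator_normal Y Y
  have hone : ∀ x ∈ N, M.ρ l x = 1 := by
    have h1 : N ≤ (M.ρ l).ker := by
      rw [hN, Subgroup.commutator_le]
      intro a ha b hb
      rw [MonoidHom.mem_ker, map_commutatorElement, commutatorElement_eq_one_iff_mul_comm]
      exact hcomm l a (hYH ha) b (hYH hb)
    intro x hx
    exact h1 hx
  have hnil : ∀ x ∈ N, ((rat (M'.ρ l) x) - 1) ^ (n * n') = 0 := by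
    intro x hx
    have h1 := hkey l x
    rw [hone x hx] at h1
    have h2 : ((1 : Matrix.GeneralLinearGroup (Fin n) ℤ_[l]) :
        Matrix (Fin n) (Fin n) ℤ_[l]).charpoly = (Polynomial.X - 1) ^ n := by
      rw [Units.val_one, Matrix.charpoly_one, Fintype.card_fin]
    rw [h2, map_pow, map_sub, aeval_X, map_one, ← pow_mul] at h1
    have h3 := congrArg (fun A : Matrix (Fin n') (Fin n') ℤ_[l] =>
      (algebraMap ℤ_[l] ℚ_[l]).mapMatrix A) h1
    simp only [map_pow, map_sub, map_one, map_zero] at h3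
    exact h3
  have htr : ∀ x ∈ N, (rat (M'.ρ l) x).trace = (n' : ℚ_[l]) := by
    intro x hx
    have h1 : IsNilpotent ((rat (M'.ρ l) x) - 1) := ⟨_, hnil x hx⟩
    have h2 := (Matrix.isNilpotent_trace_of_isNilpotent h1).eq_zero
    rw [Matrix.trace_sub, Matrix.trace_one, Fintype.card_fin, sub_eq_zero] at h2
    exact h2
  have hssN : IsSS ((rat (M'.ρ l)).comp N.subtype) := hCLF (Gal F) N ℚ_[l] N.subtype n' _
    (by rw [Subgroup.range_subtype]; exact hNn) (hss l)
  have hsst : IsSS (1 : N →* Matrix (Fin n') (Fin n') ℚ_[l]) := by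
    intro m B A hBA
    obtain ⟨⟨C, hC⟩, hA⟩ := hBA
    refine ⟨C, hC, fun g => ?_⟩
    have h1 : A g = 1 := by
      calc A g = C * B * A g := by rw [hC, Matrix.one_mul]
        _ = C * (B * A g) := Matrix.mul_assoc _ _ _
        _ = C * (((1 : N →* Matrix (Fin n') (Fin n') ℚ_[l]) g) * B) := by rw [hA g]
        _ = C * B := by rw [MonoidHom.one_apply, Matrix.one_mul]
        _ = 1 := hC
    rw [h1, MonoidHom.one_apply, Matrix.mul_one, Matrix.one_mul]
  obtain ⟨u, hu⟩ := hSEM N ℚ_[l] n' _ _ hssN hsst (fun x => by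
    rw [MonoidHom.comp_apply, Subgroup.subtype_apply, htr x.1 x.2, MonoidHom.one_apply,
      Matrix.trace_one, Fintype.card_fin])
  have hone' : ∀ x ∈ N, M'.ρ l x = 1 := by
    intro x hx
    have h1 := hu ⟨x, hx⟩
    rw [MonoidHom.comp_apply, Subgroup.subtype_apply, MonoidHom.one_apply, Matrix.one_mul] at h1
    have h2 : rat (M'.ρ l) x = 1 := by
      calc rat (M'.ρ l) x = ((u⁻¹ : Matrix.GeneralLinearGroup (Fin n') ℚ_[l]) :
            Matrix (Fin n') (Fin n') ℚ_[l]) * ((u : Matrix (Fin n') (Fin n') ℚ_[l]) *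
              rat (M'.ρ l) x) := by rw [← Matrix.mul_assoc, Units.inv_mul, Matrix.one_mul]
        _ = 1 := by rw [h1, Units.inv_mul]
    apply Units.ext
    ext i j
    apply FaithfulSMul.algebraMap_injective ℤ_[l] ℚ_[l]
    have h3 := congrFun (congrFun h2 i) j
    have h4 : rat (M'.ρ l) x i j = algebraMap ℤ_[l] ℚ_[l]
      ((M'.ρ l x : Matrix (Fin n') (Fin n') ℤ_[l]) i j) := rfl
    rw [← h4, h3, Units.val_one, Matrix.one_apply, Matrix.one_apply]
    split_ifs <;> simp
  have h5 := hone' ⁅g, g'⁆ (Subgroup.commutator_mem_commutator hg hg')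
  rw [map_commutatorElement, commutatorElement_eq_one_iff_mul_comm] at h5
  exact h5

end

/-- PAA -/
theorem st_PAA (hFRB : MU.ST_FRB) (hPPB : ST_PPB) (hCLF : ST_CLF) (hSEM : ST_SEM) : ST_PAA := by
  intro F _ _ S hS n n' w h h' M M' hM hM'
  by_cases hbad : ∀ c : ℕ, ∃ (l : ℕ) (_ : Fact l.Prime), c < l ∧ PaaBad M M' l
  · have hP := paa_pab hFRB hCLF hSEM M M' hM hM' hbad
    exact ⟨(hPPB F S hS n n' w h h' M M' hM hP).2, (hPPB F S hS n' n w h' h M' M hP hM).2⟩
  · push Not at hbad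
    obtain ⟨c, hc⟩ := hbad
    constructor
    · refine ⟨c, fun l _ hl u hu => ?_⟩
      have hu0 : u = 0 := by
        by_contra h0
        exact hc l ‹_› hl (Or.inl ⟨u, h0, hu⟩)
      refine ⟨0, ?_, fun g => by rw [Matrix.zero_mul, Matrix.mul_zero]⟩
      rw [hu0]
      ext i j
      simp
    · refine ⟨c, fun l _ hl u hu => ?_⟩
      have hu0 : u = 0 := by
        by_contra h0
        exact hc l ‹_› hl (Or.inr ⟨u, h0, hu⟩)
      refine ⟨0, ?_, fun g => by rw [Matrix.zero_mul, Matrix.mul_zero]⟩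
      rw [hu0]
      ext i j
      simp

end REC
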