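import Pool.Agent.Helper57.REC.Stmts4

/-!
# TRK1: Artin's trick for one auxiliary character
-/

set_option autoImplicit false

open scoped Classical
open NumberField

namespace REC

open Pool.Agent.Helper13.ZL (Pl q HasMean)
open MU (Gal Zb Over CongPow cyc)

namespace TRK1

theorem range_le {G : Type} [Group G] (η : G →* ℂˣ) {n : ℕ} (h : η ^ n = 1) :
    η.range ≤ rootsOfUnity n ℂ := by
  rintro _ ⟨g, rfl⟩
  rw [mem_rootsOfUnity]
  have := DFunLike.congr_fun h g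
  simpa using this

theorem finite_range {G : Type} [Group G] (η : G →* ℂˣ) {n : ℕ} (hn : 0 < n) (h : η ^ n = 1) :
    Finite η.range := by
  haveI : NeZero n := ⟨hn.ne'⟩
  exact Finite.of_injective (Subgroup.inclusion (range_le η h))
    (Subgroup.inclusion_injective (range_le η h))

theorem cyc_sub (A : Subgroup ℂˣ) [Finite A] : IsCyclic A :=
  isCyclic_of_subgroup_isDomain ((Units.coeHom ℂ).comp A.subtype)
    (fun x y h => Subtype.ext (Units.ext h))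

theorem exists_gen (A : Subgroup ℂˣ) [Finite A] :
    ∃ z ∈ A, orderOf z = Nat.card A ∧ ∀ w ∈ A, ∃ k : ℕ, w = z ^ k := by
  haveI := cyc_sub A
  obtain ⟨g, hg⟩ := IsCyclic.exists_generator (α := A)
  refine ⟨(g : ℂˣ), g.2, ?_, ?_⟩
  · rw [Subgroup.orderOf_coe]
    exact orderOf_eq_card_of_forall_mem_zpowers hg
  · intro w hw
    have h1 := hg ⟨w, hw⟩
    rw [← mem_powers_iff_mem_zpowers] at h1
    obtain ⟨k, hk⟩ := h1
    refine ⟨k, ?_⟩
    have := congrArg Subtype.val hk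
    simpa using this.symm

theorem sub_le_of_dvd (A B : Subgroup ℂˣ) [Finite A] [Finite B]
    (h : Nat.card A ∣ Nat.card B) : A ≤ B := by
  have hpos : 0 < Nat.card B := Nat.card_pos
  haveI : NeZero (Nat.card B) := ⟨hpos.ne'⟩
  have h1 : B ≤ rootsOfUnity (Nat.card B) ℂ := by
    intro x hx
    rw [mem_rootsOfUnity]
    exact congrArg Subtype.val (pow_card_eq_one' (x := (⟨x, hx⟩ : B)))
  have h2 : B = rootsOfUnity (Nat.card B) ℂ := by
    apply Subgroup.eq_of_le_of_card_ge h1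
    exact card_rootsOfUnity ℂ (Nat.card B)
  intro x hx
  rw [h2, mem_rootsOfUnity]
  have h3 := pow_card_eq_one' (x := (⟨x, hx⟩ : A))
  have h4 : x ^ Nat.card A = 1 := congrArg Subtype.val h3
  obtain ⟨c, hc⟩ := h
  rw [hc, pow_mul, h4, one_pow]

theorem count {G : Type} [CommGroup G] (H H2 : Subgroup G) [Finite H] (h2 : H2 ≤ H) (c : G)
    (hc : c ∈ H) (D M : ℕ) (hcard : Nat.card H ≤ M * D) (hM : M ≤ Nat.card H2)
    (hD : ∀ k : ℕ, c ^ k ∈ H2 → D ∣ k) :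
    ∀ f ∈ H, ∃ h ∈ H2, ∃ i : ℕ, f = h * c ^ i := by
  intro f hf
  let T : H2 × Fin D → H := fun p =>
    ⟨(p.1 : G) * c ^ (p.2 : ℕ), H.mul_mem (h2 p.1.2) (H.pow_mem hc _)⟩
  have key : ∀ (x y : H2) (i j : ℕ), i ≤ j → j < D → (x : G) * c ^ i = (y : G) * c ^ j → i = j := by
    intro x y i j hij hj he
    have h3 : c ^ (j - i) ∈ H2 := by
      have h4 : c ^ (j - i) = (x : G) * (y : G)⁻¹ := by
        have h5 : c ^ j = c ^ (j - i) * c ^ i := by rw [← pow_add, Nat.sub_add_cancel hij]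
        rw [h5, ← mul_assoc] at he
        have h6 := mul_right_cancel he
        rw [h6]
        rw [mul_comm (y : G), mul_assoc, mul_inv_cancel, mul_one]
      rw [h4]
      exact H2.mul_mem x.2 (H2.inv_mem y.2)
    have h7 := hD _ h3
    have h8 : j - i = 0 := Nat.eq_zero_of_dvd_of_lt h7 (by omega)
    omega
  have hinj : Function.Injective T := by
    rintro ⟨x, i⟩ ⟨y, j⟩ he
    have he' : (x : G) * c ^ (i : ℕ) = (y : G) * c ^ (j : ℕ) := congrArg Subtype.val he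
    have hij : (i : ℕ) = j := by
      rcases le_total (i : ℕ) j with h | h
      · exact key x y i j h j.2 he'
      · exact (key y x j i h i.2 he'.symm).symm
    have hij' : i = j := Fin.ext hij
    subst hij'
    have := mul_right_cancel he'
    have : x = y := Subtype.ext this
    rw [this]
  have hle : Nat.card H ≤ Nat.card (H2 × Fin D) := by
    rw [Nat.card_prod, Nat.card_fin]
    exact hcard.trans (Nat.mul_le_mul_right _ hM)
  have hb := Function.Injective.bijective_of_nat_card_le hinj hle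
  obtain ⟨⟨h, i⟩, hh⟩ := hb.2 ⟨f, hf⟩
  exact ⟨h, h.2, i, (congrArg Subtype.val hh).symm⟩

variable {F : Type} [Field F] [NumberField F]

theorem isRay_mono {B : Finset (Pl F)} {N N' : ℕ} (h : N ≤ N') {f : Pl F → ℂˣ}
    (hf : IsRay B N f) : IsRay B N' f :=
  ⟨hf.1, fun x hx => hf.2 x ⟨hx.1, hx.2.1, fun v hv => Ideal.pow_le_pow_right h (hx.2.2 v hv)⟩⟩

theorem inX_mono {B : Finset (Pl F)} {Y Y' : Subgroup (Gal F)} (h : Y' ≤ Y) {f : Pl F → ℂˣ}
    (hf : InX Y B f) : InX Y' B f :=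
  fun v hv 𝔓 ho j σ hc hs => hf v hv 𝔓 ho j σ hc (h hs)

/-- the group `μ` common to the two images -/
theorem inter_card {l a b : ℕ} (hl : l.Prime) (A B : Subgroup ℂˣ) [Finite A] [Finite B]
    (ha : ∀ z ∈ A, z ^ l ^ a = 1) (hb : ∀ z ∈ B, z ^ l ^ b = 1) :
    ∃ z ∈ A, z ∈ B ∧ orderOf z = min (Nat.card A) (Nat.card B) := by
  obtain ⟨x, hxA, hxo, -⟩ := exists_gen A
  obtain ⟨y, hyB, hyo, -⟩ := exists_gen B
  have h1 : Nat.card A ∣ l ^ a := hxo ▸ orderOf_dvd_of_pow_eq_one (ha x hxA)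
  have h2 : Nat.card B ∣ l ^ b := hyo ▸ orderOf_dvd_of_pow_eq_one (hb y hyB)
  obtain ⟨a', -, ha'⟩ := (Nat.dvd_prime_pow hl).1 h1
  obtain ⟨b', -, hb'⟩ := (Nat.dvd_prime_pow hl).1 h2
  rcases le_total a' b' with h | h
  · have h3 : Nat.card A ∣ Nat.card B := by
      rw [ha', hb']
      exact pow_dvd_pow l h
    refine ⟨x, hxA, sub_le_of_dvd A B h3 hxA, ?_⟩
    rw [hxo, min_eq_left (Nat.le_of_dvd Nat.card_pos h3)]
  · have h3 : Nat.card B ∣ Nat.card A := by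
      rw [ha', hb']
      exact pow_dvd_pow l h
    refine ⟨y, sub_le_of_dvd B A h3 hyB, hyB, ?_⟩
    rw [hyo, min_eq_right (Nat.le_of_dvd Nat.card_pos h3)]

end TRK1

open TRK1 in
theorem st_TRK1 (hSND : ST_SND) (hFST : ST_FST) (hXSG : ST_XSG) (hDN1 : ST_DN1)
    (hFRV : ST_FRV) : ST_TRK1 := by
  intro F _ _ l hl χ ψ hχo hψo ⟨a, ha⟩ ⟨b, hb⟩ hind B φψ hUnr hPhi hN0 N f hf
  obtain ⟨N0, hN0⟩ := hN0
  have hla : 0 < l ^ a := pow_pos hl.pos a
  have hlb : 0 < l ^ b := pow_pos hl.pos b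
  haveI hfχ : Finite χ.range := finite_range χ hla ha
  haveI hfψ : Finite ψ.range := finite_range ψ hlb hb
  have hχψ : (χ * ψ) ^ (l ^ a * l ^ b) = 1 := by
    ext1 σ
    have h1 : χ σ ^ l ^ a = 1 := by
      have := DFunLike.congr_fun ha σ
      simpa using this
    have h2 : ψ σ ^ l ^ b = 1 := by
      have := DFunLike.congr_fun hb σ
      simpa using this
    rw [MonoidHom.pow_apply, MonoidHom.mul_apply, MonoidHom.one_apply, mul_pow, pow_mul, h1,
      one_pow, one_mul, mul_comm (l ^ a), pow_mul, h2, one_pow]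
  haveI hfχψ : Finite (χ * ψ).range := finite_range _ (Nat.mul_pos hla hlb) hχψ
  -- `ψ` is unramified outside `B`
  have hUnrψ : ∀ v : Pl F, v ∉ B → Unr ψ v := fun v hv => (hFRV F ℂˣ ψ v).2.1 _ (hPhi.2 v hv)
  -- the common kernel
  have hKo : IsOpen ((χ.ker ⊓ ψ.ker : Subgroup (Gal F)) : Set (Gal F)) := by
    rw [Subgroup.coe_inf]
    exact hχo.inter hψo
  have hK2 : χ.ker ⊓ ψ.ker ≤ (χ * ψ).ker := by
    intro σ hσ
    have h1 : χ σ = 1 := hσ.1
    have h2 : ψ σ = 1 := hσ.2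
    rw [MonoidHom.mem_ker, MonoidHom.mul_apply, h1, h2, one_mul]
  have hK2o : IsOpen (((χ * ψ).ker : Subgroup (Gal F)) : Set (Gal F)) :=
    Subgroup.isOpen_mono hK2 hKo
  -- the first inequality for `χ ψ`
  have hcyc : ∃ g : Gal F, ∀ h : Gal F, ∃ k : ℕ, g ^ k * h ∈ (χ * ψ).ker := by
    obtain ⟨z, ⟨g, hg⟩, -, hz⟩ := exists_gen (χ * ψ).range
    refine ⟨g, fun h => ?_⟩
    obtain ⟨k, hk⟩ := hz (((χ * ψ) h)⁻¹) (inv_mem ⟨h, rfl⟩)
    refine ⟨k, ?_⟩
    rw [MonoidHom.mem_ker, map_mul, map_pow, hg, ← hk, inv_mul_cancel]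
  obtain ⟨N1, -, hN1⟩ := hFST F (χ * ψ).ker inferInstance hK2o hcyc B (by
    intro v hv 𝔓 ho τ hτ
    rw [MonoidHom.mem_ker, MonoidHom.mul_apply, hUnr v hv 𝔓 ho τ hτ, hUnrψ v hv 𝔓 ho τ hτ, one_mul])
  set M := max N (max N0 N1) with hM
  have hMN : N ≤ M := le_max_left _ _
  have hM0 : N0 ≤ M := (le_max_left _ _).trans (le_max_right _ _)
  have hM1 : N1 ≤ M := (le_max_right _ _).trans (le_max_right _ _)
  obtain ⟨H, hH, hHf⟩ := hXSG F (χ.ker ⊓ ψ.ker) B M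
  obtain ⟨H2, hH2, hH2f⟩ := hXSG F (χ * ψ).ker B M
  have hmemH : ∀ g, g ∈ H ↔ g ∈ X (χ.ker ⊓ ψ.ker) B M := fun g => by rw [← hH]; rfl
  have hmemH2 : ∀ g, g ∈ H2 ↔ g ∈ X (χ * ψ).ker B M := fun g => by rw [← hH2]; rfl
  have hH2H : H2 ≤ H := by
    intro g hg
    rw [hmemH]
    rw [hmemH2] at hg
    exact ⟨hg.1, inX_mono hK2 hg.2⟩
  have hφ : φψ ∈ H := by
    rw [hmemH]
    refine ⟨isRay_mono hM0 hN0, ?_⟩
    intro v hv 𝔓 ho j σ hc hs
    rw [← hPhi.2 v hv 𝔓 ho j σ hc]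
    exact hs.2
  have hfH : f ∈ H := by
    rw [hmemH]
    exact ⟨isRay_mono hMN hf.1, inX_mono inf_le_left hf.2⟩
  -- cardinalities
  have hcardH : Nat.card H ≤ Nat.card χ.range * Nat.card ψ.range := by
    have h1 : Nat.card H = (X (χ.ker ⊓ ψ.ker) B M).ncard := by
      rw [← hH]
      exact Nat.card_coe_set_eq (H : Set (Pl F → ℂˣ))
    rw [h1]
    refine (hSND F (χ.ker ⊓ ψ.ker) inferInstance hKo B M).trans ?_
    refine Subgroup.index_inf_le.trans ?_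
    rw [Subgroup.index_ker, Subgroup.index_ker]
  have hcardH2 : max (Nat.card χ.range) (Nat.card ψ.range) ≤ Nat.card H2 := by
    have h1 : Nat.card H2 = (X (χ * ψ).ker B M).ncard := by
      rw [← hH2]
      exact Nat.card_coe_set_eq (H2 : Set (Pl F → ℂˣ))
    rw [h1]
    refine le_trans ?_ (hN1 M hM1)
    rw [Subgroup.index_ker]
    have h2 : χ.range ≤ (χ * ψ).range := by
      rintro _ ⟨σ, rfl⟩
      obtain ⟨g, hg1, hg2⟩ := hind σ 1
      exact ⟨g, by rw [MonoidHom.mul_apply, hg1, hg2, map_one, mul_one]⟩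
    have h3 : ψ.range ≤ (χ * ψ).range := by
      rintro _ ⟨σ, rfl⟩
      obtain ⟨g, hg1, hg2⟩ := hind 1 σ
      exact ⟨g, by rw [MonoidHom.mul_apply, hg1, hg2, map_one, one_mul]⟩
    exact max_le (Subgroup.card_le_of_le h2) (Subgroup.card_le_of_le h3)
  -- powers of `φψ` in `H2`
  have hD : ∀ k : ℕ, φψ ^ k ∈ H2 → min (Nat.card χ.range) (Nat.card ψ.range) ∣ k := by
    intro k hk
    rw [hmemH2] at hk
    obtain ⟨z, hz1, hz2, hz3⟩ := inter_card (a := a) (b := b) hl χ.range ψ.range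
      (fun z hz => (mem_rootsOfUnity _ _).1 (range_le χ ha hz))
      (fun z hz => (mem_rootsOfUnity _ _).1 (range_le ψ hb hz))
    rw [← hz3]
    apply orderOf_dvd_of_pow_eq_one
    have hY : (χ * ψ).ker ⊓ (ψ ^ k).ker = (χ * ψ).ker := by
      apply hDN1 F _ _ inferInstance inferInstance ?_ hK2o inf_le_left B
      · intro v hv hs
        obtain ⟨𝔓, ho, hi, σ, hσ, hc⟩ := hs
        refine ⟨𝔓, ho, ?_, σ, ⟨hσ, ?_⟩, hc⟩
        · intro τ hτ
          refine ⟨hi τ hτ, ?_⟩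
          change (ψ ^ k) τ = 1
          rw [MonoidHom.pow_apply, hUnrψ v hv 𝔓 ho τ hτ, one_pow]
        · have hc1 : CongPow 𝔓 (q v ^ 1) σ := by rwa [pow_one]
          have h1 := hk.2 v hv 𝔓 ho 1 σ hc1 hσ
          rw [pow_one, Pi.pow_apply] at h1
          have h2 := hPhi.2 v hv 𝔓 ho 1 σ hc1
          rw [pow_one] at h2
          change (ψ ^ k) σ = 1
          rw [MonoidHom.pow_apply, h2, h1]
      · refine Subgroup.isOpen_mono (H₁ := χ.ker ⊓ ψ.ker) (le_inf hK2 ?_) hKo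
        intro σ hσ
        have h2 : ψ σ = 1 := hσ.2
        rw [MonoidHom.mem_ker, MonoidHom.pow_apply, h2, one_pow]
    obtain ⟨σ, hσ⟩ := inv_mem hz1
    obtain ⟨τ, hτ⟩ := hz2
    obtain ⟨g, hg1, hg2⟩ := hind σ τ
    have hg : g ∈ (χ * ψ).ker := by
      rw [MonoidHom.mem_ker, MonoidHom.mul_apply, hg1, hg2, hσ, hτ, inv_mul_cancel]
    rw [← hY] at hg
    have h5 : (ψ ^ k) g = 1 := hg.2
    rw [MonoidHom.pow_apply, hg2, hτ] at h5
    exact h5
  obtain ⟨h, hh, i, hi⟩ := count H H2 hH2H φψ hφ _ (max (Nat.card χ.range) (Nat.card ψ.range))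
    (by rw [max_mul_min]; exact hcardH) hcardH2 hD f hfH
  rw [hmemH2] at hh
  refine ⟨i * (l ^ a - 1), ?_⟩
  intro v hv 𝔓 ho j σ hc hs
  have h1 := hh.2 v hv 𝔓 ho j σ hc (by rw [MonoidHom.mem_ker, MonoidHom.mul_apply, hs])
  have h2 : φψ v ^ j = ψ σ := (hPhi.2 v hv 𝔓 ho j σ hc).symm
  have h3 : f v ^ j = ψ σ ^ i := by
    rw [hi, Pi.mul_apply, Pi.pow_apply, mul_pow, h1, one_mul, ← pow_mul, mul_comm i j, pow_mul, h2]
  have h4 : ψ σ = (χ σ)⁻¹ := by
    rw [eq_comm, inv_eq_iff_mul_eq_one]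
    exact hs
  have h5 : χ σ ^ l ^ a = 1 := by
    have := DFunLike.congr_fun ha σ
    simpa using this
  rw [h3, h4, inv_pow, inv_eq_iff_mul_eq_one, ← pow_add]
  have h6 : i + i * (l ^ a - 1) = l ^ a * i := by
    obtain ⟨c, hc⟩ : ∃ c, l ^ a = c + 1 := ⟨l ^ a - 1, by omega⟩
    rw [hc]
    simp only [Nat.add_sub_cancel]
    ring
  rw [h6, pow_mul, h5, one_pow]

end REC
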