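import Pool.Agent.Helper57.REC.StmtsX
import Pool.Agent.Helper8.REC.PAA

/-!
# REC, part 12X: row XAC
-/

set_option autoImplicit false
set_option maxHeartbeats 800000

open scoped Classical
open NumberField Polynomial
open scoped commutatorElement

namespace REC

open Pool.Agent.Helper13.ZL (Pl q)
open MU

/-- XAC -/
theorem st_XAC (hCLF : ST_CLF) (hSEM : ST_SEM) : ST_XAC := by
  intro F L _ _ _ _ n k m b ρ hdcp hstb hss Y hY hnil l _ g hg g' hg'
  obtain ⟨-, N₀, hN₀, hbN, hsum⟩ := hdcp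
  set N : Subgroup (Gal F) := ⁅Y, Y⁆ with hN
  have hNn : N.Normal := Subgroup.commutator_normal Y Y
  -- the field
  let Ω : Type := AlgebraicClosure ℚ_[l]
  have : CharZero Ω := charZero_of_injective_algebraMap (algebraMap ℚ_[l] Ω).injective
  let ϑ : ℤ_[l] →+* Ω := (algebraMap ℚ_[l] Ω).comp (algebraMap ℤ_[l] ℚ_[l])
  let _ : Algebra ℚ Ω := DivisionRing.toRatAlgebra
  let ι₀ : L →ₐ[ℚ] Ω := IsAlgClosed.lift
  let ι : 𝓞 L →+* Ω := (ι₀ : L →+* Ω).comp (algebraMap (𝓞 L) L)
  have hNΩ : (N₀ : Ω) ≠ 0 := by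
    exact_mod_cast hN₀.ne'
  have hex : ∀ i, ∃ R : Gal F →* Matrix (Fin (m i)) (Fin (m i)) Ω, (b i).At (ρ l) ϑ ι R := by
    intro i
    apply hstb i l Ω ϑ ι
    rw [hbN i]
    exact hNΩ
  choose R hR using hex
  have hmap : ∀ x : Gal F, (rat (ρ l) x).map (algebraMap ℚ_[l] Ω) =
      (ρ l x : Matrix (Fin n) (Fin n) ℤ_[l]).map ϑ := fun x => rfl
  have hnilx : ∀ x ∈ N, IsNilpotent (rat (ρ l) x - 1) := by
    intro x hx
    have h1 : ∀ i, ∃ e : ℕ, (R i x - 1) ^ e = 0 := fun i => hnil i l Ω ϑ ι (R i) (hR i) x hx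
    choose e he using h1
    set A : Matrix (Fin n) (Fin n) Ω := (ρ l x : Matrix (Fin n) (Fin n) ℤ_[l]).map ϑ with hA
    have h2 : ∀ (i : Fin k) (j : ℕ), (b i).P.map ι * (A - 1) ^ j =
        (R i x - 1) ^ j * (b i).P.map ι := by
      intro i j
      induction j with
      | zero => rw [pow_zero, pow_zero, Matrix.mul_one, Matrix.one_mul]
      | succ j ih =>
        have h3 : (b i).P.map ι * (A - 1) = (R i x - 1) * (b i).P.map ι := by
          rw [Matrix.mul_sub, Matrix.sub_mul, Matrix.mul_one, Matrix.one_mul, hA, (hR i).2 x]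
        rw [pow_succ, ← Matrix.mul_assoc, ih, Matrix.mul_assoc, h3, ← Matrix.mul_assoc,
          ← pow_succ]
    set K : ℕ := ∑ i, e i with hK
    have h3 : ∀ i, (b i).P.map ι * (A - 1) ^ K = 0 := by
      intro i
      rw [h2 i K]
      have h4 : e i ≤ K := Finset.single_le_sum (fun j _ => Nat.zero_le (e j)) (Finset.mem_univ i)
      rw [← Nat.sub_add_cancel h4, pow_add, he i, mul_zero, Matrix.zero_mul]
    have h4 : (∑ i, (b i).Q * (b i).P).map ι * (A - 1) ^ K = 0 := by
      have h5 : ∀ X : Matrix (Fin n) (Fin n) (𝓞 L), X.map ι = ι.mapMatrix X := fun X => rfl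
      rw [h5, map_sum, Finset.sum_mul]
      apply Finset.sum_eq_zero
      intro i _
      rw [← h5, Matrix.map_mul, Matrix.mul_assoc, h3 i, Matrix.mul_zero]
    rw [hsum, Matrix.map_smul' _ _ _ (map_mul _), map_natCast,
      Matrix.map_one _ (map_zero _) (map_one _), Matrix.smul_mul, Matrix.one_mul,
      smul_eq_zero] at h4
    have h5 : (A - 1) ^ K = 0 := h4.resolve_left hNΩ
    refine ⟨K, ?_⟩
    have h6 : ((algebraMap ℚ_[l] Ω).mapMatrix ((rat (ρ l) x - 1) ^ K)) = 0 := by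
      rw [map_pow, map_sub, map_one]
      exact h5
    ext i j
    have h7 := congrFun (congrFun h6 i) j
    rw [RingHom.mapMatrix_apply, Matrix.map_apply, Matrix.zero_apply] at h7
    rw [Matrix.zero_apply]
    exact (map_eq_zero _).1 h7
  have htr : ∀ x ∈ N, (rat (ρ l) x).trace = (n : ℚ_[l]) := by
    intro x hx
    have h2 := (Matrix.isNilpotent_trace_of_isNilpotent (hnilx x hx)).eq_zero
    rw [Matrix.trace_sub, Matrix.trace_one, Fintype.card_fin, sub_eq_zero] at h2
    exact h2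
  have hssN : IsSS ((rat (ρ l)).comp N.subtype) := hCLF (Gal F) N ℚ_[l] N.subtype n _
    (by rw [Subgroup.range_subtype]; exact hNn) (hss l)
  have hsst : IsSS (1 : N →* Matrix (Fin n) (Fin n) ℚ_[l]) := by
    intro m B A hBA
    obtain ⟨⟨C, hC⟩, hA⟩ := hBA
    refine ⟨C, hC, fun g => ?_⟩
    have h1 : A g = 1 := by
      calc A g = C * B * A g := by rw [hC, Matrix.one_mul]
        _ = C * (B * A g) := Matrix.mul_assoc _ _ _
        _ = C * (((1 : N →* Matrix (Fin n) (Fin n) ℚ_[l]) g) * B) := by rw [hA g]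
        _ = C * B := by rw [MonoidHom.one_apply, Matrix.one_mul]
        _ = 1 := hC
    rw [h1, MonoidHom.one_apply, Matrix.mul_one, Matrix.one_mul]
  obtain ⟨u, hu⟩ := hSEM N ℚ_[l] n _ _ hssN hsst (fun x => by
    rw [MonoidHom.comp_apply, Subgroup.subtype_apply, htr x.1 x.2, MonoidHom.one_apply,
      Matrix.trace_one, Fintype.card_fin])
  have hone' : ∀ x ∈ N, ρ l x = 1 := by
    intro x hx
    have h1 := hu ⟨x, hx⟩
    rw [MonoidHom.comp_apply, Subgroup.subtype_apply, MonoidHom.one_apply, Matrix.one_mul] at h1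
    have h2 : rat (ρ l) x = 1 := by
      calc rat (ρ l) x = ((u⁻¹ : Matrix.GeneralLinearGroup (Fin n) ℚ_[l]) :
            Matrix (Fin n) (Fin n) ℚ_[l]) * ((u : Matrix (Fin n) (Fin n) ℚ_[l]) *
              rat (ρ l) x) := by rw [← Matrix.mul_assoc, Units.inv_mul, Matrix.one_mul]
        _ = 1 := by rw [h1, Units.inv_mul]
    apply Units.ext
    ext i j
    apply FaithfulSMul.algebraMap_injective ℤ_[l] ℚ_[l]
    have h3 := congrFun (congrFun h2 i) j
    have h4 : rat (ρ l) x i j = algebraMap ℤ_[l] ℚ_[l]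
      ((ρ l x : Matrix (Fin n) (Fin n) ℤ_[l]) i j) := rfl
    rw [← h4, h3, Units.val_one, Matrix.one_apply, Matrix.one_apply]
    split_ifs <;> simp
  have h5 := hone' ⁅g, g'⁆ (Subgroup.commutator_mem_commutator hg hg')
  rw [map_commutatorElement, commutatorElement_eq_one_iff_mul_comm] at h5
  exact h5

end REC
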