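import Pool.Agent.Helper57.REC.StmtsX
import Pool.Agent.Helper8.REC.PAA

/-!
# REC, part 12X: row XDV
-/

set_option autoImplicit false
set_option maxHeartbeats 800000

open scoped Classical
open NumberField Polynomial

namespace REC

open Pool.Agent.Helper13.ZL (Pl q)
open MU

/-- maps from rings of integers to fields of characteristic zero are injective -/
theorem xdv_inj {L Ω : Type} [Field L] [NumberField L] [Field Ω] [CharZero Ω] (ι : 𝓞 L →+* Ω) :
    Function.Injective ι := by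
  rw [injective_iff_map_eq_zero]
  intro x hx
  by_contra h0
  have h1 : Ideal.span {x} ≠ ⊥ := by rwa [Ne, Ideal.span_singleton_eq_bot]
  have h2 : ((Ideal.absNorm (Ideal.span {x}) : ℕ) : 𝓞 L) ∈ Ideal.span {x} := Ideal.absNorm_mem _
  obtain ⟨y, hy⟩ := Ideal.mem_span_singleton'.1 h2
  have h3 := congrArg ι hy
  rw [map_mul, hx, mul_zero, map_natCast] at h3
  have h4 : Ideal.absNorm (Ideal.span {x}) = 0 := by exact_mod_cast h3.symm
  exact h1 (Ideal.absNorm_eq_zero_iff.1 h4)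

/-- an algebraic integer which is zero in fields of infinitely many characteristics -/
theorem xdv_zero {L : Type} [Field L] [NumberField L] (z : 𝓞 L)
    (h : ∀ c : ℕ, ∃ (l : ℕ) (_ : Fact l.Prime), c < l ∧ ∃ (Ω : Type) (_ : Field Ω) (ι : 𝓞 L →+* Ω),
      (l : Ω) = 0 ∧ ι z = 0) : z = 0 := by
  by_contra h0
  have h1 : Ideal.span {z} ≠ ⊥ := by rwa [Ne, Ideal.span_singleton_eq_bot]
  have h2 : ((Ideal.absNorm (Ideal.span {z}) : ℕ) : 𝓞 L) ∈ Ideal.span {z} := Ideal.absNorm_mem _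
  obtain ⟨y, hy⟩ := Ideal.mem_span_singleton'.1 h2
  obtain ⟨l, hl, hc, Ω, _, ι, hl0, hz⟩ := h (Ideal.absNorm (Ideal.span {z}))
  have h3 := congrArg ι hy
  rw [map_mul, hz, mul_zero, map_natCast] at h3
  have : CharP Ω l := by
    refine (CharP.charP_iff_prime_eq_zero hl.out).2 hl0
  have h4 : l ∣ Ideal.absNorm (Ideal.span {z}) := (CharP.cast_eq_zero_iff Ω l _).1 h3.symm
  have h5 : Ideal.absNorm (Ideal.span {z}) ≠ 0 := fun h => h1 (Ideal.absNorm_eq_zero_iff.1 h)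
  exact absurd (Nat.le_of_dvd (Nat.pos_of_ne_zero h5) h4) (not_le.2 hc)

/-- divisibility modulo infinitely many primes -/
theorem xdv_dvd {L : Type} [Field L] [NumberField L] (P P' : (𝓞 L)[X]) (hP' : P'.Monic) (N : ℕ)
    (h : ∀ c : ℕ, ∃ (l : ℕ) (_ : Fact l.Prime), c < l ∧ ∃ (Ω : Type) (_ : Field Ω)
      (ι : 𝓞 L →+* Ω), (l : Ω) = 0 ∧ P'.map ι ∣ (P.map ι) ^ N) : P' ∣ P ^ N := by
  rw [← Polynomial.modByMonic_eq_zero_iff_dvd hP']
  ext i
  rw [coeff_zero]
  congr 1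
  apply xdv_zero
  intro c
  obtain ⟨l, hl, hcl, Ω, _, ι, h0, hd⟩ := h c
  refine ⟨l, hl, hcl, Ω, _, ι, h0, ?_⟩
  have h1 : ((P ^ N) %ₘ P').map ι = 0 := by
    rw [Polynomial.map_modByMonic _ hP', Polynomial.map_pow,
      (Polynomial.modByMonic_eq_zero_iff_dvd (hP'.map _)).2 hd]
  have h2 := congrArg (fun q => Polynomial.coeff q i) h1
  simp only [coeff_map, coeff_zero] at h2
  exact h2

section

variable {n m : ℕ} {L : Type} [Field L] [NumberField L]

/-- the representation on a summand is determined by the representation -/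
theorem xdv_at (b : Blo n m L) {G : Type} [Group G] {l : ℕ} [Fact l.Prime] {Ω : Type} [Field Ω]
    (r : G →* Matrix.GeneralLinearGroup (Fin n) ℤ_[l]) (ϑ : ℤ_[l] →+* Ω) (ι : 𝓞 L →+* Ω)
    (R : G →* Matrix (Fin m) (Fin m) Ω) (h : b.At r ϑ ι R) (g : G) :
    R g = (b.N : Ω)⁻¹ • (b.P.map ι * (r g : Matrix (Fin n) (Fin n) ℤ_[l]).map ϑ * b.Q.map ι) := by
  obtain ⟨h0, h⟩ := h
  have h1 : b.P.map ι * b.Q.map ι = (b.N : Ω) • (1 : Matrix (Fin m) (Fin m) Ω) := by
    rw [← Matrix.map_mul, b.PQ, Matrix.map_smul' _ _ _ (map_mul _), map_natCast,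
      Matrix.map_one _ (map_zero _) (map_one _)]
  rw [h g, Matrix.mul_assoc, h1, Matrix.mul_smul, Matrix.mul_one, smul_smul, inv_mul_cancel₀ h0,
    one_smul]

end

/-- the generic matrix -/
noncomputable def xdvX (n : ℕ) (Ω : Type) [Field Ω] :
    Matrix (Fin n) (Fin n) (MvPolynomial (Fin n × Fin n) Ω) :=
  Matrix.of fun i j => MvPolynomial.X (i, j)

/-- the representation on a summand of the generic matrix -/
noncomputable def xdvG {n k : ℕ} {L : Type} [Field L] [NumberField L] (Ω : Type) [Field Ω]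
    (a : Blo n k L) (ι₁ : 𝓞 L →+* Ω) : Matrix (Fin k) (Fin k) (MvPolynomial (Fin n × Fin n) Ω) :=
  (MvPolynomial.C (a.N : Ω)⁻¹ : MvPolynomial (Fin n × Fin n) Ω) •
    ((a.P.map (MvPolynomial.C.comp ι₁) : Matrix (Fin k) (Fin n) (MvPolynomial (Fin n × Fin n) Ω)) *
      xdvX n Ω *
      (a.Q.map (MvPolynomial.C.comp ι₁) : Matrix (Fin n) (Fin k) (MvPolynomial (Fin n × Fin n) Ω)))

/-- XDV -/
theorem st_XDV (hXDN : ST_XDN) : ST_XDV := by
  intro F L _ _ _ _ n m m' b b' γ S ρ hcont hC hC' hbad l _ Ω _ _ ϑ ι R R' hR hR' g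
  set γ' : 𝓞 L →+* 𝓞 L := RingOfIntegers.mapRingHom γ with hγ'
  -- the generic matrices
  let ev : Gal F → MvPolynomial (Fin n × Fin n) Ω →+* Ω := fun g =>
    MvPolynomial.eval (fun i => ϑ ((ρ l g : Matrix (Fin n) (Fin n) ℤ_[l]) i.1 i.2))
  have hgen : ∀ (k : ℕ) (a : Blo n k L) (ι₁ : 𝓞 L →+* Ω) (R₁ : Gal F →* Matrix (Fin k) (Fin k) Ω),
      a.At (ρ l) ϑ ι₁ R₁ → ∀ g, (xdvG Ω a ι₁).map (ev g) = R₁ g := by
    intro k a ι₁ R₁ h₁ g
    unfold xdvG
    rw [xdv_at a (ρ l) ϑ ι₁ R₁ h₁ g, Matrix.map_smul' _ _ _ (map_mul _), Matrix.map_mul,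
      Matrix.map_mul, Matrix.map_map, Matrix.map_map]
    have e1 : (ev g) (MvPolynomial.C (a.N : Ω)⁻¹) = (a.N : Ω)⁻¹ := MvPolynomial.eval_C _
    have e2 : (ev g) ∘ (MvPolynomial.C.comp ι₁) = ι₁ := by
      funext x
      exact MvPolynomial.eval_C _
    have e3 : (xdvX n Ω).map (ev g) = (ρ l g : Matrix (Fin n) (Fin n) ℤ_[l]).map ϑ := by
      ext i j
      exact MvPolynomial.eval_X _
    rw [e1, e2, e3]
  set T : Matrix (Fin m') (Fin m') (MvPolynomial (Fin n × Fin n) Ω) :=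
    (aeval (xdvG Ω b' ι) (xdvG Ω b (ι.comp γ')).charpoly) ^ m' with hT
  have hTe : ∀ g, T.map (ev g) = (aeval (R' g) (R g).charpoly) ^ m' := by
    intro g
    have h1 : T.map (ev g) = (ev g).mapMatrix T := rfl
    rw [h1, hT, map_pow]
    congr 1
    rw [Polynomial.map_aeval_eq_aeval_map (R := MvPolynomial (Fin n × Fin n) Ω) (T := Ω)
      (φ := ev g) (ψ := ((ev g).mapMatrix : Matrix (Fin m') (Fin m') _ →+* _)) (by
        ext x i j
        · simp only [RingHom.comp_apply, Matrix.algebraMap_matrix_apply, RingHom.mapMatrix_apply,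
            Matrix.map_apply]
          split_ifs <;> simp
        · simp only [RingHom.comp_apply, Matrix.algebraMap_matrix_apply, RingHom.mapMatrix_apply,
            Matrix.map_apply]
          split_ifs <;> simp)]
    rw [← Matrix.charpoly_map, hgen m b (ι.comp γ') R hR g, RingHom.mapMatrix_apply,
      hgen m' b' ι R' hR' g]
  rw [← hTe g]
  ext i j
  rw [Matrix.map_apply, Matrix.zero_apply]
  refine hXDN F n l (ρ l) (hcont l) Ω ϑ (T i j) (insert l S) ?_ g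
  intro p 𝔓 k σ hp hpS hover hk hcong
  rw [Finset.mem_insert, not_or] at hpS
  have h2 : (T.map (ev σ⁻¹)) i j = 0 := by
    rw [hTe]
    obtain ⟨Φ, hΦ⟩ := hC p hp hpS.2 𝔓 hover k σ hk hcong
    obtain ⟨Φ', hΦ'⟩ := hC' p hp hpS.2 𝔓 hover k σ hk hcong
    have hl : l ≠ p := fun h => hpS.1 h.symm
    have e1 := hΦ l hl Ω ϑ (ι.comp γ') R hR
    have e2 := hΦ' l hl Ω ϑ ι R' hR'
    rw [← Polynomial.map_map] at e1
    have hmon : Φ'.Monic := by
      apply Polynomial.monic_of_injective (xdv_inj ι)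
      rw [← e2]
      exact Matrix.charpoly_monic _
    have hdvd : Φ' ∣ (Φ.map γ') ^ m' := by
      apply xdv_dvd _ _ hmon
      intro c
      obtain ⟨l', hl', hc, Ω', _, ϑ', ι', R₁, R₁', h0, hR₁, hR₁', hz⟩ := hbad (max c p)
      refine ⟨l', hl', lt_of_le_of_lt (le_max_left _ _) hc, Ω', _, ι', h0, ?_⟩
      have hne : l' ≠ p := (lt_of_le_of_lt (le_max_right _ _) hc).ne'
      have h1 := paa_dvd _ _ (hz σ⁻¹)
      rw [hΦ l' hne Ω' ϑ' (ι'.comp γ') R₁ hR₁, hΦ' l' hne Ω' ϑ' ι' R₁' hR₁',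
        ← Polynomial.map_map] at h1
      exact h1
    obtain ⟨D, hD⟩ := hdvd
    rw [← map_pow, e1, ← Polynomial.map_pow, hD, Polynomial.map_mul, map_mul, ← e2,
      Matrix.aeval_self_charpoly, zero_mul, Matrix.zero_apply]
  exact h2

end REC
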