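import Pool.Agent.Helper57.REC.Stmts6b
import Pool.Agent.Helper17.REC.IRB

/-!
# REC, CMC: semisimple motives of rank two are irreducible or commutative
-/

set_option autoImplicit false
set_option maxHeartbeats 800000

open scoped Classical
open NumberField Polynomial

namespace REC

open Pool.Agent.Helper13.ZL (Pl q)
open MU

section

variable {F : Type} [Field F] [NumberField F] {S : Finset ℕ} {w : ℕ} {h : Fin 2 → ℕ}

/-- TRP for the equation `tr ^ 2 = 4 det` -/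
theorem cmc_sc (hTRP : ST_TRP) (hS : ∀ p ∈ S, p.Prime) (M : Mot F S 2 w h) (U : Set (Gal F))
    (hU : IsOpen U) (l₀ l : ℕ) [Fact l₀.Prime] [Fact l.Prime]
    (h0 : ∀ σ ∈ U, (rat (M.ρ l₀) σ).trace ^ 2 = 4 * (rat (M.ρ l₀) σ).det) :
    ∀ σ ∈ U, (rat (M.ρ l) σ).trace ^ 2 = 4 * (rat (M.ρ l) σ).det := by
  intro σ hσ
  have h1 := hTRP F S hS 2 w h M U hU
    (MvPolynomial.X 1 ^ 2 - 4 * MvPolynomial.X 0) l₀ l (by
    intro σ hσ
    have h2 := h0 σ hσ
    rw [(irb_rat _ _).1, (irb_rat _ _).2] at h2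
    have h3 : Function.Injective (algebraMap ℤ_[l₀] ℚ_[l₀]) :=
      FaithfulSMul.algebraMap_injective _ _
    rw [map_sub, map_mul, map_pow, MvPolynomial.aeval_X, MvPolynomial.aeval_X,
      (irb_coeff _).1, (irb_coeff _).2]
    apply h3
    have h5 : (MvPolynomial.aeval fun i => (((M.ρ l₀ σ :
        Matrix.GeneralLinearGroup (Fin 2) ℤ_[l₀]) :
        Matrix (Fin 2) (Fin 2) ℤ_[l₀]).charpoly.coeff i)) (4 : MvPolynomial ℕ ℤ) = 4 :=
      map_ofNat _ 4
    rw [h5, map_sub, map_mul, map_pow, map_neg, map_zero, map_ofNat]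
    linear_combination h2)
  have h5 := h1 σ hσ
  have h6 : (MvPolynomial.aeval fun i => (((M.ρ l σ :
      Matrix.GeneralLinearGroup (Fin 2) ℤ_[l]) :
      Matrix (Fin 2) (Fin 2) ℤ_[l]).charpoly.coeff i)) (4 : MvPolynomial ℕ ℤ) = 4 :=
    map_ofNat _ 4
  rw [map_sub, map_mul, map_pow, MvPolynomial.aeval_X, MvPolynomial.aeval_X,
    (irb_coeff _).1, (irb_coeff _).2, h6] at h5
  have h7 := congrArg (algebraMap ℤ_[l] ℚ_[l]) h5
  rw [map_sub, map_mul, map_pow, map_neg, map_zero, map_ofNat, ← (irb_rat _ _).1,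
    ← (irb_rat _ _).2] at h7
  linear_combination h7

/-- TRP for the equation `tr = 0` -/
theorem cmc_tr (hTRP : ST_TRP) (hS : ∀ p ∈ S, p.Prime) (M : Mot F S 2 w h) (U : Set (Gal F))
    (hU : IsOpen U) (l₀ l : ℕ) [Fact l₀.Prime] [Fact l.Prime]
    (h0 : ∀ σ ∈ U, (rat (M.ρ l₀) σ).trace = 0) :
    ∀ σ ∈ U, (rat (M.ρ l) σ).trace = 0 := by
  intro σ hσ
  have h1 := hTRP F S hS 2 w h M U hU (MvPolynomial.X 1) l₀ l (by
    intro σ hσ
    rw [MvPolynomial.aeval_X, (irb_coeff _).1]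
    have h2 := h0 σ hσ
    rw [(irb_rat _ _).1] at h2
    have h3 : Function.Injective (algebraMap ℤ_[l₀] ℚ_[l₀]) :=
      FaithfulSMul.algebraMap_injective _ _
    rw [h3 (h2.trans (map_zero _).symm), neg_zero])
  have h5 := h1 σ hσ
  rw [MvPolynomial.aeval_X, (irb_coeff _).1, neg_eq_zero] at h5
  rw [(irb_rat _ _).1, h5, map_zero]

end

/-- an integral line stable under `H` gives a rational stable line -/
theorem cmc_line {Γ : Type} [Group Γ] (l : ℕ) [Fact l.Prime]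
    (r : Γ →* Matrix.GeneralLinearGroup (Fin 2) ℤ_[l]) (H : Subgroup Γ) (u : Fin 2 → ℤ_[l])
    (hu0 : u ≠ 0) (hu : ∀ g ∈ H, u 0 * (r g : Matrix (Fin 2) (Fin 2) ℤ_[l]).mulVec u 1 =
      u 1 * (r g : Matrix (Fin 2) (Fin 2) ℤ_[l]).mulVec u 0) :
    ∃ (B : Matrix (Fin 2) (Fin 1) ℚ_[l]) (A : H → Matrix (Fin 1) (Fin 1) ℚ_[l]),
      IsSub ((rat r).comp H.subtype) B A := by
  obtain ⟨i₀, hi₀⟩ : ∃ i, u i ≠ 0 := by
    by_contra hcon
    push Not at hcon
    exact hu0 (funext hcon)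
  set a : ℤ_[l] →+* ℚ_[l] := algebraMap ℤ_[l] ℚ_[l] with ha
  have hinj : Function.Injective a := FaithfulSMul.algebraMap_injective ℤ_[l] ℚ_[l]
  have hi₀' : a (u i₀) ≠ 0 := fun h0 => hi₀ (hinj (by rw [h0, map_zero]))
  refine ⟨Matrix.of fun i _ => a (u i), fun g => Matrix.of fun _ _ =>
    a ((r (g : Γ) : Matrix (Fin 2) (Fin 2) ℤ_[l]).mulVec u i₀) / a (u i₀),
    ⟨Matrix.of fun _ j => if j = i₀ then (a (u i₀))⁻¹ else 0, ?_⟩, fun g => ?_⟩
  · ext c b
    have hc : c = 0 := Subsingleton.elim _ _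
    have hb : b = 0 := Subsingleton.elim _ _
    subst hc hb
    rw [Matrix.mul_apply, Finset.sum_eq_single i₀]
    · rw [Matrix.of_apply, Matrix.of_apply, if_pos rfl, inv_mul_cancel₀ hi₀', Matrix.one_apply_eq]
    · intro b _ hb
      rw [Matrix.of_apply, if_neg hb, zero_mul]
    · intro h
      exact absurd (Finset.mem_univ _) h
  · ext i b
    have h1 : ((rat r).comp H.subtype g * Matrix.of fun i _ => a (u i)) i b =
        a ((r (g : Γ) : Matrix (Fin 2) (Fin 2) ℤ_[l]).mulVec u i) := by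
      rw [Matrix.mul_apply, Matrix.mulVec, dotProduct, map_sum]
      refine Finset.sum_congr rfl fun j _ => ?_
      rw [map_mul]
      rfl
    rw [h1, Matrix.mul_apply, Fin.sum_univ_one, Matrix.of_apply]
    change _ = a (u i) * (a ((r (g : Γ) : Matrix (Fin 2) (Fin 2) ℤ_[l]).mulVec u i₀) /
      a (u i₀))
    rw [mul_div_assoc', eq_div_iff hi₀', ← map_mul, ← map_mul]
    congr 1
    have h3 := hu g g.2
    have h4 : ∀ i j, (r (g : Γ) : Matrix (Fin 2) (Fin 2) ℤ_[l]).mulVec u i * u j =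
        u i * (r (g : Γ) : Matrix (Fin 2) (Fin 2) ℤ_[l]).mulVec u j := by
      intro i j
      fin_cases i <;> fin_cases j
      · exact mul_comm _ _
      · exact (mul_comm _ _).trans h3.symm
      · exact (mul_comm _ _).trans h3
      · exact mul_comm _ _
    exact h4 i i₀

/-- CMC -/
theorem st_CMC (hLLN : ST_LLN) (hRELK : ST_RELK) (hPT2 : ST_PT2) (hGLD : ST_GLD)
    (hCMG : ST_CMG) (hTRP : ST_TRP) (hINF : ST_INF) : ST_CMC := by
  intro F _ _ S hS w h M hh hss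
  by_cases hirr : ∀ (l : ℕ) [Fact l.Prime], IsIrr (rat (M.ρ l))
  · exact Or.inl hirr
  right
  push Not at hirr
  obtain ⟨l₁, hl₁, hir⟩ := hirr
  unfold IsIrr at hir
  push Not at hir
  obtain ⟨m, B, A, hBA, hm0, hm2⟩ := hir
  obtain ⟨C, hC⟩ := hBA.1
  have hm := ir_dim B C hC
  obtain rfl : m = 1 := by omega
  obtain ⟨L, _, _, _, hL⟩ := ir_gal F
  obtain ⟨e₀, he₀⟩ := hLLN F S hS 2 w h M l₁ B A hBA
  obtain ⟨e, he⟩ := hRELK F L S hS 2 w h M l₁ e₀ he₀
  obtain ⟨d, N, hd, hN, hsq⟩ := hPT2 F L S hS w h M e hh he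
  -- (a) two different characters on every open subgroup
  have ha : ∀ H : Subgroup (Gal F), IsOpen (H : Set (Gal F)) →
      ∃ σ ∈ H, (rat (M.ρ l₁) σ).trace ^ 2 ≠ 4 * (rat (M.ρ l₁) σ).det :=
    fun H hH => hINF F S hS w h M hh l₁ B A hBA H hH
  -- (b) the same for all `l`
  have hb : ∀ (l : ℕ) [Fact l.Prime] (H : Subgroup (Gal F)), IsOpen (H : Set (Gal F)) →
      ∃ σ ∈ H, (rat (M.ρ l) σ).trace ^ 2 ≠ 4 * (rat (M.ρ l) σ).det := by
    intro l _ H hH
    by_contra hcon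
    push Not at hcon
    obtain ⟨σ, hσ, hne⟩ := ha H hH
    exact hne (cmc_sc hTRP hS M H hH l l₁ hcon σ hσ)
  -- (c) no induced representations
  have hc : ∀ (l : ℕ) [Fact l.Prime] (G' : Subgroup (Gal F)), IsOpen (G' : Set (Gal F)) →
      G' ≠ ⊤ → ¬ ∀ g : Gal F, g ∉ G' → (rat (M.ρ l) g).trace = 0 := by
    intro l _ G' hG' hne htr
    have hG'c : IsOpen ((G' : Set (Gal F))ᶜ) :=
      (Subgroup.isClosed_of_isOpen G' hG').isOpen_compl
    have h1 : ∀ σ, σ ∉ G' → (rat (M.ρ l₁) σ).trace = 0 :=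
      cmc_tr hTRP hS M _ hG'c l l₁ htr
    obtain ⟨t, ht⟩ : ∃ t, t ∉ G' := by
      by_contra hcon
      push Not at hcon
      exact hne (by rw [eq_top_iff]; exact fun x _ => hcon x)
    obtain ⟨a₁, a₂, -, hdet, htra⟩ := irb_line _ B A hBA
    obtain ⟨σ, hσ, hσne⟩ := ha G' hG'
    apply hσne
    have h2 : t * σ ∉ G' := fun h => ht ((Subgroup.mul_mem_cancel_right G' hσ).1 h)
    have h3 := htra t
    rw [h1 t ht] at h3
    have h4 := htra (t * σ)
    rw [h1 _ h2, map_mul, map_mul, Units.val_mul, Units.val_mul] at h4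
    have h5 : ((a₁ t : ℚ_[l₁]ˣ) : ℚ_[l₁]) ≠ 0 := Units.ne_zero _
    have h6 : ((a₁ σ : ℚ_[l₁]ˣ) : ℚ_[l₁]) = a₂ σ := by
      have h7 : ((a₁ t : ℚ_[l₁]ˣ) : ℚ_[l₁]) * (((a₁ σ : ℚ_[l₁]ˣ) : ℚ_[l₁]) - a₂ σ) = 0 := by
        linear_combination (-1) * h4 + ((a₂ σ : ℚ_[l₁]ˣ) : ℚ_[l₁]) * h3
      rcases mul_eq_zero.1 h7 with h8 | h8
      · exact absurd h8 h5
      · exact sub_eq_zero.1 h8
    rw [hdet, htra, h6]
    ring
  -- commutation over `ℚ_l`
  have hcomm : ∀ (l : ℕ) [Fact l.Prime] (g g' : Gal F),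
      rat (M.ρ l) g * rat (M.ρ l) g' = rat (M.ρ l) g' * rat (M.ρ l) g := by
    intro l _
    have hd' : (d : ℤ_[l]) ≠ 0 := by
      intro h0
      exact hd (by exact_mod_cast h0)
    obtain ⟨H, hH, hor⟩ := hGLD (Gal F) l (M.ρ l) (M.continuous l) (d : ℤ_[l]) N hd' hN.ne'
      (fun g => hsq l g)
    have hHf : H.FiniteIndex := by
      have := Subgroup.quotient_finite_of_isOpen H hH
      exact Subgroup.finiteIndex_of_finite_quotient
    have hH'o : IsOpen (H.normalCore : Set (Gal F)) :=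
      Subgroup.isOpen_of_isClosed_of_finiteIndex _
        (H.normalCore_isClosed (Subgroup.isClosed_of_isOpen H hH))
    have hH'n : H.normalCore.Normal := H.normalCore_normal
    have hor' : (∃ (B : Matrix (Fin 2) (Fin 1) ℚ_[l])
        (A : H.normalCore → Matrix (Fin 1) (Fin 1) ℚ_[l]),
        IsSub ((rat (M.ρ l)).comp H.normalCore.subtype) B A) ∨
        ∀ g ∈ H.normalCore, ∀ g' ∈ H.normalCore,
          rat (M.ρ l) g * rat (M.ρ l) g' = rat (M.ρ l) g' * rat (M.ρ l) g := by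
      rcases hor with ⟨v, hv0, hv⟩ | hcom
      · left
        exact cmc_line l (M.ρ l) H.normalCore v hv0 (fun g hg => hv g (H.normalCore_le hg))
      · right
        intro g hg g' hg'
        have h1 := hcom g (H.normalCore_le hg) g' (H.normalCore_le hg')
        rw [← map_mul, ← map_mul] at h1
        rw [← map_mul, ← map_mul]
        unfold rat
        simp only [MonoidHom.comp_apply]
        rw [h1]
    rcases hCMG (Gal F) ℚ_[l] (rat (M.ρ l)) H.normalCore hH'n (hss l) hor' with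
      ⟨G', hHG, hG'ne, htr⟩ | hsc | hcm
    · exact absurd htr (hc l G' (Subgroup.isOpen_mono hHG hH'o) hG'ne)
    · obtain ⟨σ, hσ, hne⟩ := hb l H.normalCore hH'o
      exact absurd (hsc σ hσ) hne
    · exact hcm
  refine ⟨fun l _ g g' => ?_, l₁, hl₁, ?_⟩
  · have h1 := hcomm l g g'
    rw [← map_mul, ← map_mul] at h1
    rw [← map_mul, ← map_mul]
    apply Units.ext
    have hinj : Function.Injective (algebraMap ℤ_[l] ℚ_[l]) :=
      FaithfulSMul.algebraMap_injective _ _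
    ext i j
    apply hinj
    exact congrFun (congrFun h1 i) j
  · obtain ⟨σ, -, hne⟩ := ha ⊤ isOpen_univ
    refine ⟨σ, fun h0 => hne ?_⟩
    rw [dsc_eq] at h0
    rw [(irb_rat _ _).1, (irb_rat _ _).2]
    have h2 := congrArg (algebraMap ℤ_[l₁] ℚ_[l₁]) h0
    rw [map_sub, map_mul, map_pow, map_ofNat, map_zero] at h2
    linear_combination h2

end REC
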