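import Pool.Agent.Helper27.REC.StmtsT
import Pool.Agent.Helper43.MU.Sub

/-!
# Primitive groups: Lie algebras normalised by a primitive group and spanned by components
-/

set_option autoImplicit false

open scoped Classical
open Polynomial

namespace REC

open MU

namespace KJp

variable {K : Type} [Field K] {n : ℕ}

/-- functions supported on a set -/
def Sup (K : Type) [Field K] {n : ℕ} (S : Finset (Fin n)) : Submodule K (Fin n → K) where
  carrier := {v | ∀ x, v x ≠ 0 → x ∈ S}
  add_mem' := by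
    intro a b ha hb x hx
    by_contra h
    apply hx
    have h1 : a x = 0 := by
      by_contra h2
      exact h (ha x h2)
    have h2 : b x = 0 := by
      by_contra h2
      exact h (hb x h2)
    rw [Pi.add_apply, h1, h2, add_zero]
  zero_mem' := by
    intro x hx
    exact absurd rfl hx
  smul_mem' := by
    intro c a ha x hx
    apply ha
    intro h
    apply hx
    rw [Pi.smul_apply, h, smul_zero]

theorem mem_Sup (S : Finset (Fin n)) (v : Fin n → K) :
    v ∈ Sup K S ↔ ∀ x, v x ≠ 0 → x ∈ S := Iff.rfl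

theorem Sup_le (S : Finset (Fin n)) (U : Submodule K (Fin n → K))
    (h : ∀ x ∈ S, Pi.single x (1 : K) ∈ U) : Sup K S ≤ U := by
  intro v hv
  have h1 : v = ∑ x, v x • (Pi.single x (1 : K) : Fin n → K) := by
    ext y
    rw [Finset.sum_apply, Finset.sum_eq_single y]
    · simp
    · intro b _ hb
      rw [Pi.smul_apply, Pi.single_eq_of_ne (Ne.symm hb), smul_zero]
    · intro h
      exact absurd (Finset.mem_univ _) h
  rw [h1]
  refine U.sum_mem fun x _ => ?_
  by_cases hx : v x = 0
  · rw [hx, zero_smul]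
    exact U.zero_mem
  · exact U.smul_mem _ (h x (hv x hx))

theorem single_mem_Sup (S : Finset (Fin n)) (x : Fin n) (hx : x ∈ S) :
    (Pi.single x (1 : K) : Fin n → K) ∈ Sup K S := by
  intro y hy
  by_cases h : y = x
  · rw [h]
    exact hx
  · exact absurd (Pi.single_eq_of_ne h _) hy

theorem mem_of_Sup_le (S T : Finset (Fin n)) (h : Sup K S ≤ Sup K T) : S ⊆ T := by
  intro x hx
  have h1 := h (single_mem_Sup S x hx)
  apply h1 x
  rw [Pi.single_eq_same]
  exact one_ne_zero

theorem finrank_Sup (S : Finset (Fin n)) : Module.finrank K (Sup K S) = S.card := by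
  have e : Sup K S ≃ₗ[K] (S → K) :=
    { toFun := fun v x => v.1 x.1
      map_add' := fun a b => rfl
      map_smul' := fun c a => rfl
      invFun := fun f => ⟨fun x => if hx : x ∈ S then f ⟨x, hx⟩ else 0, by
        intro x hx
        by_contra h
        apply hx
        exact dif_neg h⟩
      left_inv := by
        intro v
        apply Subtype.ext
        funext x
        change (if hx : x ∈ S then v.1 x else 0) = v.1 x
        by_cases hx : x ∈ S
        · rw [dif_pos hx]
        · rw [dif_neg hx]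
          by_contra h
          exact hx (v.2 x (Ne.symm h))
      right_inv := by
        intro f
        funext x
        change (if hx : x.1 ∈ S then f ⟨x.1, hx⟩ else 0) = f x
        rw [dif_pos x.2] }
  rw [e.finrank_eq, Module.finrank_fintype_fun_eq_card, Fintype.card_coe]

/-- Subspaces stable under sufficiently many diagonal matrices are spanned by basis vectors. -/
theorem comp_mem (W : Submodule K (Fin n → K)) (A : (Fin n → K) → Prop)
    (hW : ∀ h, A h → ∀ v ∈ W, (Matrix.diagonal h).mulVec v ∈ W)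
    (hsep : ∀ x y, x ≠ y → ∃ h, A h ∧ h x ≠ h y) (v : Fin n → K) (hv : v ∈ W) (x : Fin n) :
    Pi.single x (v x) ∈ W := by
  have h1 : ∀ S : Finset (Fin n), x ∉ S → ∃ w ∈ W, w x = v x ∧ ∀ y ∈ S, w y = 0 := by
    intro S
    induction S using Finset.induction_on with
    | empty =>
      intro _
      exact ⟨v, hv, rfl, fun y hy => absurd hy (Finset.notMem_empty y)⟩
    | insert a S ha ih =>
      intro hx
      obtain ⟨w, hw, hw1, hw2⟩ := ih (fun h => hx (Finset.mem_insert_of_mem h))
      have hxa : x ≠ a := fun h => hx (h ▸ Finset.mem_insert_self a S)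
      obtain ⟨h, hA, hne⟩ := hsep x a hxa
      refine ⟨(h x - h a)⁻¹ • ((Matrix.diagonal h).mulVec w - h a • w),
        W.smul_mem _ (W.sub_mem (hW h hA w hw) (W.smul_mem _ hw)), ?_, ?_⟩
      · rw [Pi.smul_apply, Pi.sub_apply, Matrix.mulVec_diagonal, Pi.smul_apply, smul_eq_mul,
          smul_eq_mul, ← sub_mul, ← mul_assoc, inv_mul_cancel₀ (sub_ne_zero.mpr hne), one_mul,
          hw1]
      · intro y hy
        rw [Pi.smul_apply, Pi.sub_apply, Matrix.mulVec_diagonal, Pi.smul_apply, smul_eq_mul,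
          smul_eq_mul, ← sub_mul]
        rcases Finset.mem_insert.mp hy with rfl | hy
        · rw [sub_self, zero_mul, mul_zero]
        · rw [hw2 y hy, mul_zero, mul_zero]
  obtain ⟨w, hw, hw1, hw2⟩ := h1 (Finset.univ.erase x) (Finset.notMem_erase x _)
  have h2 : w = Pi.single x (v x) := by
    funext y
    by_cases hy : y = x
    · subst hy
      rw [Pi.single_eq_same, hw1]
    · rw [Pi.single_eq_of_ne hy, hw2 y (Finset.mem_erase.mpr ⟨hy, Finset.mem_univ y⟩)]
  rw [← h2]
  exact hw

/-- reachable indices -/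
noncomputable def Rch (E : Fin n → Fin n → Prop) (x : Fin n) : Finset (Fin n) :=
  Finset.univ.filter fun y => Relation.ReflTransGen (fun a b => E b a) x y

theorem mem_Rch (E : Fin n → Fin n → Prop) (x y : Fin n) :
    y ∈ Rch E x ↔ Relation.ReflTransGen (fun a b => E b a) x y := by
  simp [Rch]

/-- The key step: in a primitive group, everything is reachable. -/
theorem reach {G : Type} [Group G] (r : G →* Matrix (Fin n) (Fin n) K) (hr : Prm r) (hn : 0 < n)
    (H : Submodule K (Matrix (Fin n) (Fin n) K)) (A : (Fin n → K) → Prop)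
    (hA : ∀ h, A h → Matrix.diagonal h ∈ H)
    (hsep : ∀ x y, x ≠ y → ∃ h, A h ∧ h x ≠ h y)
    (hg : ∀ g, ∀ X ∈ H, r g * X * r g⁻¹ ∈ H) (x : Fin n) :
    Rch (fun a b => a ≠ b ∧ ∃ X ∈ H, X a b ≠ 0) x = Finset.univ := by
  set E : Fin n → Fin n → Prop := fun a b => a ≠ b ∧ ∃ X ∈ H, X a b ≠ 0 with hE
  -- stable subspaces
  have hst : ∀ x, ∀ X ∈ H, ∀ v ∈ Sup K (Rch E x), X.mulVec v ∈ Sup K (Rch E x) := by
    intro x X hX v hv z hz
    rw [Matrix.mulVec, dotProduct] at hz
    obtain ⟨y, _, hy⟩ := Finset.exists_ne_zero_of_sum_ne_zero hz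
    have h1 : y ∈ Rch E x := hv y (right_ne_zero_of_mul hy)
    by_cases hzy : z = y
    · rw [hzy]
      exact h1
    · rw [mem_Rch] at h1 ⊢
      exact h1.tail ⟨hzy, X, hX, left_ne_zero_of_mul hy⟩
  have hcomp : ∀ U : Submodule K (Fin n → K), (∀ X ∈ H, ∀ v ∈ U, X.mulVec v ∈ U) →
      ∀ v ∈ U, ∀ x, Pi.single x (v x) ∈ U := by
    intro U hU v hv x
    exact comp_mem U A (fun h hh v hv => hU _ (hA h hh) v hv) hsep v hv x
  have hone : ∀ U : Submodule K (Fin n → K), ∀ x (a : K), a ≠ 0 → Pi.single x a ∈ U →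
      Pi.single x (1 : K) ∈ U := by
    intro U x a ha hU
    have h1 := U.smul_mem a⁻¹ hU
    rw [← Pi.single_smul, smul_eq_mul, inv_mul_cancel₀ ha] at h1
    exact h1
  have hge : ∀ U : Submodule K (Fin n → K), (∀ X ∈ H, ∀ v ∈ U, X.mulVec v ∈ U) →
      ∀ x, Pi.single x (1 : K) ∈ U → Sup K (Rch E x) ≤ U := by
    intro U hU x hx
    apply Sup_le
    intro y hy
    rw [mem_Rch] at hy
    induction hy with
    | refl => exact hx
    | @tail a b _ hab ih =>
      obtain ⟨hne, X, hX, hXab⟩ := hab
      have h1 := hcomp U hU _ (hU X hX _ ih) b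
      rw [Matrix.mulVec_single_one] at h1
      exact hone U b _ hXab h1
  -- the minimal size
  obtain ⟨x₀, _, hx₀⟩ := Finset.exists_min_image Finset.univ (fun x => (Rch E x).card)
    ⟨⟨0, hn⟩, Finset.mem_univ _⟩
  have hmin : ∀ y, (Rch E x₀).card ≤ (Rch E y).card := fun y => hx₀ y (Finset.mem_univ y)
  have hself : ∀ y, y ∈ Rch E y := fun y => (mem_Rch E y y).mpr Relation.ReflTransGen.refl
  have hinj : ∀ g, Function.Injective (r g).mulVec := by
    intro g v w hvw
    have h1 := congrArg (r g⁻¹).mulVec hvw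
    rw [Matrix.mulVec_mulVec, Matrix.mulVec_mulVec, ← map_mul, inv_mul_cancel, map_one,
      Matrix.one_mulVec, Matrix.one_mulVec] at h1
    exact h1
  have hperm : ∀ g x, (Rch E x).card = (Rch E x₀).card → ∃ y,
      (Rch E y).card = (Rch E x₀).card ∧
      (Sup K (Rch E x)).map (Matrix.toLin' (r g)) = Sup K (Rch E y) := by
    intro g x hx
    set U := (Sup K (Rch E x)).map (Matrix.toLin' (r g)) with hUdef
    have hU : ∀ X ∈ H, ∀ v ∈ U, X.mulVec v ∈ U := by
      intro X hX v hv
      obtain ⟨w, hw, rfl⟩ := Submodule.mem_map.mp hv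
      refine Submodule.mem_map.mpr ⟨(r g⁻¹ * X * r g).mulVec w, ?_, ?_⟩
      · apply hst x _ _ w hw
        have h1 := hg g⁻¹ X hX
        rw [inv_inv] at h1
        exact h1
      · rw [Matrix.toLin'_apply, Matrix.toLin'_apply, Matrix.mulVec_mulVec, Matrix.mulVec_mulVec,
          ← mul_assoc, ← mul_assoc, ← map_mul, mul_inv_cancel, map_one, one_mul]
    have h1 : (r g).mulVec (Pi.single x (1 : K)) ∈ U :=
      Submodule.mem_map.mpr ⟨_, single_mem_Sup _ x (hself x), Matrix.toLin'_apply _ _⟩
    have h2 : (r g).mulVec (Pi.single x (1 : K)) ≠ 0 := by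
      intro h
      rw [← Matrix.mulVec_zero (r g)] at h
      have h3 := congrFun (hinj g h) x
      rw [Pi.single_eq_same, Pi.zero_apply] at h3
      exact one_ne_zero h3
    obtain ⟨y, hy⟩ := Function.ne_iff.mp h2
    have h3 : Pi.single y (1 : K) ∈ U := hone U y _ hy (hcomp U hU _ h1 y)
    have h4 := hge U hU y h3
    have h5 : Module.finrank K U = (Rch E x).card := by
      have h6 : Function.Injective (Matrix.toLin' (r g)) := by
        intro a b hab
        rw [Matrix.toLin'_apply, Matrix.toLin'_apply] at hab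
        exact hinj g hab
      rw [hUdef, ← finrank_Sup (K := K) (Rch E x)]
      exact ((Sup K (Rch E x)).equivMapOfInjective _ h6).finrank_eq.symm
    have h6 := Submodule.finrank_mono h4
    rw [finrank_Sup, h5] at h6
    have h7 := hmin y
    refine ⟨y, by omega, ?_⟩
    symm
    apply Submodule.eq_of_le_of_finrank_eq h4
    rw [finrank_Sup, h5]
    omega
  have hdisj : ∀ x y z, (Rch E x).card = (Rch E x₀).card → (Rch E y).card = (Rch E x₀).card →
      z ∈ Rch E x → z ∈ Rch E y → Rch E x = Rch E y := by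
    have h1 : ∀ x z, (Rch E x).card = (Rch E x₀).card → z ∈ Rch E x → Rch E z = Rch E x := by
      intro x z hx hz
      apply Finset.eq_of_subset_of_card_le
      · intro w hw
        rw [mem_Rch] at hz hw ⊢
        exact hz.trans hw
      · rw [hx]
        exact hmin z
    intro x y z hx hy hzx hzy
    rw [← h1 x z hx hzx, ← h1 y z hy hzy]
  -- the family of the minimal stable subspaces
  set P : Finset (Finset (Fin n)) :=
    (Finset.univ.filter fun x => (Rch E x).card = (Rch E x₀).card).image (Rch E) with hP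
  have hPm : ∀ S, S ∈ P ↔ ∃ x, (Rch E x).card = (Rch E x₀).card ∧ Rch E x = S := by
    intro S
    simp [hP]
  have e : Fin P.card ≃ P := P.equivFin.symm
  have hdis : ∀ S ∈ P, ∀ T ∈ P, ∀ z, z ∈ S → z ∈ T → S = T := by
    intro S hS T hT z hzS hzT
    obtain ⟨x, hx, rfl⟩ := (hPm S).mp hS
    obtain ⟨y, hy, rfl⟩ := (hPm T).mp hT
    exact hdisj x y z hx hy hzS hzT
  have hstab : ∀ g j, ∃ j', (Sup K (e j).1).map (Matrix.toLin' (r g)) = Sup K (e j').1 := by
    intro g j
    obtain ⟨x, hx, hxS⟩ := (hPm _).mp (e j).2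
    obtain ⟨y, hy, hxy⟩ := hperm g x hx
    refine ⟨e.symm ⟨Rch E y, (hPm _).mpr ⟨y, hy, rfl⟩⟩, ?_⟩
    rw [Equiv.apply_symm_apply, ← hxS, hxy]
  have hne : ∀ j, Sup K (e j).1 ≠ ⊥ := by
    intro j h
    obtain ⟨x, hx, hxS⟩ := (hPm _).mp (e j).2
    have h1 := single_mem_Sup (K := K) _ x (hself x)
    rw [hxS, h, Submodule.mem_bot] at h1
    have h3 := congrFun h1 x
    rw [Pi.single_eq_same, Pi.zero_apply] at h3
    exact one_ne_zero h3
  have hx₀P : Rch E x₀ ∈ P := (hPm _).mpr ⟨x₀, rfl, rfl⟩
  have htop : (⨆ j, Sup K (e j).1) = ⊤ := by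
    rcases irr_stable hr.1 (⨆ j, Sup K (e j).1) (by
      intro g v hv
      have h1 : (Matrix.toLin' (r g)) v ∈ (⨆ j, Sup K (e j).1).map (Matrix.toLin' (r g)) :=
        Submodule.mem_map_of_mem hv
      rw [Submodule.map_iSup, Matrix.toLin'_apply] at h1
      refine (iSup_le fun j => ?_ : (⨆ j, (Sup K (e j).1).map (Matrix.toLin' (r g))) ≤
        ⨆ j, Sup K (e j).1) h1
      obtain ⟨j', hj'⟩ := hstab g j
      rw [hj']
      exact le_iSup (fun j => Sup K (e j).1) j') with h | h
    · exfalso
      apply hne (e.symm ⟨_, hx₀P⟩)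
      rw [eq_bot_iff, ← h]
      exact le_iSup (fun j => Sup K (e j).1) _
    · exact h
  have hind : iSupIndep fun j => Sup K (e j).1 := by
    intro i
    have h1 : (⨆ j, ⨆ (_ : j ≠ i), Sup K (e j).1) ≤ Sup K (Finset.univ \ (e i).1) := by
      refine iSup_le fun j => iSup_le fun hj => ?_
      intro v hv x hx
      rw [Finset.mem_sdiff]
      refine ⟨Finset.mem_univ x, fun h => hj ?_⟩
      have h2 := hdis _ (e j).2 _ (e i).2 x (hv x hx) h
      exact e.injective (Subtype.ext h2)
    refine Disjoint.mono_right h1 ?_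
    rw [Submodule.disjoint_def]
    intro v hv hv'
    funext x
    by_contra h
    exact (Finset.mem_sdiff.mp (hv' x h)).2 (hv x h)
  have hN := hr.2 P.card (fun j => Sup K (e j).1) (fun g j => by
    obtain ⟨j', hj'⟩ := hstab g j
    refine ⟨j', fun x hx => ?_⟩
    rw [← hj', ← Matrix.toLin'_apply]
    exact Submodule.mem_map_of_mem hx) hind htop hne
  have huniv : Rch E x₀ = Finset.univ := by
    rw [Finset.eq_univ_iff_forall]
    intro y
    have h1 : (⨆ j, Sup K (e j).1) ≤ Sup K (Rch E x₀) := by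
      refine iSup_le fun j => ?_
      rw [Finset.card_le_one.mp hN _ (e j).2 _ hx₀P]
    have h2 : (Pi.single y (1 : K) : Fin n → K) ∈ (⊤ : Submodule K (Fin n → K)) :=
      Submodule.mem_top
    rw [← htop] at h2
    apply h1 h2 y
    rw [Pi.single_eq_same]
    exact one_ne_zero
  rw [← Finset.card_eq_iff_eq_univ]
  apply le_antisymm (Finset.card_le_univ _)
  rw [← Finset.card_univ, ← huniv]
  exact hmin x

end KJp

end REC
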