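import Mathlib

/-! # LIN3, the eigenvalues of a similitude in three variables -/

set_option autoImplicit false

open Polynomial

namespace REC

namespace LIN3

variable {l : ℕ} [Fact l.Prime]

theorem sq_int (t : ℤ_[l]) (y : ℚ_[l]) (h : (t : ℚ_[l]) = y * y) : IsSquare t := by
  have h1 : ‖y‖ * ‖y‖ ≤ 1 := by
    rw [← norm_mul, ← h]
    exact t.2
  have h2 : ‖y‖ ≤ 1 := by nlinarith [norm_nonneg y]
  exact ⟨⟨y, h2⟩, Subtype.ext h⟩

theorem alg (x y δ T : ℚ_[l]) (hδ : δ ≠ 0) (h1 : x * y = δ ^ 2) (h2 : δ * T = δ + x + y) :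
    (T - 3) * (T + 1) = ((x - y) / δ) * ((x - y) / δ) := by
  have hT : T = (δ + x + y) / δ := by
    rw [eq_div_iff hδ, mul_comm]
    exact h2
  rw [hT]
  field_simp
  linear_combination 4 * h1

theorem eig (A ψ : Matrix (Fin 3) (Fin 3) ℚ_[l]) (δ : ℚ_[l]) (hδ : δ ≠ 0) (hψ : ψ.det ≠ 0)
    (hA : A.transpose * ψ * A = δ ^ 2 • ψ) (hdet : A.det = δ ^ 3) :
    (A - δ • (1 : Matrix (Fin 3) (Fin 3) ℚ_[l])).det = 0 := by
  have e1 : (A - δ • (1 : Matrix (Fin 3) (Fin 3) ℚ_[l])).transpose * ψ * A =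
      (-δ) • (ψ * (A - δ • (1 : Matrix (Fin 3) (Fin 3) ℚ_[l]))) := by
    rw [Matrix.transpose_sub, Matrix.transpose_smul, Matrix.transpose_one, Matrix.sub_mul,
      Matrix.sub_mul, hA, Matrix.mul_sub, Matrix.smul_mul, Matrix.smul_mul, Matrix.one_mul,
      Matrix.mul_smul, Matrix.mul_one, smul_sub, smul_smul, neg_smul, neg_mul, neg_smul,
      sub_neg_eq_add, pow_two]
    abel
  have e2 := congrArg Matrix.det e1
  rw [Matrix.det_mul, Matrix.det_mul, Matrix.det_transpose, Matrix.det_smul, Matrix.det_mul, hdet,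
    Fintype.card_fin] at e2
  have e3 : (A - δ • (1 : Matrix (Fin 3) (Fin 3) ℚ_[l])).det * (2 * δ ^ 3 * ψ.det) = 0 := by
    linear_combination e2
  rcases mul_eq_zero.1 e3 with h | h
  · exact h
  · exfalso
    have h2 : (2 : ℚ_[l]) ≠ 0 := two_ne_zero
    exact mul_ne_zero (mul_ne_zero h2 (pow_ne_zero 3 hδ)) hψ h

theorem frob_sq (A ψ : Matrix (Fin 3) (Fin 3) ℚ_[l]) (δ : ℚ_[l]) (hδ : δ ≠ 0) (hψ : ψ.det ≠ 0)
    (hA : A.transpose * ψ * A = δ ^ 2 • ψ) (hdet : A.det = δ ^ 3) (b : Fin 3 → ℚ_[l])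
    (hb : A.charpoly = ∏ i, (Polynomial.X - C (b i))) (t : ℤ_[l])
    (ht : (t : ℚ_[l]) = δ⁻¹ * A.trace) : IsSquare ((t - 3) * (t + 1)) := by
  have h1 := eig A ψ δ hδ hψ hA hdet
  have h2 : (δ - b 0) * (δ - b 1) * (δ - b 2) = 0 := by
    have e1 := congrArg (Polynomial.eval δ) hb
    rw [Matrix.eval_charpoly, Polynomial.eval_prod, Fin.prod_univ_three] at e1
    simp only [eval_sub, eval_X, eval_C] at e1
    rw [← e1]
    have e2 : Matrix.scalar (Fin 3) δ - A = -(A - δ • (1 : Matrix (Fin 3) (Fin 3) ℚ_[l])) := by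
      rw [neg_sub, Matrix.smul_one_eq_diagonal]
      rfl
    rw [e2, Matrix.det_neg, h1, mul_zero]
  have h3 : b 0 * b 1 * b 2 = δ ^ 3 := by
    have e1 := congrArg (Polynomial.eval 0) hb
    rw [Matrix.eval_charpoly, Polynomial.eval_prod, Fin.prod_univ_three] at e1
    simp only [eval_sub, eval_X, eval_C, map_zero, zero_sub, Matrix.det_neg, Fintype.card_fin] at e1
    rw [hdet] at e1
    linear_combination e1
  have h4 : A.trace = b 0 + b 1 + b 2 := by
    rw [Matrix.trace_eq_neg_charpoly_coeff, hb]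
    have e1 := Polynomial.prod_X_sub_C_coeff_card_pred (Finset.univ : Finset (Fin 3)) b (by simp)
    rw [Finset.card_univ] at e1
    rw [e1, neg_neg, Fin.sum_univ_three]
  have h5 : δ * (t : ℚ_[l]) = b 0 + b 1 + b 2 := by
    rw [ht, ← mul_assoc, mul_inv_cancel₀ hδ, one_mul, h4]
  have hcast : (((t - 3) * (t + 1) : ℤ_[l]) : ℚ_[l]) = ((t : ℚ_[l]) - 3) * ((t : ℚ_[l]) + 1) := by
    push_cast
    rfl
  rcases mul_eq_zero.1 h2 with h | h
  · rcases mul_eq_zero.1 h with h | h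
    · have h6 : b 0 = δ := (sub_eq_zero.1 h).symm
      refine sq_int _ ((b 1 - b 2) / δ) ?_
      rw [hcast]
      apply alg _ _ _ _ hδ
      · apply mul_left_cancel₀ hδ
        rw [h6] at h3
        linear_combination h3
      · rw [h5, h6]
    · have h6 : b 1 = δ := (sub_eq_zero.1 h).symm
      refine sq_int _ ((b 0 - b 2) / δ) ?_
      rw [hcast]
      apply alg _ _ _ _ hδ
      · apply mul_left_cancel₀ hδ
        rw [h6] at h3
        linear_combination h3
      · rw [h5, h6]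
        ring
  · have h6 : b 2 = δ := (sub_eq_zero.1 h).symm
    refine sq_int _ ((b 0 - b 1) / δ) ?_
    rw [hcast]
    apply alg _ _ _ _ hδ
    · apply mul_left_cancel₀ hδ
      rw [h6] at h3
      linear_combination h3
    · rw [h5, h6]
      ring

end LIN3

end REC
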