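import Pool.Agent.Helper85.REC.Stmts9
import Pool.Agent.Helper85.REC.LIN0
import Pool.Agent.Helper8.REC.LIN3a

/-!
# REC, LIN3: the exact relation gives a line stable under an open subgroup (rank three)
-/

set_option autoImplicit false
set_option maxHeartbeats 800000

open scoped Classical
open NumberField Polynomial Topology

namespace REC

open Pool.Agent.Helper13.ZL (Pl q)
open MU

namespace LIN3

section

variable {G : Type} [Group G] {l : ℕ} [Fact l.Prime]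

/-- twist by the inverse of a character -/
noncomputable def tw (r : G →* Matrix.GeneralLinearGroup (Fin 3) ℤ_[l]) (d : G →* ℤ_[l]ˣ) :
    G →* Matrix.GeneralLinearGroup (Fin 3) ℤ_[l] where
  toFun g := Units.map (algebraMap ℤ_[l] (Matrix (Fin 3) (Fin 3) ℤ_[l])).toMonoidHom (d g)⁻¹ * r g
  map_one' := by
    rw [map_one, map_one, inv_one, map_one, mul_one]
  map_mul' g h := by
    apply Units.ext
    rw [map_mul, map_mul, mul_inv, map_mul]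
    simp only [Units.val_mul]
    have h1 : ∀ (u : ℤ_[l]ˣ) (X : Matrix (Fin 3) (Fin 3) ℤ_[l]),
        ((Units.map (algebraMap ℤ_[l] (Matrix (Fin 3) (Fin 3) ℤ_[l])).toMonoidHom u :
          (Matrix (Fin 3) (Fin 3) ℤ_[l])ˣ) : Matrix (Fin 3) (Fin 3) ℤ_[l]) * X =
        X * ((Units.map (algebraMap ℤ_[l] (Matrix (Fin 3) (Fin 3) ℤ_[l])).toMonoidHom u :
          (Matrix (Fin 3) (Fin 3) ℤ_[l])ˣ) : Matrix (Fin 3) (Fin 3) ℤ_[l]) :=
      fun u X => Algebra.commutes _ _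
    rw [mul_assoc, mul_assoc, ← mul_assoc _ _ ((r h : Matrix.GeneralLinearGroup (Fin 3) ℤ_[l]) :
      Matrix (Fin 3) (Fin 3) ℤ_[l]), h1 _ ((r g : Matrix.GeneralLinearGroup (Fin 3) ℤ_[l]) :
      Matrix (Fin 3) (Fin 3) ℤ_[l]), mul_assoc]

theorem tw_val (r : G →* Matrix.GeneralLinearGroup (Fin 3) ℤ_[l]) (d : G →* ℤ_[l]ˣ) (g : G) :
    (tw r d g : Matrix (Fin 3) (Fin 3) ℤ_[l]) =
      (((d g)⁻¹ : ℤ_[l]ˣ) : ℤ_[l]) • (r g : Matrix (Fin 3) (Fin 3) ℤ_[l]) := by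
  rw [Algebra.smul_def]
  rfl

theorem tw_cont [TopologicalSpace G] (r : G →* Matrix.GeneralLinearGroup (Fin 3) ℤ_[l])
    (d : G →* ℤ_[l]ˣ) (hr : Continuous r) (hd : Continuous d) : Continuous (tw r d) := by
  have h1 : Continuous fun g => Units.map
      (algebraMap ℤ_[l] (Matrix (Fin 3) (Fin 3) ℤ_[l])).toMonoidHom (d g)⁻¹ :=
    (Continuous.units_map _ (continuous_algebraMap ℤ_[l] (Matrix (Fin 3) (Fin 3) ℤ_[l]))).comp
      hd.inv
  exact h1.mul hr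

theorem rat_val (r : G →* Matrix.GeneralLinearGroup (Fin 3) ℤ_[l]) (g : G) :
    rat r g = (r g : Matrix (Fin 3) (Fin 3) ℤ_[l]).map (algebraMap ℤ_[l] ℚ_[l]) := rfl

theorem rat_det (r : G →* Matrix.GeneralLinearGroup (Fin 3) ℤ_[l]) (g : G) :
    (rat r g).det = (((r g : Matrix (Fin 3) (Fin 3) ℤ_[l]).det : ℤ_[l]) : ℚ_[l]) := by
  rw [rat_val]
  exact (RingHom.map_det (algebraMap ℤ_[l] ℚ_[l]) _).symm

theorem rat_tw (r : G →* Matrix.GeneralLinearGroup (Fin 3) ℤ_[l]) (d : G →* ℤ_[l]ˣ) (g : G) :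
    rat (tw r d) g = (((((d g)⁻¹ : ℤ_[l]ˣ) : ℤ_[l]) : ℚ_[l])) • rat r g := by
  rw [rat_val, rat_val, tw_val]
  ext i j
  rw [Matrix.map_apply, Matrix.smul_apply, Matrix.smul_apply, Matrix.map_apply, smul_eq_mul,
    smul_eq_mul, map_mul]
  rfl

theorem u_ne (u : ℤ_[l]ˣ) : (((u : ℤ_[l]ˣ) : ℤ_[l]) : ℚ_[l]) ≠ 0 := by
  intro h
  exact u.ne_zero (Subtype.ext h)

theorem u_inv (u : ℤ_[l]ˣ) :
    (((u⁻¹ : ℤ_[l]ˣ) : ℤ_[l]) : ℚ_[l]) = ((((u : ℤ_[l]ˣ) : ℤ_[l]) : ℚ_[l]))⁻¹ := by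
  apply eq_inv_of_mul_eq_one_left
  have h1 : ((u⁻¹ : ℤ_[l]ˣ) : ℤ_[l]) * ((u : ℤ_[l]ˣ) : ℤ_[l]) = 1 := Units.inv_mul u
  have h2 : ((((u⁻¹ : ℤ_[l]ˣ) : ℤ_[l]) * ((u : ℤ_[l]ˣ) : ℤ_[l]) : ℤ_[l]) : ℚ_[l]) =
      ((1 : ℤ_[l]) : ℚ_[l]) := by rw [h1]
  rwa [PadicInt.coe_mul, PadicInt.coe_one] at h2

end

end LIN3

open LIN3 in
theorem st_LIN3 (hSPQ : ST_SPQ) (hFRB : ST_FRB) (hOVP : ST_OVP) (hSYM : ST_SYM)
    (hGO3 : ST_GO3) : ST_LIN3 := by
  intro F L _ _ _ _ _ _ S hS w h M e hRel hirr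
  obtain ⟨-, S', hSS', hrel⟩ := hRel
  obtain ⟨l, hl, -, ⟨ι⟩⟩ := hSPQ L 0
  obtain ⟨m, hm, hgen⟩ := lin_gen F
  obtain ⟨-, -, hO3, -, -, -, hO7⟩ := hOVP F
  obtain ⟨ψ, hψ1, hψ2, hψ3⟩ := hSYM F S hS 3 w h M (by decide) l (hirr l)
  -- the character
  let ν : Gal F →* ℤ_[l]ˣ := ((cyc l F) ^ w)⁻¹
  have hν : ∀ g : Gal F, ((((ν g : ℤ_[l]ˣ) : ℤ_[l]) : ℚ_[l])) =
      ((((cyc l F g)⁻¹ : ℤ_[l]ˣ) : ℤ_[l]) : ℚ_[l]) ^ w := by
    intro g
    have h1 : ν g = ((cyc l F g)⁻¹) ^ w := by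
      rw [inv_pow]
      rfl
    rw [h1]
    push_cast
    rfl
  have hψ4 : ∀ g : Gal F, (rat (M.ρ l) g).transpose * ψ * rat (M.ρ l) g =
      ((((ν g : ℤ_[l]ˣ) : ℤ_[l]) : ℚ_[l])) • ψ := by
    intro g
    rw [hν]
    exact hψ3 g
  let D : Gal F →* ℤ_[l]ˣ := Matrix.GeneralLinearGroup.det.comp (M.ρ l)
  have hD : ∀ g : Gal F, ((D g : ℤ_[l]ˣ) : ℤ_[l]) =
      (M.ρ l g : Matrix (Fin 3) (Fin 3) ℤ_[l]).det := fun g => rfl
  have hD2 : ∀ g : Gal F, (D g) ^ 2 = (ν g) ^ 3 := by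
    intro g
    have h1 := congrArg Matrix.det (hψ4 g)
    rw [Matrix.det_mul, Matrix.det_mul, Matrix.det_transpose, Matrix.det_smul, Fintype.card_fin,
      rat_det, ← hD] at h1
    have h2 : ((((D g : ℤ_[l]ˣ) : ℤ_[l]) : ℚ_[l])) ^ 2 = ((((ν g : ℤ_[l]ˣ) : ℤ_[l]) : ℚ_[l])) ^ 3 := by
      apply mul_right_cancel₀ hψ1
      linear_combination h1
    apply Units.ext
    apply Subtype.ext
    push_cast
    exact h2
  let d : Gal F →* ℤ_[l]ˣ := D * ν⁻¹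
  have hd2 : ∀ g : Gal F, (d g) ^ 2 = ν g := by
    intro g
    have h1 : d g = D g * (ν g)⁻¹ := rfl
    rw [h1, mul_pow, hD2, inv_pow, pow_succ, mul_assoc, mul_comm (ν g), ← mul_assoc, mul_inv_cancel,
      one_mul]
  have hd3 : ∀ g : Gal F, (d g) ^ 3 = D g := by
    intro g
    rw [pow_succ, hd2]
    have h1 : d g = D g * (ν g)⁻¹ := rfl
    rw [h1, mul_comm, mul_assoc, inv_mul_cancel, mul_one]
  have hd2' : ∀ g : Gal F, ((((d g : ℤ_[l]ˣ) : ℤ_[l]) : ℚ_[l])) ^ 2 =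
      ((((ν g : ℤ_[l]ˣ) : ℤ_[l]) : ℚ_[l])) := by
    intro g
    rw [← hd2 g]
    push_cast
    rfl
  have hd3' : ∀ g : Gal F, ((((d g : ℤ_[l]ˣ) : ℤ_[l]) : ℚ_[l])) ^ 3 = (rat (M.ρ l) g).det := by
    intro g
    rw [rat_det, ← hD, ← hd3 g]
    push_cast
    rfl
  have hcont : Continuous (tw (M.ρ l) d) := by
    apply tw_cont _ _ (M.continuous l)
    have h1 : Continuous D := by
      have h2 : Continuous (fun g : Gal F => Units.map (Matrix.detMonoidHom (n := Fin 3)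
          (R := ℤ_[l])) (M.ρ l g)) :=
        (Continuous.units_map _ (show Continuous fun X : Matrix (Fin 3) (Fin 3) ℤ_[l] => X.det from
          continuous_id.matrix_det)).comp (M.continuous l)
      exact h2
    have h3 : Continuous ν := ((cyclotomicCharacter.continuous l F (AlgebraicClosure F)).pow w).inv
    exact h1.mul h3.inv
  set r' := tw (M.ρ l) d with hr'
  have hform : IsForm (rat r') ψ (fun _ => 1) := by
    refine ⟨hψ1, hψ2, fun g => ?_⟩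
    rw [hr', rat_tw, Matrix.transpose_smul, Matrix.smul_mul, Matrix.smul_mul, Matrix.mul_smul,
      hψ4 g, smul_smul, smul_smul, ← hd2' g, u_inv]
    congr 1
    have := u_ne (d g)
    field_simp
  have hdet : ∀ g, (r' g : Matrix (Fin 3) (Fin 3) ℤ_[l]).det = 1 := by
    intro g
    rw [hr', tw_val, Matrix.det_smul, Fintype.card_fin, ← hD, ← hd3 g]
    rw [← Units.val_pow_eq_pow_val, ← Units.val_mul, inv_pow, inv_mul_cancel, Units.val_one]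
  -- Frobenius elements
  let f : Gal F → ℤ_[l] := fun g =>
    (((r' g : Matrix (Fin 3) (Fin 3) ℤ_[l]) ^ m).trace - 3) *
      (((r' g : Matrix (Fin 3) (Fin 3) ℤ_[l]) ^ m).trace + 1)
  have hfc : Continuous f := by
    have h1 : Continuous fun g : Gal F => ((r' g : Matrix.GeneralLinearGroup (Fin 3) ℤ_[l]) :
        Matrix (Fin 3) (Fin 3) ℤ_[l]) := Units.continuous_val.comp hcont
    have h2 : Continuous fun g : Gal F => ((r' g : Matrix (Fin 3) (Fin 3) ℤ_[l]) ^ m).trace :=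
      (h1.pow m).matrix_trace
    exact (h2.sub continuous_const).mul (h2.add continuous_const)
  have key : ∀ (p : ℕ) (𝔓 : Ideal (Zb F)) (k : ℕ) (σ : Gal F), p.Prime → p ∉ insert l S' →
      Over p 𝔓 → 1 ≤ k → CongPow 𝔓 (p ^ k) σ → IsSquare (f σ⁻¹) := by
    intro p 𝔓 k σ hp hpS h𝔓 hk hσ
    simp only [Finset.mem_insert, not_or] at hpS
    obtain ⟨v, hv⟩ := hO3 p 𝔓 hp h𝔓
    obtain ⟨j, hj⟩ := hO7 v 𝔓 hv p k σ hp h𝔓 hσ
    have hj0 : 0 < j := by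
      rcases Nat.eq_zero_or_pos j with h0 | h0
      · rw [h0, pow_zero] at hj
        have := Nat.one_lt_pow (by omega : k ≠ 0) hp.one_lt
        omega
      · exact h0
    obtain ⟨x, hx1, hx2⟩ := hgen v
    have hpv : (p : 𝓞 F) ∈ v.asIdeal := by
      have := (hv.2 (p : 𝓞 F) (p : Zb F) (by simp)).mp h𝔓.2
      exact this
    have hσm : CongPow 𝔓 (p ^ (k * m)) ((σ ^ m : Gal F)) := by
      rw [pow_mul]
      exact congPow_pow 𝔓 (p ^ k) σ hσ m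
    obtain ⟨P, -, hP⟩ := M.pure p hp (fun h => hpS.2 (hSS' h)) 𝔓 h𝔓 (k * m) (σ ^ m)
      (Nat.mul_pos hk hm) hσm
    have hσ' : CongPow 𝔓 (q v ^ j) σ := by
      rw [← hj]
      exact hσ
    have h1 := hrel v p 𝔓 j m σ x P hp hpS.2 hpv hv hj0 hm hσ' hx1 hx2 (by
      intro l' _ hl'
      have := hP l' hl'
      rwa [map_inv] at this)
    have h2 := hP l (fun h => hpS.1 h.symm)
    -- eigenvalues in `ℚ_l`
    set β : Fin 3 → 𝓞 L := fun i => ∏ τ : F →+* L, RingOfIntegers.mapRingHom τ x ^ (e i τ * j)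
      with hβ
    have hch : (rat (M.ρ l) (σ ^ m)⁻¹).charpoly =
        ∏ i, (Polynomial.X - C (ι ((β i : 𝓞 L) : L))) := by
      have e1 : (rat (M.ρ l) (σ ^ m)⁻¹).charpoly = (P.map (Int.castRingHom ℤ_[l])).map
          (algebraMap ℤ_[l] ℚ_[l]) := by
        rw [← h2, rat_val]
        exact Matrix.charpoly_map _ _
      have e2 : (P.map (Int.castRingHom ℤ_[l])).map (algebraMap ℤ_[l] ℚ_[l]) =
          (P.map (Int.castRingHom (𝓞 L))).map (ι.comp (algebraMap (𝓞 L) L)) := by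
        rw [Polynomial.map_map, Polynomial.map_map]
        congr 1
        exact Subsingleton.elim _ _
      rw [e1, e2, h1, Polynomial.map_prod]
      refine Finset.prod_congr rfl fun i _ => ?_
      rw [Polynomial.map_sub, Polynomial.map_X, Polynomial.map_C]
      rfl
    have hpow : (r' σ⁻¹ : Matrix (Fin 3) (Fin 3) ℤ_[l]) ^ m =
        (r' (σ ^ m)⁻¹ : Matrix (Fin 3) (Fin 3) ℤ_[l]) := by
      rw [← Units.val_pow_eq_pow_val, ← map_pow, inv_pow]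
    show IsSquare ((((r' σ⁻¹ : Matrix (Fin 3) (Fin 3) ℤ_[l]) ^ m).trace - 3) *
      (((r' σ⁻¹ : Matrix (Fin 3) (Fin 3) ℤ_[l]) ^ m).trace + 1))
    rw [hpow]
    refine frob_sq (rat (M.ρ l) (σ ^ m)⁻¹) ψ ((((d (σ ^ m)⁻¹ : ℤ_[l]ˣ) : ℤ_[l]) : ℚ_[l]))
      (u_ne _) hψ1 ?_ (hd3' _).symm _ hch _ ?_
    · rw [hd2']
      exact hψ4 _
    · rw [hr', tw_val, Matrix.trace_smul, smul_eq_mul, rat_val, ← u_inv]
      have e4 : ((M.ρ l (σ ^ m)⁻¹ : Matrix (Fin 3) (Fin 3) ℤ_[l]).map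
          (algebraMap ℤ_[l] ℚ_[l])).trace =
          ((((M.ρ l (σ ^ m)⁻¹ : Matrix (Fin 3) (Fin 3) ℤ_[l]).trace : ℤ_[l])) : ℚ_[l]) :=
        (AddMonoidHom.map_trace (algebraMap ℤ_[l] ℚ_[l]).toAddMonoidHom _).symm
      rw [e4]
      push_cast
      rfl
  -- all elements
  have hall : ∀ g : Gal F, IsSquare (f g) := by
    intro g
    by_contra hne
    have hopen : IsOpen {x : Gal F | ¬ IsSquare (f (g * x))} := by
      have h3 : IsClosed {x : Gal F | IsSquare (f (g * x))} :=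
        gl_sq_closed.preimage (hfc.comp (continuous_const_mul g))
      exact h3.isOpen_compl
    have hmem : {x : Gal F | ¬ IsSquare (f (g * x))} ∈ 𝓝 (1 : Gal F) := by
      apply hopen.mem_nhds
      simpa using hne
    obtain ⟨E, hE, hEn, hEs⟩ :=
      (krullTopology_mem_nhds_one_iff_of_normal F (AlgebraicClosure F) _).1 hmem
    have hEgal : IsGalois F E := { }
    have hUn : E.fixingSubgroup.Normal := (InfiniteGalois.normal_iff_isGalois E).2 hEgal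
    obtain ⟨p, 𝔓, k, σ, hp, hpS, h𝔓, hk, hσ, hgσ⟩ := hFRB F E.fixingSubgroup hUn
      E.fixingSubgroup_isOpen (insert l S') g⁻¹
    rw [inv_inv] at hgσ
    have h4 : g⁻¹ * σ⁻¹ ∈ E.fixingSubgroup := by
      have h5 := hUn.conj_mem _ (E.fixingSubgroup.inv_mem hgσ) g⁻¹
      have h6 : g⁻¹ * (g * σ)⁻¹ * g⁻¹⁻¹ = g⁻¹ * σ⁻¹ := by group
      rwa [h6] at h5
    have h7 := hEs h4
    apply h7
    have h8 : g * (g⁻¹ * σ⁻¹) = σ⁻¹ := by group
    change IsSquare (f (g * (g⁻¹ * σ⁻¹)))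
    rw [h8]
    exact key p 𝔓 k σ hp hpS h𝔓 hk hσ
  obtain ⟨H, hH, B, A, hBA⟩ := hGO3 l (Gal F) r' hcont ψ hform hdet m hm hall
  refine ⟨l, hl, H, hH, B, fun g => ((((d (g : Gal F) : ℤ_[l]ˣ) : ℤ_[l]) : ℚ_[l])) • A g,
    hBA.1, fun g => ?_⟩
  have h1 := hBA.2 g
  have h2 : rat r' (g : Gal F) * B = B * A g := h1
  have h3 : ((rat (M.ρ l)).comp H.subtype) g = rat (M.ρ l) (g : Gal F) := rfl
  rw [hr', rat_tw, Matrix.smul_mul] at h2
  rw [h3, Matrix.mul_smul, ← h2, smul_smul, u_inv, mul_inv_cancel₀ (u_ne _), one_smul]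

end REC
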